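import Pool.Agent.TH8.UDK.KDom

/-!
Sequences of points over a ground field given by linear recurrences: the three kinds of sequences.
-/

set_option autoImplicit false

namespace Pool.Agent.TH8.UDK.K

open MvPolynomial Pool.Agent.TH8.UNI Pool.Agent.W602.GT Pool.Agent.TH143.GT
open Filter (atTop eventually_atTop Eventually)

variable {𝕜 : Type} [Field 𝕜] [CharZero 𝕜] [Algebra 𝕜 ℂ] {N : ℕ}
  {T : Set (MvPolynomial (Fin (N + 1)) 𝕜)} {p : Ideal (MvPolynomial (Fin (N + 1)) ℂ)}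
  {K : Type} [Field K] [Algebra ℂ K] {w : ℕ} {y : Fin (N + 1) → K}

theorem dom_of_seq' (hT : ∀ G ∈ T, IsForm G)
    (hp : p = Ideal.span (map (algebraMap 𝕜 ℂ) '' T)) (hy : FunField p 1 K w y)
    {B : Subalgebra 𝕜 (ℕ → 𝕜)} (hB : CoefField B) (hback : Back B) {x : ℕ → Fin (N + 1) → 𝕜}
    (hx : ∀ j, LinRec B (fun m => x m j))
    (hX : Pool.Agent.TH8.UDE.SeqIn p fun m j => algebraMap 𝕜 ℂ (x m j))
    (hd : DenseSeq B (fun G => map (algebraMap 𝕜 ℂ) G ∈ p) x) :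
    Pool.Agent.TH8.UDE.DomOver 𝕜 p := by
  refine dom_of_seq T hT hp hy hB hback hx (fun G hG => ?_) hd
  obtain ⟨d, hd⟩ := hT G hG
  refine Eventually.of_forall fun m => ?_
  have h1 := hX m (map (algebraMap 𝕜 ℂ) G) (by
    rw [hp]
    exact Ideal.subset_span ⟨G, hG, rfl⟩) ⟨d, hd.map _⟩
  rw [eval_cast, map_eq_zero] at h1
  exact h1

theorem dom_of_crec (hT : ∀ G ∈ T, IsForm G)
    (hp : p = Ideal.span (map (algebraMap 𝕜 ℂ) '' T)) (hy : FunField p 1 K w y)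
    {x : ℕ → Fin (N + 1) → 𝕜}
    (hx : ∀ j, Pool.Agent.TH8.UDE.CRec fun m => algebraMap 𝕜 ℂ (x m j)) (h0 : x 0 ≠ 0)
    (hX : Pool.Agent.TH8.UDE.SeqIn p fun m j => algebraMap 𝕜 ℂ (x m j))
    (hd : Pool.Agent.TH143.DE.SeqDense p fun m j => algebraMap 𝕜 ℂ (x m j)) :
    Pool.Agent.TH8.UDE.DomOver 𝕜 p := by
  rcases Nat.eq_zero_or_pos w with hw | hw
  · subst hw
    exact dom_zero hy h0 (hX 0)
  · exact dom_of_seq' hT hp hy constB_field constB_back (fun j => (cRec_descend (hx j)).linRec) hX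
      (dense_const (tail_descend (hd.tail hy hw)))

omit [CharZero 𝕜] in
/-- the coefficients of the recurrences form a field of sequences -/
theorem exB_of_rec {t : ℕ → 𝕜} (ht : Function.Injective t) {α β : ℂ}
    (hρ : ∀ m, algebraMap 𝕜 ℂ (t (m + 1)) = α * algebraMap 𝕜 ℂ (t m) + β)
    {x : ℕ → Fin (N + 1) → 𝕜}
    (hx : ∀ j, Pool.Agent.TH143.DE.RecAlong (fun m => algebraMap 𝕜 ℂ (t m))
      fun m => algebraMap 𝕜 ℂ (x m j))
    (hd : Pool.Agent.TH8.UDE.SeqGraphDense p (fun m => algebraMap 𝕜 ℂ (t m))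
      fun m j => algebraMap 𝕜 ℂ (x m j)) :
    ∃ B : Subalgebra 𝕜 (ℕ → 𝕜), CoefField B ∧ Back B ∧ (∀ j, LinRec B fun m => x m j) ∧
      DenseSeq B (fun G => map (algebraMap 𝕜 ℂ) G ∈ p) x := by
  have hinj : Function.Injective (algebraMap 𝕜 ℂ) := (algebraMap 𝕜 ℂ).injective
  have hne : t 1 - t 0 ≠ 0 := by
    rw [sub_ne_zero]
    intro h
    have := ht h
    omega
  have hne' : algebraMap 𝕜 ℂ (t 1) - algebraMap 𝕜 ℂ (t 0) ≠ 0 := by
    rw [← map_sub, Ne, map_eq_zero]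
    exact hne
  obtain ⟨α', hα⟩ : ∃ α' : 𝕜, algebraMap 𝕜 ℂ α' = α := by
    refine ⟨(t 2 - t 1) / (t 1 - t 0), ?_⟩
    rw [map_div₀, map_sub, map_sub, div_eq_iff hne']
    have h1 := hρ 1
    have h2 := hρ 0
    linear_combination h1 - h2
  obtain ⟨β', hβ⟩ : ∃ β' : 𝕜, algebraMap 𝕜 ℂ β' = β := by
    refine ⟨t 1 - α' * t 0, ?_⟩
    rw [map_sub, map_mul, hα]
    linear_combination hρ 0
  have hρ' : ∀ m, t (m + 1) = α' * t m + β' := by
    intro m
    apply hinj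
    rw [map_add, map_mul, hα, hβ]
    exact hρ m
  exact ⟨ratB t ht, ratB_field ht (Polynomial.C α' * Polynomial.X + Polynomial.C β')
      (fun m => by
        rw [hρ' m, Polynomial.eval_add, Polynomial.eval_mul, Polynomial.eval_C, Polynomial.eval_X,
          Polynomial.eval_C]),
    ratB_back ht hρ', fun j => (recAlong_descend (hx j)).linRec ht, (graph_descend hd).denseSeq ht⟩

omit [CharZero 𝕜] in
/-- the sequence of exponential sums over the ground field -/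
theorem exp_seq (M : ℕ) (a : Fin (N + 1) → ℕ → 𝕜) :
    (fun (m : ℕ) (j : Fin (N + 1)) =>
      algebraMap 𝕜 ℂ (∑ i ∈ Finset.Icc 1 M, a j i * (i : 𝕜) ^ m)) =
      Pool.Agent.TH8.UDE.dirSeq M fun j i => algebraMap 𝕜 ℂ (a j i) := by
  funext m j
  unfold Pool.Agent.TH8.UDE.dirSeq
  rw [map_sum]
  refine Finset.sum_congr rfl fun i _ => ?_
  rw [map_mul, map_pow, map_natCast]

omit [CharZero 𝕜] in
theorem crec_of_dir {M : ℕ} {a : Fin (N + 1) → ℕ → 𝕜}
    (h0 : ∀ m, Pool.Agent.TH8.UDE.dirSeq M (fun j i => algebraMap 𝕜 ℂ (a j i)) m ≠ 0)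
    (hX : Pool.Agent.TH8.UDE.SeqIn p (Pool.Agent.TH8.UDE.dirSeq M fun j i => algebraMap 𝕜 ℂ (a j i)))
    (hd : Pool.Agent.TH8.UDE.SeqGraphDense p (fun m => (m : ℂ))
      (Pool.Agent.TH8.UDE.dirSeq M fun j i => algebraMap 𝕜 ℂ (a j i))) :
    ∃ x : ℕ → Fin (N + 1) → 𝕜,
      (∀ j, Pool.Agent.TH8.UDE.CRec fun m => algebraMap 𝕜 ℂ (x m j)) ∧ (∀ m, x m ≠ 0) ∧
      (Pool.Agent.TH8.UDE.SeqIn p fun m j => algebraMap 𝕜 ℂ (x m j)) ∧
      Pool.Agent.TH8.UDE.SeqGraphDense p (fun m => (m : ℂ)) fun m j => algebraMap 𝕜 ℂ (x m j) := by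
  refine ⟨fun m j => ∑ i ∈ Finset.Icc 1 M, a j i * (i : 𝕜) ^ m, fun j => ?_, fun m hm => ?_, ?_, ?_⟩
  · have h3 := Pool.Agent.TH8.UDE.dir_rec M fun i => algebraMap 𝕜 ℂ (a j i)
    have h4 : (fun m => algebraMap 𝕜 ℂ (∑ i ∈ Finset.Icc 1 M, a j i * (i : 𝕜) ^ m)) =
        fun m => ∑ k ∈ Finset.Icc 1 M, algebraMap 𝕜 ℂ (a j k) * (k : ℂ) ^ m := by
      funext m
      exact congrFun (congrFun (exp_seq M a) m) j
    rw [h4]
    exact h3
  · apply h0 m
    rw [← exp_seq]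
    funext j
    have h3 : ∑ i ∈ Finset.Icc 1 M, a j i * (i : 𝕜) ^ m = 0 := congrFun hm j
    change algebraMap 𝕜 ℂ (∑ i ∈ Finset.Icc 1 M, a j i * (i : 𝕜) ^ m) = 0
    rw [h3, map_zero]
  · rw [exp_seq]
    exact hX
  · rw [exp_seq]
    exact hd

/-- the ideal of the variety over an extension -/
theorem span_up {k L : Type} [Field k] [Field L] [Algebra k L] [Algebra k ℂ] [Algebra L ℂ]
    [IsScalarTower k L ℂ] (T : Set (MvPolynomial (Fin (N + 1)) k))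
    (hp : p = Ideal.span (map (algebraMap k ℂ) '' T)) :
    p = Ideal.span (map (algebraMap L ℂ) '' (map (algebraMap k L) '' T)) := by
  rw [hp, Set.image_image]
  congr 1
  apply Set.image_congr
  intro G _
  rw [map_map, ← IsScalarTower.algebraMap_eq]

theorem form_up {k L : Type} [Field k] [Field L] [Algebra k L]
    {T : Set (MvPolynomial (Fin (N + 1)) k)} (hT : ∀ G ∈ T, ∃ d, G.IsHomogeneous d) :
    ∀ G ∈ map (algebraMap k L) '' T, IsForm G := by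
  rintro _ ⟨G, hG, rfl⟩
  obtain ⟨d, hd⟩ := hT G hG
  exact ⟨d, hd.map _⟩

/-- parametrizations over a subfield give embeddings of the function field over `ℂ` -/
theorem uni_of_dom (hy : FunField p 1 K w y) (h : Pool.Agent.TH8.UDE.DomOver 𝕜 p) :
    Pool.Agent.TH8.UNI.Unirational K := by
  obtain ⟨M, a, -, h1, h2⟩ := Pool.Agent.TH8.UDE.dirSeq_of_dom 𝕜 hy h
  have h3 := h2.dense
  rcases Nat.eq_zero_or_pos w with hw | hw
  · subst hw
    have halg : Algebra.IsAlgebraic ℂ K := by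
      rw [← trdeg_eq_zero_iff]
      exact_mod_cast hy.sub.dim
    have h4 : Function.Bijective (algebraMap ℂ K) :=
      IsAlgClosed.algebraMap_bijective_of_isIntegral
    let e : ℂ ≃ₐ[ℂ] K := AlgEquiv.ofBijective (Algebra.ofId ℂ K) h4
    exact ⟨0, ⟨(Algebra.ofId ℂ _).comp e.symm.toAlgHom⟩⟩
  · exact ⟨w, Pool.Agent.TH8.UDE.uni_of_seq hy Pool.Agent.TH8.UDE.constB_field
      Pool.Agent.TH8.UDE.constB_back (fun j => (Pool.Agent.TH8.UDE.dir_rec M _).linRec)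
      (fun H hH hHf => Eventually.of_forall fun m => h1 m H hH hHf)
      (Pool.Agent.TH8.UDE.dense_const (h3.tail hy hw))⟩

end Pool.Agent.TH8.UDK.K
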