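import Pool.Agent.TH8.UDK.M2

/-!
P-recursive sequences of points over the ground field: they are eventually periodic, or there is a
rational curve over the ground field.
-/

set_option autoImplicit false

namespace Pool.Agent.TH8.UDK.K

open MvPolynomial Pool.Agent.W602.GT
open Filter (atTop eventually_atTop)
open Pool.Agent.TH143.HE (IsPtP PRec RCur)

variable {𝕜 : Type} [Field 𝕜] [CharZero 𝕜] [Algebra 𝕜 ℂ]

/-- **The quotients of the coordinates are algebraic.** -/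
theorem alg_of_nocurve {N : ℕ} {x : ℕ → Fin (N + 1) → 𝕜} (hne : ∀ m, x m ≠ 0)
    (hx : ∀ j, LinRec (RBk 𝕜) (fun m => x m j))
    (T : Set (MvPolynomial (Fin (N + 1)) 𝕜)) (hT : ∀ G ∈ T, IsForm G)
    (hrel : ∀ G ∈ T, ∀ᶠ m in atTop, eval (x m) G = 0)
    (hno : ¬ ∃ᶠ m in atTop, ∃ p : Fin (N + 1) → Polynomial 𝕜,
        (∀ G ∈ T, (aeval p G : Polynomial 𝕜) = 0) ∧ (fun j => (p j).eval 1) = x m ∧ NCur p)
    {c : ℂ} (hc : ∀ m, ∑ j : Fin (N + 1), c ^ (j : ℕ) * algebraMap 𝕜 ℂ (x m j) ≠ 0) :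
    ∃ t : ℕ, ∀ j, ∃ P : Polynomial (Polynomial ℂ), P ≠ 0 ∧
      ∀ᶠ m in atTop, Pool.Agent.TH143.HE.evs (fun m => algebraMap 𝕜 ℂ (x (m + t) j) /
        ∑ i : Fin (N + 1), c ^ (i : ℕ) * algebraMap 𝕜 ℂ (x (m + t) i)) P m = 0 := by
  classical
  obtain ⟨t, ht⟩ := exists_curve_k (RBk_field (𝕜 := 𝕜)) hx T hT hrel
  refine ⟨t, fun j => Pool.Agent.TH143.HE.exists_alg fun J hJ hJp => ?_⟩
  have hdomJ : IsDomain ((ℕ → ℂ) ⧸ J) := Ideal.Quotient.isDomain J
  have hIp : (J.comap (cst 𝕜)).IsPrime := Ideal.IsPrime.comap _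
  have hdomI : IsDomain ((ℕ → 𝕜) ⧸ J.comap (cst 𝕜)) := Ideal.Quotient.isDomain _
  set I := J.comap (cst 𝕜) with hI
  apply Pool.Agent.TH143.HE.rel_of_alg hJ hJp (FractionRing ((ℕ → ℂ) ⧸ J))
  set FJ := FractionRing ((ℕ → ℂ) ⧸ J) with hFJ
  set FI := FractionRing ((ℕ → 𝕜) ⧸ I) with hFI
  have hinjI : Function.Injective (algebraMap ((ℕ → 𝕜) ⧸ I) FI) := IsFractionRing.injective _ _
  have hinjJ : Function.Injective (algebraMap ((ℕ → ℂ) ⧸ J) FJ) := IsFractionRing.injective _ _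
  -- a coordinate which does not vanish
  obtain ⟨i0, hi0⟩ : ∃ i0, (fun m => x (m + t) i0) ∉ I := by
    by_contra hcon
    push Not at hcon
    choose i hi using fun m => Function.ne_iff.1 (hne (m + t))
    have h1 : (1 : ℕ → 𝕜) = ∑ l : Fin (N + 1),
        (fun m => if i m = l then (x (m + t) l)⁻¹ else 0) * fun m => x (m + t) l := by
      funext m
      rw [Finset.sum_apply, Finset.sum_eq_single (i m)]
      · rw [Pi.mul_apply, if_pos rfl, inv_mul_cancel₀ (hi m), Pi.one_apply]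
      · intro l _ hl
        rw [Pi.mul_apply, if_neg (Ne.symm hl), zero_mul]
      · intro h
        exact absurd (Finset.mem_univ _) h
    apply hIp.ne_top
    rw [Ideal.eq_top_iff_one, h1]
    exact Ideal.sum_mem _ fun l _ => Ideal.mul_mem_left _ _ (hcon l)
  have hi0' : algebraMap ((ℕ → 𝕜) ⧸ I) FI (cl I fun m => x (m + t) i0) ≠ 0 := by
    rw [Ne, map_eq_zero_iff _ hinjI, cl_zero]
    exact hi0
  have halg : ∀ j, IsAlgebraic (cf (RBk_field (𝕜 := 𝕜)) (ez_le (𝕜 := 𝕜) hJ) FI)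
      (algebraMap ((ℕ → 𝕜) ⧸ I) FI (cl I fun m => x (m + t) j) /
        algebraMap ((ℕ → 𝕜) ⧸ I) FI (cl I fun m => x (m + t) i0)) := by
    intro j
    by_contra hcon
    have h1 := ht I (ez_le hJ) hIp FI i0 j hi0' hcon
    apply hno
    rw [Filter.frequently_atTop] at h1 ⊢
    intro m0
    obtain ⟨m, hm, hp⟩ := h1 m0
    exact ⟨m + t, by omega, hp⟩
  have halgJ : ∀ j, IsAlgebraic (Pool.Agent.TH143.DE.cf Pool.Agent.TH143.HE.RB_field hJ FJ)
      (algebraMap ((ℕ → ℂ) ⧸ J) FJ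
        (Pool.Agent.TH143.DE.mk' J (cst 𝕜 fun m => x (m + t) j)) /
      algebraMap ((ℕ → ℂ) ⧸ J) FJ
        (Pool.Agent.TH143.DE.mk' J (cst 𝕜 fun m => x (m + t) i0))) :=
    fun j => alg_transfer hJ hJp hIp hi0 (halg j)
  have hx0 : algebraMap ((ℕ → ℂ) ⧸ J) FJ
      (Pool.Agent.TH143.DE.mk' J (cst 𝕜 fun m => x (m + t) i0)) ≠ 0 := by
    rw [Ne, map_eq_zero_iff _ hinjJ, Pool.Agent.TH143.DE.mk'_zero]
    exact hi0
  set E := Pool.Agent.TH143.DE.cf Pool.Agent.TH143.HE.RB_field hJ FJ with hE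
  set r : Fin (N + 1) → FJ := fun j => algebraMap ((ℕ → ℂ) ⧸ J) FJ
        (Pool.Agent.TH143.DE.mk' J (cst 𝕜 fun m => x (m + t) j)) /
      algebraMap ((ℕ → ℂ) ⧸ J) FJ
        (Pool.Agent.TH143.DE.mk' J (cst 𝕜 fun m => x (m + t) i0)) with hr
  let ℓ : ℕ → ℂ := fun m => ∑ i : Fin (N + 1), c ^ (i : ℕ) * algebraMap 𝕜 ℂ (x (m + t) i)
  have hℓ : ℓ = ∑ i : Fin (N + 1), algebraMap ℂ (ℕ → ℂ) (c ^ (i : ℕ)) *
      cst 𝕜 fun m => x (m + t) i := by
    funext m
    rw [Finset.sum_apply]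
    rfl
  have hℓr : algebraMap ((ℕ → ℂ) ⧸ J) FJ (Pool.Agent.TH143.DE.mk' J ℓ) =
      (∑ i : Fin (N + 1), algebraMap ℂ FJ (c ^ (i : ℕ)) * r i) *
        algebraMap ((ℕ → ℂ) ⧸ J) FJ
          (Pool.Agent.TH143.DE.mk' J (cst 𝕜 fun m => x (m + t) i0)) := by
    rw [hℓ, map_sum, map_sum, Finset.sum_mul]
    refine Finset.sum_congr rfl fun i _ => ?_
    rw [map_mul, map_mul, AlgHom.commutes, ← IsScalarTower.algebraMap_apply ℂ ((ℕ → ℂ) ⧸ J) FJ,
      mul_assoc, hr]
    congr 1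
    rw [div_mul_cancel₀ _ hx0]
  have hy : algebraMap ((ℕ → ℂ) ⧸ J) FJ (Pool.Agent.TH143.DE.mk' J fun m =>
      algebraMap 𝕜 ℂ (x (m + t) j) / ℓ m) =
      r j / ∑ i : Fin (N + 1), algebraMap ℂ FJ (c ^ (i : ℕ)) * r i := by
    have h1 : (fun m => algebraMap 𝕜 ℂ (x (m + t) j) / ℓ m) * ℓ =
        cst 𝕜 fun m => x (m + t) j := by
      funext m
      rw [Pi.mul_apply, div_mul_cancel₀ _ (hc (m + t))]
      rfl
    have h2 : (fun m => (ℓ m)⁻¹) * ℓ = 1 := by
      funext m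
      rw [Pi.mul_apply, inv_mul_cancel₀ (hc (m + t)), Pi.one_apply]
    have h3 := congrArg (fun f => algebraMap ((ℕ → ℂ) ⧸ J) FJ (Pool.Agent.TH143.DE.mk' J f)) h2
    simp only [map_mul, map_one] at h3
    have h4 := right_ne_zero_of_mul (h3.trans_ne one_ne_zero)
    have h5 := congrArg (fun f => algebraMap ((ℕ → ℂ) ⧸ J) FJ (Pool.Agent.TH143.DE.mk' J f)) h1
    simp only [map_mul] at h5
    rw [hℓr] at h4 h5
    have h6 := left_ne_zero_of_mul h4
    rw [eq_div_iff h6, hr]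
    simp only
    rw [eq_div_iff hx0, ← h5, mul_assoc]
  rw [hy]
  have hconst : ∀ a : ℂ, IsAlgebraic E (algebraMap ℂ FJ a) := fun a =>
    isAlgebraic_algebraMap (⟨algebraMap ℂ FJ a, E.algebraMap_mem a⟩ : E)
  refine (halgJ j).mul (IsAlgebraic.inv ?_)
  exact Finset.sum_induction _ (IsAlgebraic E) (fun _ _ h1 h2 => h1.add h2) isAlgebraic_zero
    fun i _ => (hconst _).mul (halgJ i)

/-- **Recurrence sequences and rational curves over the ground field.** A P-recursive sequence of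
points of a projective variety is eventually periodic, or infinitely many of its terms lie on
rational curves over the ground field. -/
theorem periodic_k {N : ℕ} {x : ℕ → Fin (N + 1) → 𝕜} (hne : ∀ m, x m ≠ 0)
    (hx : ∀ j, PRec fun m => x m j)
    (T : Set (MvPolynomial (Fin (N + 1)) 𝕜)) (hT : ∀ G ∈ T, IsForm G)
    (hrel : ∀ G ∈ T, ∀ m, eval (x m) G = 0)
    (hno : ¬ ∃ᶠ m in atTop, ∃ p : Fin (N + 1) → Polynomial 𝕜,
        (∀ G ∈ T, (aeval p G : Polynomial 𝕜) = 0) ∧ NCur p ∧ ∃ u b, b ≠ 0 ∧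
          (fun j => (p j).eval u) = fun j => b * x m j) :
    ∃ k m0 : ℕ, 0 < k ∧ ∀ m, m0 ≤ m → ∀ i j, x (m + k) i * x m j = x (m + k) j * x m i := by
  classical
  have hinj : Function.Injective (algebraMap 𝕜 ℂ) := (algebraMap 𝕜 ℂ).injective
  obtain ⟨c, hc⟩ := Pool.Agent.TH143.HE.exists_linear (fun m j => algebraMap 𝕜 ℂ (x m j))
    (fun m h => hne m (_root_.funext fun j => by
      have h1 := congrFun h j
      simpa using h1))
  have hlin : ∀ j, LinRec (RBk 𝕜) fun m => x m j := fun j =>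
    RecAlong.linRec (t := fun m => (m : 𝕜)) Nat.cast_injective (hx j)
  obtain ⟨t, ht⟩ := alg_of_nocurve hne hlin T hT
    (fun G hG => Filter.Eventually.of_forall (hrel G hG)) (fun hcon => hno (hcon.mono (by
      rintro m ⟨p, h1, h2, h3⟩
      refine ⟨p, h1, h3, 1, 1, one_ne_zero, ?_⟩
      rw [h2]
      funext j
      rw [one_mul]))) hc
  let ℓ : ℕ → ℂ := fun m => ∑ i : Fin (N + 1), c ^ (i : ℕ) * algebraMap 𝕜 ℂ (x (m + t) i)
  have hℓ0 : ∀ m, ℓ m ≠ 0 := fun m => hc (m + t)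
  have hrat : ∀ j, ∃ (p : Polynomial ℂ) (k : ℕ) (q : ℕ → Polynomial ℂ), p ≠ 0 ∧ 0 < k ∧
      ∀ᶠ m : ℕ in atTop, p.eval (m : ℂ) * (algebraMap 𝕜 ℂ (x (m + t) j) / ℓ m) =
        (q (m % k)).eval (m : ℂ) := by
    intro j
    obtain ⟨P, hP, hP0⟩ := ht j
    have hfg : ∀ i, Pool.Agent.TH143.HE.FGS fun m => algebraMap 𝕜 ℂ (x (m + t) i) := fun i =>
      Pool.Agent.TH143.HE.exists_fg (Pool.Agent.TH143.HE.LinRec.shift Pool.Agent.TH143.HE.RB_field
        ((hx i).map (algebraMap 𝕜 ℂ)).linRec t)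
    have hg : Pool.Agent.TH143.HE.FGS ℓ :=
      Pool.Agent.TH143.HE.FGS.sum _ fun i _ => (hfg i).const_mul _
    exact Pool.Agent.TH143.HE.quasi_rational_quot (hfg j) hg (Filter.Eventually.of_forall hℓ0)
      hP hP0
  choose p k q hp hk hq using hrat
  set K := ∏ j, k j with hK
  have hKpos : 0 < K := Finset.prod_pos fun j _ => hk j
  let P : Polynomial ℂ := ∏ j, p j
  have hP : P ≠ 0 := Finset.prod_ne_zero_iff.2 fun j _ => hp j
  let ρ : ℕ → Fin (N + 1) → Polynomial ℂ := fun a j =>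
    (∏ i ∈ Finset.univ.erase j, p i) * q j (a % k j)
  have hρ : ∀ᶠ m : ℕ in atTop, P.eval (m : ℂ) ≠ 0 ∧ ∀ j, P.eval (m : ℂ) *
      algebraMap 𝕜 ℂ (x (m + t) j) = ℓ m * (ρ (m % K) j).eval (m : ℂ) := by
    refine (Pool.Agent.TH143.DE.ev_ne Nat.cast_injective hP).and
      (Filter.eventually_all.2 fun j => ?_)
    filter_upwards [hq j] with m hm
    have h1 : P.eval (m : ℂ) = (∏ i ∈ Finset.univ.erase j, p i).eval (m : ℂ) *
        (p j).eval (m : ℂ) := by
      rw [← Polynomial.eval_mul, mul_comm, Finset.mul_prod_erase _ _ (Finset.mem_univ j)]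
    have h2 : (ρ (m % K) j).eval (m : ℂ) = (∏ i ∈ Finset.univ.erase j, p i).eval (m : ℂ) *
        (p j).eval (m : ℂ) * (algebraMap 𝕜 ℂ (x (m + t) j) / ℓ m) := by
      simp only [ρ]
      rw [Polynomial.eval_mul, Nat.mod_mod_of_dvd _ (Finset.dvd_prod_of_mem k (Finset.mem_univ j)),
        ← hm, mul_assoc]
    rw [h2, h1]
    have h3 := hℓ0 m
    field_simp
  obtain ⟨m1, hm1⟩ := eventually_atTop.1 hρ
  have hprop : ∀ m, m1 ≤ m → ∀ i j, algebraMap 𝕜 ℂ (x (m + t) i) * (ρ (m % K) j).eval (m : ℂ) =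
      algebraMap 𝕜 ℂ (x (m + t) j) * (ρ (m % K) i).eval (m : ℂ) := by
    intro m hm i j
    obtain ⟨h1, h2⟩ := hm1 m hm
    have h3 := h2 i
    have h4 := h2 j
    apply mul_left_cancel₀ (mul_ne_zero h1 (hℓ0 m))
    linear_combination (ℓ m * (ρ (m % K) j).eval (m : ℂ)) * h3 -
      (ℓ m * (ρ (m % K) i).eval (m : ℂ)) * h4
  -- the terms are constant on residue classes
  have hconst : ∀ a, a < K → ∃ M, ∀ m m', M ≤ m → M ≤ m' → m % K = a → m' % K = a →
      ∀ i j, x (m + t) i * x (m' + t) j = x (m + t) j * x (m' + t) i := by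
    intro a ha
    have hidx : ∀ M : ℕ, ∃ m, M ≤ m ∧ m % K = a := fun M => by
      refine ⟨a + K * M, ?_, by rw [Nat.add_mul_mod_self_left, Nat.mod_eq_of_lt ha]⟩
      have : M ≤ K * M := Nat.le_mul_of_pos_left _ hKpos
      omega
    -- a nonzero coefficient
    obtain ⟨j0, hj0⟩ : ∃ j, ρ a j ≠ 0 := by
      obtain ⟨m, hm, hma⟩ := hidx m1
      obtain ⟨j, hj⟩ := Function.ne_iff.1 (hne (m + t))
      refine ⟨j, fun h0 => ?_⟩
      obtain ⟨h1, h2⟩ := hm1 m hm
      have h3 := h2 j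
      rw [hma, h0, Polynomial.eval_zero, mul_zero] at h3
      rcases mul_eq_zero.1 h3 with h4 | h4
      · exact h1 h4
      · rw [map_eq_zero] at h4
        exact hj h4
    obtain ⟨e, he⟩ : ∃ e, (ρ a j0).coeff e ≠ 0 := by
      by_contra hcon
      push Not at hcon
      exact hj0 (Polynomial.ext fun i => by rw [hcon, Polynomial.coeff_zero])
    obtain ⟨φ, hφ⟩ := exists_functional (𝕜 := 𝕜) he
    let σ : Fin (N + 1) → Polynomial 𝕜 := fun j => descP φ (ρ a j)
    have hσ0 : σ j0 ≠ 0 := by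
      intro h0
      apply hφ
      rw [← descP_coeff]
      have h1 : descP φ (ρ a j0) = 0 := h0
      rw [h1, Polynomial.coeff_zero]
    obtain ⟨m2, hm2⟩ := eventually_atTop.1 (ev_ne (t := fun m : ℕ => (m : 𝕜)) Nat.cast_injective hσ0)
    have hσ : ∀ m, m1 ≤ m → m % K = a → ∀ i j, x (m + t) i * (σ j).eval (m : 𝕜) =
        x (m + t) j * (σ i).eval (m : 𝕜) := by
      intro m hm hma i j
      have h1 := congrArg φ (hprop m hm i j)
      rw [hma] at h1
      have h2 := descP_eval φ (ρ a j) (m : 𝕜) (x (m + t) i)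
      have h3 := descP_eval φ (ρ a i) (m : 𝕜) (x (m + t) j)
      rw [map_natCast] at h2 h3
      rw [mul_comm, ← h2, mul_comm (x (m + t) j), ← h3]
      rw [mul_comm ((ρ a j).eval (m : ℂ)), mul_comm ((ρ a i).eval (m : ℂ))]
      exact h1
    have hval : ∀ m, m1 ≤ m → m2 ≤ m → m % K = a → ∃ b : 𝕜, b ≠ 0 ∧
        (fun j => (σ j).eval (m : 𝕜)) = fun j => b * x (m + t) j := by
      intro m hm hm' hma
      obtain ⟨i, hi⟩ := Function.ne_iff.1 (hne (m + t))
      have hi' : x (m + t) i ≠ 0 := hi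
      have h1 : ∀ j, (σ j).eval (m : 𝕜) = (σ i).eval (m : 𝕜) / x (m + t) i * x (m + t) j := by
        intro j
        rw [div_mul_eq_mul_div, eq_div_iff hi']
        have h2 := hσ m hm hma i j
        linear_combination h2
      refine ⟨(σ i).eval (m : 𝕜) / x (m + t) i, ?_, _root_.funext h1⟩
      intro h0
      have h2 := h1 j0
      rw [h0, zero_mul] at h2
      exact hm2 m hm' h2
    by_contra hcon
    push Not at hcon
    obtain ⟨u, u', hu, hu', hua, hua', i, j, hij⟩ := hcon (max m1 m2)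
    apply hno
    rw [Filter.frequently_atTop]
    intro m0
    obtain ⟨m, hm, hma⟩ := hidx (max m0 (max m1 m2))
    have hmb := hval m ((le_max_left m1 m2).trans ((le_max_right _ _).trans hm))
      ((le_max_right m1 m2).trans ((le_max_right _ _).trans hm)) hma
    obtain ⟨b, hb, hbe⟩ := hmb
    refine ⟨m + t, ((le_max_left _ _).trans hm).trans (Nat.le_add_right _ _), σ, ?_, ?_, (m : 𝕜),
      b, hb, hbe⟩
    · intro G hG
      obtain ⟨d, hd⟩ := hT G hG
      apply Polynomial.eq_zero_of_infinite_isRoot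
      refine Set.Infinite.mono (s := (fun i : ℕ => ((a + K * (max m1 m2 + i) : ℕ) : 𝕜)) '' Set.univ)
        ?_ ?_
      · rintro _ ⟨i, -, rfl⟩
        have h5 : max m1 m2 + i ≤ K * (max m1 m2 + i) := Nat.le_mul_of_pos_left _ hKpos
        have h6 := le_max_left m1 m2
        have h7 := le_max_right m1 m2
        obtain ⟨b', hb', hbe'⟩ := hval (a + K * (max m1 m2 + i)) (by omega) (by omega)
          (by rw [Nat.add_mul_mod_self_left, Nat.mod_eq_of_lt ha])
        change Polynomial.eval ((a + K * (max m1 m2 + i) : ℕ) : 𝕜) (aeval σ G) = 0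
        have h8 : Polynomial.eval ((a + K * (max m1 m2 + i) : ℕ) : 𝕜) (aeval σ G) =
            eval (fun j => (σ j).eval ((a + K * (max m1 m2 + i) : ℕ) : 𝕜)) G := by
          have h9 := MvPolynomial.comp_aeval_apply (f := σ)
            (Polynomial.aeval ((a + K * (max m1 m2 + i) : ℕ) : 𝕜) : Polynomial 𝕜 →ₐ[𝕜] 𝕜) G
          rw [Polynomial.coe_aeval_eq_eval, MvPolynomial.aeval_eq_eval] at h9
          exact h9
        rw [h8, hbe', eval_smul_form hd, hrel G hG, mul_zero]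
      · refine Set.infinite_univ.image ?_
        intro i _ i' _ hii
        have h2 : a + K * (max m1 m2 + i) = a + K * (max m1 m2 + i') := Nat.cast_injective hii
        have h3 : K * (max m1 m2 + i) = K * (max m1 m2 + i') := by omega
        have h4 := Nat.eq_of_mul_eq_mul_left hKpos h3
        omega
    · obtain ⟨b1, hb1, hbe1⟩ := hval u ((le_max_left m1 m2).trans hu)
        ((le_max_right m1 m2).trans hu) hua
      obtain ⟨b2, hb2, hbe2⟩ := hval u' ((le_max_left m1 m2).trans hu')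
        ((le_max_right m1 m2).trans hu') hua'
      refine ⟨i, j, (u : 𝕜), (u' : 𝕜), ?_⟩
      have e1 := congrFun hbe1 i
      have e2 := congrFun hbe1 j
      have e3 := congrFun hbe2 i
      have e4 := congrFun hbe2 j
      rw [e1, e2, e3, e4]
      intro h0
      apply hij
      apply mul_left_cancel₀ (mul_ne_zero hb1 hb2)
      linear_combination h0
  choose! M hM using hconst
  refine ⟨K, (Finset.range K).sup M + t, hKpos, fun m hm i j => ?_⟩
  obtain ⟨m', rfl⟩ : ∃ m', m = m' + t := ⟨m - t, by omega⟩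
  have hlt := Nat.mod_lt m' hKpos
  have h1 : M (m' % K) ≤ (Finset.range K).sup M := Finset.le_sup (Finset.mem_range.2 hlt)
  have h2 := hM (m' % K) hlt (m' + K) m' (by omega) (by omega) (Nat.add_mod_right _ _) rfl i j
  have h3 : m' + t + K = m' + K + t := by omega
  rw [h3]
  exact h2

end Pool.Agent.TH8.UDK.K
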