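import Mathlib

/-!
Characters of the group generated by the conjugates of algebraic numbers, with values in rational
functions, which are compatible with the Galois group and close to the exponential function.
-/

set_option autoImplicit false

namespace Pool.Agent.TH8.UDK

open Polynomial

/-- logarithmic derivatives of products -/
theorem deriv_prod {M : Type} [Field M] {ι : Type} (S : Finset ι) (f : ι → M[X]) (a : ι → ℕ)
    (hf : ∀ i, (f i).eval 0 = 1) : (∏ i ∈ S, f i ^ a i).eval 0 = 1 ∧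
      (derivative (∏ i ∈ S, f i ^ a i)).eval 0 = ∑ i ∈ S, (a i : M) * (derivative (f i)).eval 0 := by
  classical
  induction S using Finset.induction_on with
  | empty => simp
  | insert i S hi ih =>
    rw [Finset.prod_insert hi, Finset.sum_insert hi]
    constructor
    · rw [eval_mul, eval_pow, hf, one_pow, ih.1, mul_one]
    · rw [derivative_mul, eval_add, eval_mul, eval_mul, ih.1, ih.2, eval_pow, hf, one_pow, mul_one,
        one_mul, derivative_pow, eval_mul, eval_mul, eval_pow, hf, one_pow, mul_one, eval_C]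

section
variable (k M : Type) [Field k] [Field M] [CharZero M] [Algebra k M] [FiniteDimensional k M]

/-- **Characters.** -/
theorem exists_char (Z : Finset M) (hZ : ∀ γ : M ≃ₐ[k] M, ∀ x ∈ Z, γ x ∈ Z) :
    ∃ (Q : M[X]) (h : M → M[X]), Q.eval 0 = 1 ∧ (∀ x ∈ Z, (h x).eval 0 = 1) ∧
      (∀ x ∈ Z, (derivative (h x)).eval 0 = (derivative Q).eval 0 + x) ∧
      (∀ δ : M ≃ₐ[k] M, Q.map (δ : M →+* M) = Q) ∧
      (∀ δ : M ≃ₐ[k] M, ∀ x ∈ Z, (h x).map (δ : M →+* M) = h (δ x)) ∧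
      ∀ (φ : M →+* ℂ) (τ : ℂ), Q.eval₂ φ τ ≠ 0 → ∀ κ κ' : {x // x ∈ Z} →₀ ℕ,
        ∑ x : {x // x ∈ Z}, (κ x : ℂ) * φ x = ∑ x : {x // x ∈ Z}, (κ' x : ℂ) * φ x →
        ∏ x : {x // x ∈ Z}, ((h x).eval₂ φ τ / Q.eval₂ φ τ) ^ κ x =
          ∏ x : {x // x ∈ Z}, ((h x).eval₂ φ τ / Q.eval₂ φ τ) ^ κ' x := by
  classical
  let Λ : Submodule ℤ M := Submodule.span ℤ (Z : Set M)
  have hfin : Module.Finite ℤ Λ := Module.Finite.span_of_finite ℤ Z.finite_toSet
  have hfree : Module.Free ℤ Λ := inferInstance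
  let r := Module.finrank ℤ Λ
  let b : Module.Basis (Fin r) ℤ Λ := Module.finBasis ℤ Λ
  have hZΛ : ∀ x ∈ Z, x ∈ Λ := fun x hx => Submodule.subset_span hx
  have hΓ : ∀ (γ : M ≃ₐ[k] M) x, x ∈ Λ → γ x ∈ Λ := by
    intro γ x hx
    induction hx using Submodule.span_induction with
    | mem x hx => exact hZΛ _ (hZ γ x hx)
    | zero => rw [map_zero]; exact Λ.zero_mem
    | add x y _ _ hx hy => rw [map_add]; exact Λ.add_mem hx hy
    | smul c x _ hx => rw [map_zsmul]; exact Λ.smul_mem c hx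
  let co : M → Fin r → ℤ := fun x j => if hx : x ∈ Λ then b.repr ⟨x, hx⟩ j else 0
  have hco : ∀ x ∈ Λ, x = ∑ j, (co x j : M) * (b j : M) := by
    intro x hx
    have h1 := congrArg (Subtype.val) (b.sum_repr ⟨x, hx⟩)
    rw [Submodule.coe_sum] at h1
    refine h1.symm.trans (Finset.sum_congr rfl fun j _ => ?_)
    simp only [co, dif_pos hx, Submodule.coe_smul, zsmul_eq_mul]
  have hadd : ∀ (j : Fin r) (γ : M ≃ₐ[k] M) (κ : {x // x ∈ Z} →₀ ℕ),
      co (γ (∑ x : {x // x ∈ Z}, (κ x : M) * x)) j = ∑ x : {x // x ∈ Z}, (κ x : ℤ) * co (γ x) j := by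
    intro j γ κ
    have h0 : ∀ x : {x // x ∈ Z}, γ (x : M) ∈ Λ := fun x => hΓ γ _ (hZΛ x x.2)
    have h1 : γ (∑ x : {x // x ∈ Z}, (κ x : M) * x) ∈ Λ := by
      rw [map_sum]
      refine Λ.sum_mem fun x _ => ?_
      rw [map_mul, map_natCast]
      have h2 := Λ.smul_mem (κ x : ℤ) (h0 x)
      rwa [zsmul_eq_mul, Int.cast_natCast] at h2
    have h2 : (⟨γ (∑ x : {x // x ∈ Z}, (κ x : M) * x), h1⟩ : Λ) =
        ∑ x : {x // x ∈ Z}, (κ x : ℤ) • (⟨γ x, h0 x⟩ : Λ) := by
      apply Subtype.ext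
      rw [Submodule.coe_sum]
      change γ (∑ x : {x // x ∈ Z}, (κ x : M) * x) = _
      rw [map_sum]
      refine Finset.sum_congr rfl fun x _ => ?_
      rw [Submodule.coe_smul, map_mul, map_natCast, zsmul_eq_mul, Int.cast_natCast]
    simp only [co, dif_pos h1, dif_pos (h0 _)]
    rw [h2, map_sum, Finsupp.finsetSum_apply]
    refine Finset.sum_congr rfl fun x _ => ?_
    rw [map_smul, Finsupp.smul_apply, smul_eq_mul]
  let N : M := (Fintype.card (M ≃ₐ[k] M) : M)
  have hN : N ≠ 0 := Nat.cast_ne_zero.2 Fintype.card_ne_zero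
  let g : (M ≃ₐ[k] M) → Fin r → M[X] := fun γ j => 1 + C (N⁻¹ * γ (b j : M)) * X
  have hg0 : ∀ γ j, (g γ j).eval 0 = 1 := by
    intro γ j
    simp [g]
  have hg1 : ∀ γ j, (derivative (g γ j)).eval 0 = N⁻¹ * γ (b j : M) := by
    intro γ j
    simp [g]
  have hgδ : ∀ (δ γ : M ≃ₐ[k] M) j, (g γ j).map (δ : M →+* M) = g (δ * γ) j := by
    intro δ γ j
    simp only [g, Polynomial.map_add, Polynomial.map_one, Polynomial.map_mul, map_C, map_X]
    congr 3
    simp [N]
  let Cn : ℕ := ∑ x ∈ Z, ∑ γ : M ≃ₐ[k] M, ∑ j, (co (γ.symm x) j).natAbs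
  have hCn : ∀ x ∈ Z, ∀ (γ : M ≃ₐ[k] M) j, 0 ≤ (Cn : ℤ) + co (γ.symm x) j := by
    intro x hx γ j
    have h1 : (co (γ.symm x) j).natAbs ≤ ∑ j, (co (γ.symm x) j).natAbs :=
      Finset.single_le_sum (f := fun j => (co (γ.symm x) j).natAbs) (fun _ _ => Nat.zero_le _)
        (Finset.mem_univ j)
    have h2 : ∑ j, (co (γ.symm x) j).natAbs ≤ ∑ γ : M ≃ₐ[k] M, ∑ j, (co (γ.symm x) j).natAbs :=
      Finset.single_le_sum (f := fun γ : M ≃ₐ[k] M => ∑ j, (co (γ.symm x) j).natAbs)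
        (fun _ _ => Nat.zero_le _) (Finset.mem_univ γ)
    have h3 : ∑ γ : M ≃ₐ[k] M, ∑ j, (co (γ.symm x) j).natAbs ≤ Cn :=
      Finset.single_le_sum (f := fun x => ∑ γ : M ≃ₐ[k] M, ∑ j, (co (γ.symm x) j).natAbs)
        (fun _ _ => Nat.zero_le _) hx
    omega
  let Q : M[X] := ∏ q : (M ≃ₐ[k] M) × Fin r, g q.1 q.2 ^ Cn
  let h : M → M[X] := fun x =>
    ∏ q : (M ≃ₐ[k] M) × Fin r, g q.1 q.2 ^ ((Cn : ℤ) + co (q.1.symm x) q.2).toNat
  have hQd := deriv_prod Finset.univ (fun q : (M ≃ₐ[k] M) × Fin r => g q.1 q.2) (fun _ => Cn)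
    (fun q => hg0 _ _)
  have hhd := fun x => deriv_prod Finset.univ (fun q : (M ≃ₐ[k] M) × Fin r => g q.1 q.2)
    (fun q => ((Cn : ℤ) + co (q.1.symm x) q.2).toNat) (fun q => hg0 _ _)
  refine ⟨Q, h, hQd.1, fun x _ => (hhd x).1, fun x hx => ?_, fun δ => ?_, fun δ x hx => ?_, ?_⟩
  · rw [(hhd x).2, hQd.2]
    have h1 : ∀ q : (M ≃ₐ[k] M) × Fin r, ((((Cn : ℤ) + co (q.1.symm x) q.2).toNat : ℕ) : M) =
        (Cn : M) + (co (q.1.symm x) q.2 : M) := by
      intro q
      have h2 : ((((Cn : ℤ) + co (q.1.symm x) q.2).toNat : ℕ) : ℤ) =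
          (Cn : ℤ) + co (q.1.symm x) q.2 := Int.toNat_of_nonneg (hCn x hx _ _)
      have h3 := congrArg (fun z : ℤ => (z : M)) h2
      push_cast at h3
      exact h3
    simp only [h1, add_mul, Finset.sum_add_distrib]
    congr 1
    rw [Fintype.sum_prod_type]
    have h2 : ∀ γ : M ≃ₐ[k] M, ∑ j, (co (γ.symm x) j : M) * (derivative (g γ j)).eval 0 =
        N⁻¹ * x := by
      intro γ
      have h3 := congrArg γ (hco _ (hΓ γ.symm x (hZΛ x hx)))
      rw [AlgEquiv.apply_symm_apply, map_sum] at h3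
      conv_rhs => rw [h3, Finset.mul_sum]
      refine Finset.sum_congr rfl fun j _ => ?_
      rw [hg1, map_mul, map_intCast]
      ring
    rw [Finset.sum_congr rfl fun γ _ => h2 γ, Finset.sum_const, Finset.card_univ, nsmul_eq_mul]
    change N * (N⁻¹ * x) = x
    rw [mul_inv_cancel_left₀ hN]
  · simp only [Q, Polynomial.map_prod, Polynomial.map_pow, hgδ]
    rw [Fintype.prod_prod_type, Fintype.prod_prod_type]
    exact Fintype.prod_equiv (Equiv.mulLeft δ) _ _ fun γ => rfl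
  · simp only [h, Polynomial.map_prod, Polynomial.map_pow, hgδ]
    rw [Fintype.prod_prod_type, Fintype.prod_prod_type]
    refine Fintype.prod_equiv (Equiv.mulLeft δ) _ _ fun γ => ?_
    refine Finset.prod_congr rfl fun j _ => ?_
    have h1 : ((Equiv.mulLeft δ) γ).symm (δ x) = γ.symm x := by
      change (δ * γ).symm (δ x) = _
      rw [AlgEquiv.symm_apply_eq]
      change δ x = δ (γ (γ.symm x))
      rw [AlgEquiv.apply_symm_apply]
    rw [h1]
    rfl
  · intro φ τ hτ κ κ' hκ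
    let G : (M ≃ₐ[k] M) × Fin r → ℂ := fun q => (g q.1 q.2).eval₂ φ τ
    have hQG : Q.eval₂ φ τ = ∏ q, G q ^ Cn := by
      simp only [Q, eval₂_finsetProd, eval₂_pow]
      rfl
    have hG : ∀ q, G q ^ Cn ≠ 0 := by
      intro q
      rw [hQG] at hτ
      exact Finset.prod_ne_zero_iff.1 hτ q (Finset.mem_univ q)
    have hχ : ∀ x : {x // x ∈ Z}, (h x).eval₂ φ τ / Q.eval₂ φ τ =
        ∏ q : (M ≃ₐ[k] M) × Fin r, (if Cn = 0 then 1 else G q) ^ co (q.1.symm x) q.2 := by
      intro x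
      have h1 : (h x).eval₂ φ τ =
          ∏ q : (M ≃ₐ[k] M) × Fin r, G q ^ ((Cn : ℤ) + co (q.1.symm x) q.2).toNat := by
        simp only [h, eval₂_finsetProd, eval₂_pow]
        rfl
      rw [h1, hQG, ← Finset.prod_div_distrib]
      refine Finset.prod_congr rfl fun q _ => ?_
      have h2 := hCn x x.2 q.1 q.2
      by_cases hC : Cn = 0
      · have h3 : (co (q.1.symm x) q.2).natAbs = 0 := by
          have h4 : ∀ x ∈ Z, ∀ (γ : M ≃ₐ[k] M) j, (co (γ.symm x) j).natAbs ≤ Cn := by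
            intro x hx γ j
            have h1 : (co (γ.symm x) j).natAbs ≤ ∑ j, (co (γ.symm x) j).natAbs :=
              Finset.single_le_sum (f := fun j => (co (γ.symm x) j).natAbs)
                (fun _ _ => Nat.zero_le _) (Finset.mem_univ j)
            have h2 : ∑ j, (co (γ.symm x) j).natAbs ≤
                ∑ γ : M ≃ₐ[k] M, ∑ j, (co (γ.symm x) j).natAbs :=
              Finset.single_le_sum (f := fun γ : M ≃ₐ[k] M => ∑ j, (co (γ.symm x) j).natAbs)
                (fun _ _ => Nat.zero_le _) (Finset.mem_univ γ)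
            have h3 : ∑ γ : M ≃ₐ[k] M, ∑ j, (co (γ.symm x) j).natAbs ≤ Cn :=
              Finset.single_le_sum (f := fun x => ∑ γ : M ≃ₐ[k] M, ∑ j, (co (γ.symm x) j).natAbs)
                (fun _ _ => Nat.zero_le _) hx
            omega
          have := h4 x x.2 q.1 q.2
          omega
        have h4 : co (q.1.symm x) q.2 = 0 := Int.natAbs_eq_zero.1 h3
        rw [h4, hC]
        simp
      · rw [if_neg hC]
        have h3 : G q ≠ 0 := fun h0 => hG q (by rw [h0, zero_pow hC])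
        have h4 : G q ^ ((Cn : ℤ) + co (q.1.symm x) q.2).toNat =
            G q ^ ((Cn : ℤ) + co (q.1.symm x) q.2) := by
          rw [← zpow_natCast, Int.toNat_of_nonneg h2]
        rw [h4, zpow_add₀ h3, zpow_natCast, mul_div_assoc, mul_comm, div_mul_cancel₀ _ (hG q)]
    have hprod : ∀ κ : {x // x ∈ Z} →₀ ℕ,
        ∏ x : {x // x ∈ Z}, ((h x).eval₂ φ τ / Q.eval₂ φ τ) ^ κ x =
        ∏ q : (M ≃ₐ[k] M) × Fin r, (if Cn = 0 then 1 else G q) ^
          co (q.1.symm (∑ x : {x // x ∈ Z}, (κ x : M) * x)) q.2 := by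
      intro κ
      simp only [hχ]
      simp only [← Finset.prod_pow]
      rw [Finset.prod_comm]
      refine Finset.prod_congr rfl fun q _ => ?_
      rw [hadd]
      have h3 : (if Cn = 0 then 1 else G q) ≠ 0 := by
        by_cases hC : Cn = 0
        · rw [if_pos hC]
          exact one_ne_zero
        · rw [if_neg hC]
          exact fun h0 => hG q (by rw [h0, zero_pow hC])
      have h4 : ∀ (S : Finset {x // x ∈ Z}) (e : {x // x ∈ Z} → ℤ),
          (if Cn = 0 then 1 else G q) ^ (∑ x ∈ S, e x) =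
            ∏ x ∈ S, (if Cn = 0 then 1 else G q) ^ e x := by
        intro S e
        induction S using Finset.induction_on with
        | empty => simp
        | insert x S hx ih => rw [Finset.sum_insert hx, Finset.prod_insert hx, zpow_add₀ h3, ih]
      rw [h4]
      refine Finset.prod_congr rfl fun x _ => ?_
      rw [← zpow_natCast, ← zpow_mul, mul_comm]
    have hsum : ∑ x : {x // x ∈ Z}, (κ x : M) * x = ∑ x : {x // x ∈ Z}, (κ' x : M) * x := by
      apply φ.injective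
      simp only [map_sum, map_mul, map_natCast]
      exact hκ
    rw [hprod, hprod, hsum]

end

end Pool.Agent.TH8.UDK
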