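import Pool.Agent.H327R2.SC.ExpPoly

/-!
Exponential polynomials and characters.
-/

set_option autoImplicit false

namespace Pool.Agent.TH8.UDK

open MvPolynomial

/-- exponential polynomials with different exponents are independent -/
theorem exp_indep (T : Finset ℂ) (P : ℂ → Polynomial ℂ)
    (h : ∀ t : ℂ, ∑ v ∈ T, (P v).eval t * Complex.exp (v * t) = 0) : ∀ v ∈ T, P v = 0 := by
  classical
  set D : ℝ := 1 + ∑ v ∈ T, ∑ v' ∈ T, ‖v - v'‖ with hD
  have hD1 : 1 ≤ D := by
    have : 0 ≤ ∑ v ∈ T, ∑ v' ∈ T, ‖v - v'‖ :=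
      Finset.sum_nonneg fun _ _ => Finset.sum_nonneg fun _ _ => norm_nonneg _
    linarith
  have hD0 : 0 < D := by linarith
  set θ : ℂ := ((D⁻¹ : ℝ) : ℂ) with hθ
  have hθ0 : θ ≠ 0 := by
    rw [hθ, Ne, Complex.ofReal_eq_zero]
    exact (inv_pos.2 hD0).ne'
  have hle : ∀ v ∈ T, ∀ v' ∈ T, ‖v - v'‖ ≤ D - 1 := by
    intro v hv v' hv'
    have h1 : ‖v - v'‖ ≤ ∑ v' ∈ T, ‖v - v'‖ :=
      Finset.single_le_sum (f := fun v' => ‖v - v'‖) (fun _ _ => norm_nonneg _) hv'
    have h2 : ∑ v' ∈ T, ‖v - v'‖ ≤ ∑ v ∈ T, ∑ v' ∈ T, ‖v - v'‖ :=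
      Finset.single_le_sum (f := fun v => ∑ v' ∈ T, ‖v - v'‖)
        (fun _ _ => Finset.sum_nonneg fun _ _ => norm_nonneg _) hv
    linarith
  have hinj : Function.Injective fun v : {v // v ∈ T} => Complex.exp (v * θ) := by
    rintro ⟨v, hv⟩ ⟨v', hv'⟩ hvv
    simp only at hvv
    have h1 : Complex.exp ((v - v') * θ) = 1 := by
      rw [sub_mul, Complex.exp_sub, hvv, div_self (Complex.exp_ne_zero _)]
    obtain ⟨n, hn⟩ := Complex.exp_eq_one_iff.1 h1
    have h2 : ‖(v - v') * θ‖ < 1 := by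
      rw [norm_mul, hθ, Complex.norm_real, Real.norm_eq_abs, abs_of_pos (inv_pos.2 hD0),
        ← div_eq_mul_inv, div_lt_one hD0]
      have := hle v hv v' hv'
      linarith
    have h3 : n = 0 := by
      by_contra hn0
      rw [hn, norm_mul] at h2
      have h4 : (1 : ℝ) ≤ ‖(n : ℂ)‖ := by
        rw [Complex.norm_intCast]
        exact_mod_cast Int.one_le_abs hn0
      have h5 : (1 : ℝ) ≤ ‖(2 * (Real.pi : ℂ) * Complex.I)‖ := by
        rw [norm_mul, norm_mul, Complex.norm_I, mul_one, Complex.norm_real, Complex.norm_ofNat,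
          Real.norm_eq_abs, abs_of_pos Real.pi_pos]
        have := Real.pi_gt_three
        linarith
      have h6 := mul_le_mul h4 h5 zero_le_one (by linarith)
      linarith
    rw [h3, Int.cast_zero, zero_mul] at hn
    apply Subtype.ext
    exact sub_eq_zero.1 ((mul_eq_zero.1 hn).resolve_right hθ0)
  have h1 := Pool.Agent.H327R2.SC.expPoly_indep (Finset.univ : Finset {v // v ∈ T})
    (fun v => Complex.exp (v * θ)) hinj (fun v => Complex.exp_ne_zero _)
    (fun v => (P v).comp (Polynomial.C θ * Polynomial.X)) (by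
      intro m
      have h2 := h (θ * m)
      rw [← Finset.sum_coe_sort] at h2
      rw [← h2]
      refine Finset.sum_congr rfl fun v _ => ?_
      rw [Polynomial.eval_comp, Polynomial.eval_mul, Polynomial.eval_C, Polynomial.eval_X,
        ← Complex.exp_nat_mul]
      congr 2
      ring)
  intro v hv
  have h2 := h1 ⟨v, hv⟩ (Finset.mem_univ _)
  simp only at h2
  have h3 : ((P v).comp (Polynomial.C θ * Polynomial.X)).comp (Polynomial.C θ⁻¹ * Polynomial.X) =
      P v := by
    rw [Polynomial.comp_assoc]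
    have h4 : (Polynomial.C θ * Polynomial.X).comp (Polynomial.C θ⁻¹ * Polynomial.X) =
        (Polynomial.X : Polynomial ℂ) := by
      rw [Polynomial.mul_comp, Polynomial.C_comp, Polynomial.X_comp, ← mul_assoc,
        ← Polynomial.C_mul, mul_inv_cancel₀ hθ0, Polynomial.C_1, one_mul]
    rw [h4, Polynomial.comp_X]
  rw [← h3, h2, Polynomial.zero_comp]

/-- **Specialization of exponentials to characters.** -/
theorem exp_spec {s : Type} [Fintype s] (lam : s → ℂ) (F : MvPolynomial s (Polynomial ℂ))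
    (hF : ∀ t : ℂ, eval (fun i => Complex.exp (lam i * t)) (map (Polynomial.evalRingHom t) F) = 0)
    (χ : s → ℂ) (hχ : ∀ κ κ' : s →₀ ℕ, ∑ i, (κ i : ℂ) * lam i = ∑ i, (κ' i : ℂ) * lam i →
      ∏ i, χ i ^ κ i = ∏ i, χ i ^ κ' i) (s0 : ℂ) :
    eval χ (map (Polynomial.evalRingHom s0) F) = 0 := by
  classical
  have hev : ∀ (t : ℂ) (y : s → ℂ), eval y (map (Polynomial.evalRingHom t) F) =
      ∑ κ ∈ F.support, (coeff κ F).eval t * ∏ i, y i ^ κ i := by
    intro t y
    rw [eval_map, eval₂_eq']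
    rfl
  let v : (s →₀ ℕ) → ℂ := fun κ => ∑ i, (κ i : ℂ) * lam i
  set T := F.support.image v with hT
  let P : ℂ → Polynomial ℂ := fun z => ∑ κ ∈ F.support with v κ = z, coeff κ F
  have hP := exp_indep T P (by
    intro t
    rw [← hF t, hev, ← Finset.sum_fiberwise_of_maps_to
      (fun κ hκ => Finset.mem_image_of_mem v hκ)]
    refine Finset.sum_congr rfl fun z _ => ?_
    simp only [P]
    rw [Polynomial.eval_finsetSum, Finset.sum_mul]
    refine Finset.sum_congr rfl fun κ hκ => ?_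
    congr 1
    rw [← (Finset.mem_filter.1 hκ).2]
    simp only [v]
    rw [Finset.sum_mul, Complex.exp_sum]
    refine Finset.prod_congr rfl fun i _ => ?_
    rw [← Complex.exp_nat_mul]
    congr 1
    ring)
  rw [hev, ← Finset.sum_fiberwise_of_maps_to (fun κ hκ => Finset.mem_image_of_mem v hκ)]
  refine Finset.sum_eq_zero fun z hz => ?_
  obtain ⟨κ0, hκ0, rfl⟩ := Finset.mem_image.1 hz
  have h1 : ∑ κ ∈ F.support with v κ = v κ0, (coeff κ F).eval s0 * ∏ i, χ i ^ κ i =
      (P (v κ0)).eval s0 * ∏ i, χ i ^ κ0 i := by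
    simp only [P]
    rw [Polynomial.eval_finsetSum, Finset.sum_mul]
    refine Finset.sum_congr rfl fun κ hκ => ?_
    rw [hχ κ κ0 (Finset.mem_filter.1 hκ).2]
  rw [h1, hP _ hz, Polynomial.eval_zero, zero_mul]

/-- **Matrices of exponentials.** Relations between the entries of `V * N(t) * Σ exp(lam i t) Π i`
hold for `V * N(s0) * Σ χ i Π i`. -/
theorem mat_spec {n : ℕ} {s : Type} [Fintype s] (lam : s → ℂ) (V : Matrix (Fin n) (Fin n) ℂ)
    (Nt : Matrix (Fin n) (Fin n) (Polynomial ℂ)) (Pi : s → Matrix (Fin n) (Fin n) ℂ)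
    (R : MvPolynomial (Fin n × Fin n) ℂ)
    (hR : ∀ t : ℂ, eval (fun p => (V * Nt.map (Polynomial.evalRingHom t) *
      ∑ i, Complex.exp (lam i * t) • Pi i) p.1 p.2) R = 0)
    (χ : s → ℂ) (hχ : ∀ κ κ' : s →₀ ℕ, ∑ i, (κ i : ℂ) * lam i = ∑ i, (κ' i : ℂ) * lam i →
      ∏ i, χ i ^ κ i = ∏ i, χ i ^ κ' i) (s0 : ℂ) :
    eval (fun p => (V * Nt.map (Polynomial.evalRingHom s0) * ∑ i, χ i • Pi i) p.1 p.2) R = 0 := by
  classical
  let f : Fin n × Fin n → MvPolynomial s (Polynomial ℂ) := fun p =>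
    ∑ i, C ((V.map Polynomial.C * Nt * (Pi i).map Polynomial.C) p.1 p.2) * X i
  let F : MvPolynomial s (Polynomial ℂ) := eval₂Hom (C.comp Polynomial.C) f R
  have hf : ∀ (t : ℂ) (y : s → ℂ) p, eval y (map (Polynomial.evalRingHom t) (f p)) =
      (V * Nt.map (Polynomial.evalRingHom t) * ∑ i, y i • Pi i) p.1 p.2 := by
    intro t y p
    simp only [f, map_sum, map_mul, map_C, map_X, eval_C, eval_X]
    rw [Finset.mul_sum, Matrix.sum_apply]
    refine Finset.sum_congr rfl fun i _ => ?_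
    rw [Matrix.mul_smul, Matrix.smul_apply, smul_eq_mul, mul_comm]
    congr 1
    have h1 : ((V.map Polynomial.C * Nt * (Pi i).map Polynomial.C).map
        (Polynomial.evalRingHom t)) = V * Nt.map (Polynomial.evalRingHom t) * Pi i := by
      rw [Matrix.map_mul, Matrix.map_mul]
      congr 1
      · congr 1
        ext a b
        simp
      · ext a b
        simp
    rw [← h1]
    rfl
  have hF : ∀ (t : ℂ) (y : s → ℂ), eval y (map (Polynomial.evalRingHom t) F) =
      eval (fun p => (V * Nt.map (Polynomial.evalRingHom t) * ∑ i, y i • Pi i) p.1 p.2) R := by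
    intro t y
    let ψ : MvPolynomial s (Polynomial ℂ) →+* ℂ := (eval y).comp (map (Polynomial.evalRingHom t))
    have h1 : eval y (map (Polynomial.evalRingHom t) F) = ψ (eval₂Hom (C.comp Polynomial.C) f R) :=
      rfl
    rw [h1, coe_eval₂Hom, hom_eval₂]
    have h2 : ψ.comp (C.comp Polynomial.C) = RingHom.id ℂ := by
      ext c
      simp [ψ]
    rw [h2]
    have h3 : (fun i => ψ (f i)) = fun p => (V * Nt.map (Polynomial.evalRingHom t) *
        ∑ i, y i • Pi i) p.1 p.2 := by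
      funext p
      exact hf t y p
    rw [h3]
    rfl
  rw [← hF]
  exact exp_spec lam F (fun t => by rw [hF]; exact hR t) χ hχ s0

end Pool.Agent.TH8.UDK
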