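import Pool.Agent.TH8.UDK.KLie

/-!
Linear difference equations: infinitesimal symmetries which move a given function.
-/

set_option autoImplicit false

namespace Pool.Agent.TH8.UDK.K

variable {𝕜 : Type} [Field 𝕜]

open MvPolynomial Filter

/-- Linear algebra with varying functionals. -/
theorem exists_in_ker {V : Type} [AddCommGroup V] [Module 𝕜 V] [FiniteDimensional 𝕜 V]
    {I : Ideal (ℕ → 𝕜)} (hI : EZ ≤ I) (L : Submodule 𝕜 V) {k : ℕ}
    (T : ℕ → V →ₗ[𝕜] (Fin k → 𝕜)) (hT : ∀ᶠ m in atTop, LinearMap.ker (T m) = L)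
    (Ψ : ℕ → V →ₗ[𝕜] 𝕜) (β : ℕ → V) (h1 : ∀ i, (fun m => T m (β m) i) ∈ I)
    (h2 : (fun m => Ψ m (β m)) ∉ I) : ∃ b ∈ L, (fun m => Ψ m b) ∉ I := by
  classical
  by_contra hcon
  push Not at hcon
  apply h2
  -- partial inverses
  have hN : ∀ m, ∃ N : (Fin k → 𝕜) →ₗ[𝕜] V, ∀ v, T m (N (T m v)) = T m v := by
    intro m
    obtain ⟨g, hg⟩ := (T m).rangeRestrict.exists_rightInverse_of_surjective
      (LinearMap.range_rangeRestrict _)
    obtain ⟨N, hN⟩ := LinearMap.exists_extend g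
    refine ⟨N, fun v => ?_⟩
    have h3 : N (T m v) = g ((T m).rangeRestrict v) := by
      rw [← hN]
      rfl
    have h4 : (T m).rangeRestrict (g ((T m).rangeRestrict v)) = (T m).rangeRestrict v := by
      have := LinearMap.congr_fun hg ((T m).rangeRestrict v)
      rwa [LinearMap.comp_apply, LinearMap.id_apply] at this
    rw [h3]
    exact congrArg Subtype.val h4
  choose N hN using hN
  let b := Module.finBasis 𝕜 L
  have hdec : ∀ m, ∃ c : Fin (Module.finrank 𝕜 L) → 𝕜, LinearMap.ker (T m) = L →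
      β m = (∑ i, T m (β m) i • N m (Pi.single i 1)) + ∑ j, c j • (b j : V) := by
    intro m
    by_cases hm : LinearMap.ker (T m) = L
    · have h3 : β m - N m (T m (β m)) ∈ L := by
        rw [← hm, LinearMap.mem_ker, map_sub, hN, sub_self]
      refine ⟨fun j => b.repr ⟨_, h3⟩ j, fun _ => ?_⟩
      have h4 := congrArg Subtype.val (b.sum_repr ⟨_, h3⟩)
      have h5 : N m (T m (β m)) = ∑ i, T m (β m) i • N m (Pi.single i 1) := by
        conv_lhs => rw [pi_eq_sum_univ' (T m (β m))]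
        rw [map_sum]
        refine Finset.sum_congr rfl fun i _ => ?_
        rw [map_smul]
      rw [← h5]
      have h6 : ∑ j, (b.repr ⟨_, h3⟩ j) • (b j : V) = β m - N m (T m (β m)) := by
        simp only [Submodule.coe_sum, Submodule.coe_smul] at h4
        exact h4
      rw [h6]
      abel
    · exact ⟨0, fun h => absurd h hm⟩
  choose c hc using hdec
  have h3 : (fun m => Ψ m (β m)) - ((∑ i, (fun m => T m (β m) i) * (fun m => Ψ m
      (N m (Pi.single i 1)))) + ∑ j, (fun m => c m j) * (fun m => Ψ m (b j : V))) ∈ I := by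
    apply hI
    rw [mem_EZ]
    filter_upwards [hT] with m hm
    have h4 := congrArg (Ψ m) (hc m hm)
    rw [map_add, map_sum, map_sum] at h4
    simp only [map_smul, smul_eq_mul] at h4
    rw [Pi.sub_apply, Pi.add_apply, Finset.sum_apply, Finset.sum_apply, sub_eq_zero]
    exact h4
  have h4 : ((∑ i, (fun m => T m (β m) i) * (fun m => Ψ m
      (N m (Pi.single i 1)))) + ∑ j, (fun m => c m j) * (fun m => Ψ m (b j : V))) ∈ I := by
    refine I.add_mem (I.sum_mem fun i _ => I.mul_mem_right _ (h1 i)) (I.sum_mem fun j _ =>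
      I.mul_mem_left _ (hcon _ (b j).2))
  have h5 := I.add_mem h3 h4
  rwa [sub_add_cancel] at h5

variable {n : ℕ} {B : Subalgebra 𝕜 (ℕ → 𝕜)}

/-- class of a sequence -/
def cl (I : Ideal (ℕ → 𝕜)) : (ℕ → 𝕜) →+* (ℕ → 𝕜) ⧸ I := Ideal.Quotient.mk I

theorem cl_zero {I : Ideal (ℕ → 𝕜)} {f : ℕ → 𝕜} : cl I f = 0 ↔ f ∈ I :=
  Ideal.Quotient.eq_zero_iff_mem

/-- the functional which measures the motion of the quotient of two polynomials -/
noncomputable def Psi (U : ℕ → Matrix (Fin n) (Fin n) 𝕜) (G0 G1 : MvPolynomial (Fin n × Fin n) 𝕜)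
    (m : ℕ) : Matrix (Fin n) (Fin n) 𝕜 →ₗ[𝕜] 𝕜 where
  toFun β := (∑ p, eval (mv (U m)) (pderiv p G1) * (U m * β) p.1 p.2) * eval (mv (U m)) G0 -
    eval (mv (U m)) G1 * ∑ p, eval (mv (U m)) (pderiv p G0) * (U m * β) p.1 p.2
  map_add' β β' := by
    simp only [Matrix.add_apply, mul_add, Finset.sum_add_distrib]
    ring
  map_smul' c β := by
    simp only [Matrix.mul_smul, Matrix.smul_apply, smul_eq_mul, RingHom.id_apply]
    have h1 : ∀ G : MvPolynomial (Fin n × Fin n) 𝕜,
        ∑ p, eval (mv (U m)) (pderiv p G) * (c * (U m * β) p.1 p.2) =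
          c * ∑ p, eval (mv (U m)) (pderiv p G) * (U m * β) p.1 p.2 := by
      intro G
      rw [Finset.mul_sum]
      exact Finset.sum_congr rfl fun p _ => by ring
    rw [h1, h1]
    ring

theorem Psi_apply (U : ℕ → Matrix (Fin n) (Fin n) 𝕜) (G0 G1 : MvPolynomial (Fin n × Fin n) 𝕜)
    (m : ℕ) (β : Matrix (Fin n) (Fin n) 𝕜) : Psi U G0 G1 m β =
      eval (mv (U m)) (Dc β G1) * eval (mv (U m)) G0 -
        eval (mv (U m)) G1 * eval (mv (U m)) (Dc β G0) := by
  unfold Dc
  rw [eval_mkDerivation, eval_mkDerivation]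
  simp only [eval_Wc]
  rfl
/-- a polynomial with constant coefficients -/
noncomputable def cB (B : Subalgebra 𝕜 (ℕ → 𝕜)) {κ : Type} (q : MvPolynomial κ 𝕜) :
    MvPolynomial κ B := MvPolynomial.map (algebraMap 𝕜 B) q

theorem at'_cB {κ : Type} (m : ℕ) (q : MvPolynomial κ 𝕜) : at' m (cB B q) = q := by
  unfold at' cB
  rw [MvPolynomial.mapAlgHom_apply, MvPolynomial.map_map]
  have h1 : ((evm B m : B →+* 𝕜).comp (algebraMap 𝕜 B)) = RingHom.id 𝕜 := by
    ext1 c
    rfl
  exact (congrArg (fun f => MvPolynomial.map f q) h1).trans (MvPolynomial.map_id q)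

end Pool.Agent.TH8.UDK.K
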