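import Pool.Agent.TH8.UDK.KDense

/-!
Sequences over a ground field: fields of coefficients and graphs.
-/

set_option autoImplicit false

namespace Pool.Agent.TH8.UDK.K

open MvPolynomial Filter Pool.Agent.W602.GT

variable {𝕜 : Type} [Field 𝕜]

theorem ev_ne {t : ℕ → 𝕜} (ht : Function.Injective t) {R : Polynomial 𝕜} (hR : R ≠ 0) :
    ∀ᶠ m in atTop, R.eval (t m) ≠ 0 := by
  have h1 : {z | R.eval z = 0}.Finite := by
    have := R.rootSet_finite 𝕜
    refine this.subset fun z hz => ?_
    rw [Polynomial.mem_rootSet]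
    refine ⟨hR, ?_⟩
    rw [Polynomial.aeval_def, Polynomial.eval₂_eq_eval_map, Algebra.algebraMap_self,
      Polynomial.map_id]
    exact hz
  have h2 := h1.preimage (ht.injOn (s := t ⁻¹' {z | R.eval z = 0}))
  have h3 := h2.compl_mem_cofinite
  rw [Nat.cofinite_eq_atTop] at h3
  exact h3

/-- the sequences which are given, from some index on, by rational functions of `t m` -/
def ratB (t : ℕ → 𝕜) (ht : Function.Injective t) : Subalgebra 𝕜 (ℕ → 𝕜) where
  carrier := {f | ∃ P R : Polynomial 𝕜, R ≠ 0 ∧ ∀ᶠ m in atTop, f m = P.eval (t m) / R.eval (t m)}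
  mul_mem' := by
    rintro f g ⟨P, R, hR, hf⟩ ⟨P', R', hR', hg⟩
    refine ⟨P * P', R * R', mul_ne_zero hR hR', ?_⟩
    filter_upwards [hf, hg] with m h1 h2
    rw [Pi.mul_apply, h1, h2, Polynomial.eval_mul, Polynomial.eval_mul, div_mul_div_comm]
  add_mem' := by
    rintro f g ⟨P, R, hR, hf⟩ ⟨P', R', hR', hg⟩
    refine ⟨P * R' + R * P', R * R', mul_ne_zero hR hR', ?_⟩
    filter_upwards [hf, hg, ev_ne ht hR, ev_ne ht hR'] with m h1 h2 h3 h4
    rw [Pi.add_apply, h1, h2, div_add_div _ _ h3 h4]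
    simp only [Polynomial.eval_add, Polynomial.eval_mul]
  algebraMap_mem' := fun c => ⟨Polynomial.C c, 1, one_ne_zero, Eventually.of_forall fun m => by
    rw [Polynomial.eval_C, Polynomial.eval_one, div_one]
    rfl⟩

theorem poly_mem {t : ℕ → 𝕜} (ht : Function.Injective t) (P : Polynomial 𝕜) :
    (fun m => P.eval (t m)) ∈ ratB t ht :=
  ⟨P, 1, one_ne_zero, Eventually.of_forall fun m => by rw [Polynomial.eval_one, div_one]⟩

theorem ratB_field {t : ℕ → 𝕜} (ht : Function.Injective t) (ρ : Polynomial 𝕜)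
    (hρ : ∀ m, t (m + 1) = ρ.eval (t m)) : CoefField (ratB t ht) := by
  refine ⟨⟨?_, ?_⟩, ?_⟩
  · rintro f ⟨P, R, hR, hf⟩
    refine ⟨P.comp ρ, R.comp ρ, ?_, ?_⟩
    · obtain ⟨m, hm⟩ := (eventually_shift (ev_ne ht hR) 1).exists
      intro h0
      apply hm
      rw [hρ, ← Polynomial.eval_comp, h0, Polynomial.eval_zero]
    · filter_upwards [eventually_shift hf 1] with m hm
      rw [hm, Polynomial.eval_comp, Polynomial.eval_comp, hρ]
  · rintro f ⟨P, R, hR, hf⟩
    by_cases hP : P = 0
    · left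
      filter_upwards [hf] with m hm
      rw [hm, hP, Polynomial.eval_zero, zero_div]
    · right
      filter_upwards [hf, ev_ne ht hR, ev_ne ht hP] with m hm h1 h2
      rw [hm]
      exact div_ne_zero h2 h1
  · rintro f ⟨P, R, hR, hf⟩
    by_cases hP : P = 0
    · refine ⟨0, 1, one_ne_zero, ?_⟩
      filter_upwards [hf] with m hm
      rw [hm, hP, Polynomial.eval_zero, zero_div, inv_zero, zero_div]
    · refine ⟨R, P, hP, ?_⟩
      filter_upwards [hf] with m hm
      rw [hm, inv_div]

/-- The sequence `f` satisfies a nontrivial linear recurrence whose coefficients are polynomials in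
`t m`. For `t m = m` these are the P-recursive sequences. -/
def RecAlong (t f : ℕ → 𝕜) : Prop :=
  ∃ (r : ℕ) (a : ℕ → Polynomial 𝕜), (∃ k ≤ r, a k ≠ 0) ∧
    ∀ m, ∑ k ∈ Finset.range (r + 1), (a k).eval (t m) * f (m + k) = 0

theorem RecAlong.linRec {t f : ℕ → 𝕜} (ht : Function.Injective t) (h : RecAlong t f) :
    LinRec (ratB t ht) f := by
  obtain ⟨r, a, ⟨k, hk, hk0⟩, h⟩ := h
  refine ⟨r, fun k m => (a k).eval (t m), fun k => poly_mem ht (a k), ⟨k, hk, fun h0 => ?_⟩,
    Eventually.of_forall h⟩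
  obtain ⟨m, h1, h2⟩ := (h0.and (ev_ne ht hk0)).exists
  exact h2 h1

/-- The tails of the sequence `x` of points are Zariski-dense in the variety with the ideal `p`. -/
def TailDense {N : ℕ} (p : Ideal (MvPolynomial (Fin (N + 1)) 𝕜)) (x : ℕ → Fin (N + 1) → 𝕜) : Prop :=
  ∀ H : MvPolynomial (Fin (N + 1)) 𝕜, IsForm H → (∀ᶠ m in atTop, eval (x m) H = 0) → H ∈ p

theorem ratB_back {t : ℕ → 𝕜} (ht : Function.Injective t) {α β : 𝕜}
    (hρ : ∀ m, t (m + 1) = α * t m + β) : Back (ratB t ht) := by
  have hα : α ≠ 0 := by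
    rintro rfl
    have h1 : t 1 = t 2 := by
      rw [hρ 1, hρ 0, zero_mul, zero_mul]
    have h2 := ht h1
    omega
  have hev : ∀ (P : Polynomial 𝕜) (m : ℕ), (P.comp (Polynomial.C α⁻¹ *
      (Polynomial.X - Polynomial.C β))).eval (t (m + 1)) = P.eval (t m) := by
    intro P m
    rw [Polynomial.eval_comp, Polynomial.eval_mul, Polynomial.eval_C, Polynomial.eval_sub,
      Polynomial.eval_X, Polynomial.eval_C, hρ]
    congr 1
    field_simp
    ring
  rintro f ⟨P, R, hR, hf⟩
  refine ⟨fun m => (P.comp (Polynomial.C α⁻¹ * (Polynomial.X - Polynomial.C β))).eval (t m) /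
    (R.comp (Polynomial.C α⁻¹ * (Polynomial.X - Polynomial.C β))).eval (t m), ⟨_, _, ?_,
      Eventually.of_forall fun m => rfl⟩, ?_⟩
  · obtain ⟨m, hm⟩ := (ev_ne ht hR).exists
    intro h0
    apply hm
    rw [← hev, h0, Polynomial.eval_zero]
  · filter_upwards [hf] with m hm
    rw [hm, hev, hev]

theorem coeff_clear {N q : ℕ} (P : Fin q → Polynomial 𝕜) (hP : LinearIndependent 𝕜 P)
    (G : Fin q → MvPolynomial (Fin (N + 1)) 𝕜) (p : Ideal (MvPolynomial (Fin (N + 1)) 𝕜))
    (h : ∀ k, ∑ i, C ((P i).coeff k) * G i ∈ p) : ∀ i, G i ∈ p := by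
  classical
  let T : (Fin q → 𝕜) →ₗ[𝕜] Polynomial 𝕜 := Fintype.linearCombination 𝕜 P
  have hT : ∀ c, T c = ∑ i, c i • P i := fun c => Fintype.linearCombination_apply 𝕜 P c
  have hTi : LinearMap.ker T = ⊥ := by
    rw [LinearMap.ker_eq_bot']
    intro c hc
    rw [hT] at hc
    funext i
    exact Fintype.linearIndependent_iff.1 hP c hc i
  obtain ⟨g, hg⟩ := LinearMap.exists_leftInverse_of_injective T hTi
  set d := (Finset.univ.sup fun i => (P i).natDegree) + 1 with hd
  have hPd : ∀ i, (P i).natDegree < d := fun i =>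
    Nat.lt_succ_of_le (Finset.le_sup (f := fun i => (P i).natDegree) (Finset.mem_univ i))
  intro i
  have h2 : G i = ∑ k : Fin d, C (g (Polynomial.X ^ (k : ℕ)) i) * ∑ j, C ((P j).coeff k) * G j := by
    have h3 : ∀ j, ∑ k : Fin d, g (Polynomial.X ^ (k : ℕ)) i * (P j).coeff k =
        if j = i then 1 else 0 := by
      intro j
      have h4 : P j = ∑ k : Fin d, (P j).coeff k • Polynomial.X ^ (k : ℕ) := by
        conv_lhs => rw [(P j).as_sum_range' d (hPd j)]
        rw [Finset.sum_range]
        exact Finset.sum_congr rfl fun k _ => by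
          rw [Polynomial.smul_eq_C_mul, Polynomial.C_mul_X_pow_eq_monomial]
      have h5 : g (P j) i = if j = i then 1 else 0 := by
        have h6 := LinearMap.congr_fun hg (Pi.single j 1)
        rw [LinearMap.comp_apply, hT, Finset.sum_eq_single j] at h6
        · rw [Pi.single_eq_same, one_smul, LinearMap.id_apply] at h6
          rw [h6, Pi.single_apply]
          by_cases hji : j = i
          · rw [if_pos hji, if_pos hji.symm]
          · rw [if_neg hji, if_neg (Ne.symm hji)]
        · intro l _ hl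
          rw [Pi.single_eq_of_ne hl, zero_smul]
        · intro h7
          exact absurd (Finset.mem_univ _) h7
      rw [← h5]
      conv_rhs => rw [h4]
      rw [map_sum, Finset.sum_apply]
      refine Finset.sum_congr rfl fun k _ => ?_
      rw [map_smul, Pi.smul_apply, smul_eq_mul, mul_comm]
    simp only [Finset.mul_sum]
    rw [Finset.sum_comm]
    have h4 : ∀ j, ∑ k : Fin d, C (g (Polynomial.X ^ (k : ℕ)) i) * (C ((P j).coeff k) * G j) =
        C (if j = i then (1 : 𝕜) else 0) * G j := by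
      intro j
      rw [← h3 j, map_sum, Finset.sum_mul]
      exact Finset.sum_congr rfl fun k _ => by rw [C_mul, mul_assoc]
    rw [Finset.sum_congr rfl fun j _ => h4 j, Finset.sum_eq_single i]
    · rw [if_pos rfl, C_1, one_mul]
    · intro j _ hj
      rw [if_neg hj, C_0, zero_mul]
    · intro h7
      exact absurd (Finset.mem_univ _) h7
  rw [h2]
  exact Ideal.sum_mem _ fun k _ => p.mul_mem_left _ (h k)

/-- **The graph `{(t m, x m)}` is Zariski-dense** in the product of the affine line and the variety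
with the ideal `p`: every polynomial `∑ T ^ k G k (x)`, homogeneous in `x`, which vanishes on the
graph has all its coefficients `G k` in `p`. -/
def SeqGraphDense {N : ℕ} (p : Ideal (MvPolynomial (Fin (N + 1)) 𝕜)) (t : ℕ → 𝕜)
    (x : ℕ → Fin (N + 1) → 𝕜) : Prop :=
  ∀ (q e : ℕ) (G : Fin q → MvPolynomial (Fin (N + 1)) 𝕜), (∀ k, (G k).IsHomogeneous e) →
    (∀ m, ∑ k : Fin q, t m ^ (k : ℕ) * eval (x m) (G k) = 0) → ∀ k, G k ∈ p

theorem SeqGraphDense.denseSeq {N : ℕ} {p : Ideal (MvPolynomial (Fin (N + 1)) 𝕜)} {t : ℕ → 𝕜}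
    (ht : Function.Injective t) {x : ℕ → Fin (N + 1) → 𝕜} (h : SeqGraphDense p t x) :
    DenseSeq (ratB t ht) (fun G => G ∈ p) x := by
  classical
  intro q b hb hind e G hG hrel
  choose P R hR hPR using hb
  have hPR' : ∀ᶠ m in atTop, ∀ i, b i m = (P i).eval (t m) / (R i).eval (t m) :=
    eventually_all.2 hPR
  have hR' : ∀ᶠ m in atTop, ∀ i, (R i).eval (t m) ≠ 0 := eventually_all.2 fun i => ev_ne ht (hR i)
  obtain ⟨m0, hm0⟩ := eventually_atTop.1 (hrel.and (hPR'.and hR'))
  let V : Polynomial 𝕜 := ∏ l ∈ Finset.range m0, (Polynomial.X - Polynomial.C (t l))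
  have hV : V ≠ 0 := Finset.prod_ne_zero_iff.2 fun l _ => Polynomial.X_sub_C_ne_zero _
  have hV0 : ∀ m, m < m0 → V.eval (t m) = 0 := by
    intro m hm
    simp only [V]
    rw [Polynomial.eval_prod]
    exact Finset.prod_eq_zero (Finset.mem_range.2 hm) (by simp)
  let P' : Fin q → Polynomial 𝕜 := fun i => P i * (∏ l ∈ Finset.univ.erase i, R l) * V
  have hP' : ∀ m, m0 ≤ m → ∀ i, (P' i).eval (t m) = b i m * ((∏ l, (R l).eval (t m)) *
      V.eval (t m)) := by
    intro m hm i
    obtain ⟨-, h2, h3⟩ := hm0 m hm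
    rw [h2 i, ← Finset.mul_prod_erase Finset.univ (fun l => (R l).eval (t m)) (Finset.mem_univ i)]
    simp only [P', Polynomial.eval_mul, Polynomial.eval_prod]
    have h4 := h3 i
    field_simp
  have hli : LinearIndependent 𝕜 P' := by
    rw [Fintype.linearIndependent_iff]
    intro c hc
    have h1 := hind c (by
      filter_upwards [eventually_ge_atTop m0, ev_ne ht hV, hR'] with m h2 h3 h4
      have h5 := congrArg (Polynomial.eval (t m)) hc
      rw [Polynomial.eval_finsetSum, Polynomial.eval_zero] at h5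
      simp only [Polynomial.eval_smul, smul_eq_mul, hP' m h2] at h5
      have h6 : (∑ i, c i * b i m) * ((∏ l, (R l).eval (t m)) * V.eval (t m)) = 0 := by
        rw [← h5, Finset.sum_mul]
        exact Finset.sum_congr rfl fun i _ => by ring
      refine (mul_eq_zero.1 h6).resolve_right ?_
      exact mul_ne_zero (Finset.prod_ne_zero_iff.2 fun l _ => h4 l) h3)
    intro i
    rw [h1]
    rfl
  refine coeff_clear P' hli G p fun k => ?_
  set d := (Finset.univ.sup fun i => (P' i).natDegree) + 1 with hd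
  have hPd : ∀ i, (P' i).natDegree < d := fun i =>
    Nat.lt_succ_of_le (Finset.le_sup (f := fun i => (P' i).natDegree) (Finset.mem_univ i))
  by_cases hk : k < d
  · exact h d e (fun k => ∑ i, C ((P' i).coeff k) * G i) (fun k => by
      apply IsHomogeneous.sum
      intro i _
      have := (isHomogeneous_C (Fin (N + 1)) ((P' i).coeff k)).mul (hG i)
      rwa [zero_add] at this) (by
        intro m
        have h1 : ∑ k : Fin d, t m ^ (k : ℕ) * eval (x m) (∑ i, C ((P' i).coeff k) * G i) =
            ∑ i, (P' i).eval (t m) * eval (x m) (G i) := by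
          simp only [map_sum, map_mul, eval_C, Finset.mul_sum]
          rw [Finset.sum_comm]
          refine Finset.sum_congr rfl fun i _ => ?_
          rw [Polynomial.eval_eq_sum_range' (hPd i), Finset.sum_mul, Finset.sum_range]
          exact Finset.sum_congr rfl fun k _ => by ring
        rw [h1]
        by_cases hm : m < m0
        · refine Finset.sum_eq_zero fun i _ => ?_
          simp only [P', Polynomial.eval_mul, hV0 m hm, mul_zero, zero_mul]
        · have h2 := (hm0 m (not_lt.1 hm)).1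
          simp only [hP' m (not_lt.1 hm)]
          have h3 : ∑ i, b i m * ((∏ l, (R l).eval (t m)) * V.eval (t m)) * eval (x m) (G i) =
              ((∏ l, (R l).eval (t m)) * V.eval (t m)) * ∑ i, b i m * eval (x m) (G i) := by
            rw [Finset.mul_sum]
            exact Finset.sum_congr rfl fun i _ => by ring
          rw [h3, h2, mul_zero]) ⟨k, hk⟩
  · have h1 : ∀ i, (P' i).coeff k = 0 := fun i =>
      Polynomial.coeff_eq_zero_of_natDegree_lt ((hPd i).trans_le (not_lt.1 hk))
    simp only [h1, C_0, zero_mul, Finset.sum_const_zero]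
    exact p.zero_mem

/-! ### constant coefficients -/

/-- the sequences which are constant from some index on -/
def constB : Subalgebra 𝕜 (ℕ → 𝕜) where
  carrier := {f | ∃ c : 𝕜, ∀ᶠ m in atTop, f m = c}
  mul_mem' := by
    rintro f g ⟨c, hf⟩ ⟨d, hg⟩
    refine ⟨c * d, ?_⟩
    filter_upwards [hf, hg] with m h1 h2
    rw [Pi.mul_apply, h1, h2]
  add_mem' := by
    rintro f g ⟨c, hf⟩ ⟨d, hg⟩
    refine ⟨c + d, ?_⟩
    filter_upwards [hf, hg] with m h1 h2
    rw [Pi.add_apply, h1, h2]
  algebraMap_mem' := fun c => ⟨c, Eventually.of_forall fun m => rfl⟩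

theorem constB_field : CoefField (constB : Subalgebra 𝕜 (ℕ → 𝕜)) := by
  refine ⟨⟨?_, ?_⟩, ?_⟩
  · rintro f ⟨c, hf⟩
    exact ⟨c, eventually_shift hf 1⟩
  · rintro f ⟨c, hf⟩
    by_cases hc : c = 0
    · left
      filter_upwards [hf] with m hm
      rw [hm, hc]
    · right
      filter_upwards [hf] with m hm
      rwa [hm]
  · rintro f ⟨c, hf⟩
    refine ⟨c⁻¹, ?_⟩
    filter_upwards [hf] with m hm
    rw [hm]

theorem constB_back : Back (constB : Subalgebra 𝕜 (ℕ → 𝕜)) := by
  rintro f ⟨c, hf⟩
  refine ⟨fun _ => c, ⟨c, Eventually.of_forall fun m => rfl⟩, ?_⟩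
  filter_upwards [hf] with m hm
  rw [hm]

/-- The sequence `f` satisfies a nontrivial linear recurrence with constant coefficients. -/
def CRec (f : ℕ → 𝕜) : Prop :=
  ∃ (r : ℕ) (c : ℕ → 𝕜), (∃ k ≤ r, c k ≠ 0) ∧
    ∀ m, ∑ k ∈ Finset.range (r + 1), c k * f (m + k) = 0

theorem CRec.linRec {f : ℕ → 𝕜} (h : CRec f) : LinRec constB f := by
  obtain ⟨r, c, ⟨k, hk, hk0⟩, h⟩ := h
  refine ⟨r, fun k _ => c k, fun k => ⟨c k, Eventually.of_forall fun m => rfl⟩,
    ⟨k, hk, fun h0 => ?_⟩, Eventually.of_forall h⟩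
  obtain ⟨m, h1⟩ := h0.exists
  exact hk0 h1

theorem dense_const {N : ℕ} {p : Ideal (MvPolynomial (Fin (N + 1)) 𝕜)}
    {x : ℕ → Fin (N + 1) → 𝕜} (h : TailDense p x) : DenseSeq constB (fun G => G ∈ p) x := by
  classical
  intro q b hb hind e G hG hrel
  choose c hc using hb
  have hc' : ∀ᶠ m in atTop, ∀ i, b i m = c i := eventually_all.2 hc
  -- at most one index
  have hne : ∀ i, c i ≠ 0 := by
    intro i h0
    have h1 := hind (Pi.single i 1) (by
      filter_upwards [hc'] with m hm
      rw [Finset.sum_eq_single i]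
      · rw [Pi.single_eq_same, hm, h0, mul_zero]
      · intro l _ hl
        rw [Pi.single_eq_of_ne hl, zero_mul]
      · intro h7
        exact absurd (Finset.mem_univ _) h7)
    have h2 := congrFun h1 i
    rw [Pi.single_eq_same] at h2
    exact one_ne_zero h2
  have huniq : ∀ i l : Fin q, i = l := by
    intro i l
    by_contra hil
    have h1 := hind (Pi.single i (c l) - Pi.single l (c i)) (by
      filter_upwards [hc'] with m hm
      simp only [Pi.sub_apply, sub_mul, Finset.sum_sub_distrib]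
      rw [Finset.sum_eq_single i, Finset.sum_eq_single l]
      · rw [Pi.single_eq_same, Pi.single_eq_same, hm, hm]
        ring
      · intro l' _ hl
        rw [Pi.single_eq_of_ne hl, zero_mul]
      · intro h7
        exact absurd (Finset.mem_univ _) h7
      · intro l' _ hl
        rw [Pi.single_eq_of_ne hl, zero_mul]
      · intro h7
        exact absurd (Finset.mem_univ _) h7)
    have h2 := congrFun h1 i
    rw [Pi.sub_apply, Pi.single_eq_same, Pi.single_eq_of_ne hil, sub_zero] at h2
    exact hne l h2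
  intro i
  apply h (G i) ⟨e, hG i⟩
  filter_upwards [hrel, hc'] with m h1 h2
  rw [Finset.sum_eq_single i] at h1
  · rw [h2] at h1
    exact (mul_eq_zero.1 h1).resolve_left (hne i)
  · intro l _ hl
    exact absurd (huniq l i) hl
  · intro h7
    exact absurd (Finset.mem_univ _) h7

end Pool.Agent.TH8.UDK.K
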