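import Pool.Agent.TH8.UDK.KBeta
import Pool.Agent.TH143.GT.Fam

/-!
Sequences of points over a ground field: density over a field of sequences.
-/

set_option autoImplicit false

namespace Pool.Agent.TH8.UDK.K

open MvPolynomial Filter Pool.Agent.W602.GT

variable {𝕜 : Type} [Field 𝕜] {B : Subalgebra 𝕜 (ℕ → 𝕜)} {I : Ideal (ℕ → 𝕜)}

/-- polynomials over the sequences modulo an ideal -/
noncomputable def mk' (I : Ideal (ℕ → 𝕜)) : (ℕ → 𝕜) →ₐ[𝕜] (ℕ → 𝕜) ⧸ I := Ideal.Quotient.mkₐ 𝕜 I

theorem mk'_zero {f : ℕ → 𝕜} : mk' I f = 0 ↔ f ∈ I := Ideal.Quotient.eq_zero_iff_mem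

/-- the field of coefficients -/
noncomputable def cf (hB : CoefField B) (hI : EZ ≤ I) (K : Type) [Field K]
    [Algebra ((ℕ → 𝕜) ⧸ I) K] [Algebra 𝕜 K] [IsScalarTower 𝕜 ((ℕ → 𝕜) ⧸ I) K] :
    IntermediateField 𝕜 K where
  carrier := {z | ∃ b ∈ B, z = algebraMap ((ℕ → 𝕜) ⧸ I) K (mk' I b)}
  mul_mem' := by
    rintro _ _ ⟨a, ha, rfl⟩ ⟨b, hb, rfl⟩
    exact ⟨a * b, B.mul_mem ha hb, by rw [map_mul, map_mul]⟩
  add_mem' := by
    rintro _ _ ⟨a, ha, rfl⟩ ⟨b, hb, rfl⟩
    exact ⟨a + b, B.add_mem ha hb, by rw [map_add, map_add]⟩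
  algebraMap_mem' := fun c => ⟨algebraMap 𝕜 (ℕ → 𝕜) c, B.algebraMap_mem c, by
    rw [AlgHom.commutes]
    exact IsScalarTower.algebraMap_apply 𝕜 ((ℕ → 𝕜) ⧸ I) K c⟩
  inv_mem' := by
    rintro _ ⟨a, ha, rfl⟩
    rcases hB.dich a ha with h | h
    · have h1 : mk' I a = 0 := mk'_zero.2 (hI h)
      exact ⟨0, B.zero_mem, by rw [h1, map_zero, inv_zero, map_zero, map_zero]⟩
    · refine ⟨_, hB.inv a ha, ?_⟩
      have h1 : mk' I a * mk' I (fun m => (a m)⁻¹) = 1 := by
        rw [← map_mul, ← map_one (mk' I), ← sub_eq_zero, ← map_sub]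
        refine mk'_zero.2 (hI ?_)
        rw [mem_EZ]
        filter_upwards [h] with m hm
        rw [Pi.sub_apply, Pi.mul_apply, Pi.one_apply, mul_inv_cancel₀ hm, sub_self]
      have h2 := congrArg (algebraMap ((ℕ → 𝕜) ⧸ I) K) h1
      rw [map_mul, map_one] at h2
      exact inv_eq_of_mul_eq_one_right h2

variable [CharZero 𝕜]

/-- The sequences `b i` are linearly independent over `𝕜`, also after changing finitely many
terms. -/
def IndepSeq {q : ℕ} (b : Fin q → ℕ → 𝕜) : Prop :=
  ∀ c : Fin q → 𝕜, (∀ᶠ m in atTop, ∑ i, c i * b i m = 0) → c = 0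

/-- **The sequence `x` of points is Zariski-dense over `B`** in the variety of the forms in `Z`: if
the sequences `b i` in `B` are linearly independent over `𝕜`, and `∑ b i (m) G i (x m) = 0` for all
large `m`, for forms `G i` of the same degree, then the `G i` vanish on the variety. -/
def DenseSeq {N : ℕ} (B : Subalgebra 𝕜 (ℕ → 𝕜)) (Z : MvPolynomial (Fin (N + 1)) 𝕜 → Prop)
    (x : ℕ → Fin (N + 1) → 𝕜) : Prop :=
  ∀ (q : ℕ) (b : Fin q → ℕ → 𝕜), (∀ i, b i ∈ B) → IndepSeq b →
    ∀ (e : ℕ) (G : Fin q → MvPolynomial (Fin (N + 1)) 𝕜), (∀ i, (G i).IsHomogeneous e) →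
      (∀ᶠ m in atTop, ∑ i, b i m * eval (x m) (G i) = 0) → ∀ i, Z (G i)

theorem dense_clear_seq {N : ℕ} {Z : MvPolynomial (Fin (N + 1)) 𝕜 → Prop}
    {x : ℕ → Fin (N + 1) → 𝕜} (h : DenseSeq B Z x)
    {A : Type} [Fintype A] (b : A → ℕ → 𝕜) (hb : ∀ α, b α ∈ B) {e : ℕ}
    (g : A → MvPolynomial (Fin (N + 1)) 𝕜) (hg : ∀ α, (g α).IsHomogeneous e)
    (hrel : ∀ᶠ m in atTop, ∑ α, b α m * eval (x m) (g α) = 0)
    (hind : ∀ γ : A → 𝕜, Z (∑ α, C (γ α) * g α) → γ = 0) : ∀ α, ∀ᶠ m in atTop, b α m = 0 := by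
  classical
  let v : A → (ℕ → 𝕜) ⧸ (EZ : Ideal (ℕ → 𝕜)) := fun α => mk' (EZ : Ideal (ℕ → 𝕜)) (b α)
  let W := Submodule.span 𝕜 (Set.range v)
  have hWfin : FiniteDimensional 𝕜 W := FiniteDimensional.span_of_finite 𝕜 (Set.finite_range v)
  let bas := Module.finBasis 𝕜 W
  have hco : ∀ i, ∃ c : A → 𝕜, ∑ α, c α • v α = ((bas i : W) : (ℕ → 𝕜) ⧸ (EZ : Ideal (ℕ → 𝕜))) := fun i =>
    (Submodule.mem_span_range_iff_exists_fun 𝕜).1 (bas i).2
  choose c hc using hco
  have hvW : ∀ α, v α ∈ W := fun α => Submodule.subset_span ⟨α, rfl⟩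
  let γ : A → Fin (Module.finrank 𝕜 W) → 𝕜 := fun α i => bas.repr ⟨v α, hvW α⟩ i
  have hγ : ∀ α, v α = ∑ i, γ α i • ((bas i : W) : (ℕ → 𝕜) ⧸ (EZ : Ideal (ℕ → 𝕜))) := by
    intro α
    have h1 := bas.sum_repr ⟨v α, hvW α⟩
    have h2 := congrArg (fun u : W => (u : (ℕ → 𝕜) ⧸ (EZ : Ideal (ℕ → 𝕜)))) h1
    simp only [Submodule.coe_sum, Submodule.coe_smul] at h2
    exact h2.symm
  let bb : Fin (Module.finrank 𝕜 W) → ℕ → 𝕜 := fun i => ∑ α, c i α • b α
  have hbb : ∀ i, mk' (EZ : Ideal (ℕ → 𝕜)) (bb i) = ((bas i : W) : (ℕ → 𝕜) ⧸ (EZ : Ideal (ℕ → 𝕜))) := by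
    intro i
    rw [← hc i]
    simp only [bb, map_sum, map_smul]
    rfl
  have hbγ : ∀ᶠ m in atTop, ∀ α, b α m = ∑ i, γ α i * bb i m := by
    rw [eventually_all]
    intro α
    have h1 : mk' (EZ : Ideal (ℕ → 𝕜)) (b α - ∑ i, γ α i • bb i) = 0 := by
      rw [map_sub, map_sum]
      simp only [map_smul, hbb]
      rw [← hγ, sub_self]
    have h2 := mk'_zero.1 h1
    have h3 : ∀ᶠ m in atTop, (b α - ∑ i, γ α i • bb i) m = 0 := h2
    filter_upwards [h3] with m hm
    simp only [Pi.sub_apply, Finset.sum_apply, Pi.smul_apply, smul_eq_mul] at hm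
    exact sub_eq_zero.1 hm
  have h1 := h _ bb (fun i => B.sum_mem fun α _ => B.smul_mem (hb α) _) (by
    intro d hd
    have h2 : ∑ i, d i • bas i = 0 := by
      apply Subtype.ext
      simp only [Submodule.coe_sum, Submodule.coe_smul, Submodule.coe_zero]
      have h3 : mk' (EZ : Ideal (ℕ → 𝕜)) (∑ i, d i • bb i) = 0 := by
        apply mk'_zero.2
        change ∀ᶠ m in atTop, _
        filter_upwards [hd] with m hm
        simp only [Finset.sum_apply, Pi.smul_apply, smul_eq_mul]
        exact hm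
      rw [map_sum] at h3
      simp only [map_smul, hbb] at h3
      exact h3
    funext i
    exact Fintype.linearIndependent_iff.1 bas.linearIndependent d h2 i) e
    (fun i => ∑ α, C (γ α i) * g α) (fun i => by
      apply IsHomogeneous.sum
      intro α _
      have := (isHomogeneous_C (Fin (N + 1)) (γ α i)).mul (hg α)
      rwa [zero_add] at this) (by
      filter_upwards [hrel, hbγ] with m h2 h3
      rw [← h2]
      simp only [map_sum, map_mul, eval_C, Finset.mul_sum]
      rw [Finset.sum_comm]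
      refine Finset.sum_congr rfl fun α _ => ?_
      rw [h3, Finset.sum_mul]
      refine Finset.sum_congr rfl fun i _ => ?_
      ring)
  intro α
  filter_upwards [hbγ] with m hm
  rw [hm]
  refine Finset.sum_eq_zero fun i _ => ?_
  have h3 := congrFun (hind _ (h1 i)) α
  have h4 : γ α i = 0 := h3
  rw [h4, zero_mul]

/-- a polynomial over the ring of coefficients vanishes or is nonzero for all large indices -/
theorem at_dich (hB : CoefRing B) {κ : Type} (P : MvPolynomial κ B) :
    (∀ᶠ m in atTop, at' m P = 0) ∨ ∀ᶠ m in atTop, at' m P ≠ 0 := by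
  classical
  have hco : ∀ m α, coeff α (at' m P) = ((coeff α P : B) : ℕ → 𝕜) m := by
    intro m α
    unfold at'
    rw [MvPolynomial.mapAlgHom_apply, coeff_map]
    rfl
  by_cases h : ∀ α ∈ P.support, ∀ᶠ m in atTop, ((coeff α P : B) : ℕ → 𝕜) m = 0
  · left
    have h1 : ∀ᶠ m in atTop, ∀ α ∈ P.support, ((coeff α P : B) : ℕ → 𝕜) m = 0 :=
      (Finset.eventually_all P.support).2 h
    filter_upwards [h1] with m hm
    ext α
    rw [hco, coeff_zero]
    by_cases hα : α ∈ P.support
    · exact hm α hα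
    · rw [notMem_support_iff.1 hα]
      rfl
  · right
    push Not at h
    obtain ⟨α, hα, h1⟩ := h
    have h2 := (hB.dich _ (coeff α P).2).resolve_left (by
      intro h2
      exact h1 (h2.mono fun m hm hne => hne hm))
    filter_upwards [h2] with m hm h0
    apply hm
    rw [← hco, h0, coeff_zero]

theorem coeff_at {κ : Type} (P : MvPolynomial κ B) (m : ℕ) (α : κ →₀ ℕ) :
    coeff α (at' m P) = ((coeff α P : B) : ℕ → 𝕜) m := by
  unfold at'
  rw [MvPolynomial.mapAlgHom_apply, coeff_map]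
  rfl

/-- homogeneous relations between independent elements -/
theorem homog_indep {w : ℕ} {K : Type} [Field K] [Algebra 𝕜 K] {y0 : K} (h0 : y0 ≠ 0)
    {t : Fin w → K} (hind : AlgebraicIndependent 𝕜 (fun l => t l / y0))
    {Q : MvPolynomial (Fin (w + 1)) 𝕜} {e : ℕ} (hQ : Q.IsHomogeneous e)
    (h : aeval (Fin.cons y0 t : Fin (w + 1) → K) Q = 0) : Q = 0 := by
  classical
  have hcomp : ∀ {L : Type} [Field L] [Algebra 𝕜 L] (u : Fin w → L),
      aeval (Fin.cons 1 u : Fin (w + 1) → L) Q =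
        aeval u (aeval (Fin.cons 1 X : Fin (w + 1) → MvPolynomial (Fin w) 𝕜) Q) := by
    intro L _ _ u
    have h1 := MvPolynomial.comp_aeval_apply
      (f := (Fin.cons 1 X : Fin (w + 1) → MvPolynomial (Fin w) 𝕜))
      (aeval u : MvPolynomial (Fin w) 𝕜 →ₐ[𝕜] L) Q
    rw [h1]
    congr 2
    funext i
    refine Fin.cases ?_ (fun i => ?_) i
    · rw [Fin.cons_zero, Fin.cons_zero, map_one]
    · rw [Fin.cons_succ, Fin.cons_succ, aeval_X]
  have hsc : ∀ {L : Type} [Field L] [Algebra 𝕜 L] (y : Fin (w + 1) → L), y 0 ≠ 0 →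
      aeval y Q = y 0 ^ e * aeval (Fin.cons 1 (fun l => y l.succ / y 0) : Fin (w + 1) → L) Q := by
    intro L _ _ y hy
    have h1 := Pool.Agent.TH143.GT.val_scale hy hQ
    refine h1.trans ?_
    congr 3
    funext i
    refine Fin.cases ?_ (fun i => ?_) i
    · rw [Fin.cons_zero, div_self hy]
    · rw [Fin.cons_succ]
  have h1 := hsc (Fin.cons y0 t : Fin (w + 1) → K) (by rw [Fin.cons_zero]; exact h0)
  rw [h, Fin.cons_zero] at h1
  simp only [Fin.cons_succ] at h1
  have h2 := (mul_eq_zero.1 h1.symm).resolve_left (pow_ne_zero _ h0)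
  rw [hcomp] at h2
  have h3 := (injective_iff_map_eq_zero _).1 hind _ h2
  have h4 : X 0 * Q = 0 := by
    apply MvPolynomial.funext
    intro v
    rw [map_mul, eval_X, map_zero]
    by_cases hv : v 0 = 0
    · rw [hv, zero_mul]
    · have h5 := hsc v hv
      rw [hcomp, h3, map_zero, mul_zero, MvPolynomial.aeval_eq_eval] at h5
      rw [h5, mul_zero]
  exact (mul_eq_zero.1 h4).resolve_left (X_ne_zero 0)

/-- **The prime ideal** of sequences: homogeneous polynomials in the coordinates of the points,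
with coefficients in `B`, do not belong to it. -/
theorem exists_prime (hB : CoefRing B) {N w : ℕ} {K : Type} [Field K] [Algebra 𝕜 K]
    {y : Fin (N + 1) → K} {x : ℕ → Fin (N + 1) → 𝕜}
    (hd : DenseSeq B (fun G => W602.GT.val y G = 0) x) {i0 : Fin (N + 1)} (h0 : y i0 ≠ 0)
    {j : Fin w → Fin (N + 1)} (hind : AlgebraicIndependent 𝕜 (fun l => y (j l) / y i0)) :
    ∃ I : Ideal (ℕ → 𝕜), I.IsPrime ∧ EZ ≤ I ∧ ∀ (e : ℕ) (P : MvPolynomial (Fin (w + 1)) B),
      P.IsHomogeneous e →
      (fun m => eval (fun l => x m ((Fin.cons i0 j : Fin (w + 1) → Fin (N + 1)) l)) (at' m P)) ∈ I →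
      ∀ᶠ m in atTop, at' m P = 0 := by
  classical
  set jj : Fin (w + 1) → Fin (N + 1) := Fin.cons i0 j with hjj
  let T : Submonoid (ℕ → 𝕜) :=
    { carrier := {f | ∃ (e : ℕ) (P : MvPolynomial (Fin (w + 1)) B), P.IsHomogeneous e ∧
        (∀ᶠ m in atTop, at' m P ≠ 0) ∧ f = fun m => eval (fun l => x m (jj l)) (at' m P)}
      mul_mem' := by
        rintro _ _ ⟨e, P, h1, h2, rfl⟩ ⟨e', P', h1', h2', rfl⟩
        refine ⟨e + e', P * P', h1.mul h1', ?_, ?_⟩
        · filter_upwards [h2, h2'] with m h3 h4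
          rw [map_mul]
          exact mul_ne_zero h3 h4
        · funext m
          rw [map_mul, map_mul]
          rfl
      one_mem' := ⟨0, 1, isHomogeneous_one _ _, Eventually.of_forall fun m => by
        rw [map_one]
        exact one_ne_zero, by
        funext m
        rw [map_one, map_one]
        rfl⟩ }
  have hdisj : Disjoint ((EZ : Ideal (ℕ → 𝕜)) : Set (ℕ → 𝕜)) T := by
    rw [Set.disjoint_left]
    rintro f hf ⟨e, P, hP, hPne, rfl⟩
    have hf' : ∀ᶠ m in atTop, eval (fun l => x m (jj l)) (at' m P) = 0 := hf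
    let A := {α // α ∈ P.support}
    let g : A → MvPolynomial (Fin (N + 1)) 𝕜 := fun α => ∏ l, X (jj l) ^ (α : Fin (w + 1) →₀ ℕ) l
    have hdeg : ∀ α : A, ∑ l, (α : Fin (w + 1) →₀ ℕ) l = e := by
      intro α
      have := hP (mem_support_iff.1 α.2)
      rw [Finsupp.weight_apply, Finsupp.sum_fintype _ _ (fun _ => by simp)] at this
      simpa using this
    have hg : ∀ α, (g α).IsHomogeneous e := by
      intro α
      rw [← hdeg α]
      apply IsHomogeneous.prod
      intro l _
      have := (isHomogeneous_X 𝕜 (jj l)).pow ((α : Fin (w + 1) →₀ ℕ) l)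
      rwa [one_mul] at this
    have hsupp : ∀ (m : ℕ) (v : Fin (w + 1) → 𝕜), eval v (at' m P) =
        ∑ α : A, ((coeff (α : Fin (w + 1) →₀ ℕ) P : B) : ℕ → 𝕜) m *
          ∏ l, v l ^ (α : Fin (w + 1) →₀ ℕ) l := by
      intro m v
      rw [eval_eq']
      have h1 : (at' m P).support ⊆ P.support := by
        intro α hα
        rw [mem_support_iff, coeff_at] at hα
        rw [mem_support_iff]
        intro h2
        apply hα
        rw [h2]
        rfl
      rw [Finset.sum_subset h1 fun α _ hα => by rw [notMem_support_iff.1 hα, zero_mul],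
        ← Finset.sum_coe_sort]
      refine Finset.sum_congr rfl fun α _ => ?_
      rw [coeff_at]
    have h1 := dense_clear_seq hd (A := A) (fun α => ((coeff (α : Fin (w + 1) →₀ ℕ) P : B) : ℕ → 𝕜))
      (fun α => (coeff (α : Fin (w + 1) →₀ ℕ) P).2) g hg (by
        filter_upwards [hf'] with m hm
        rw [hsupp] at hm
        rw [← hm]
        refine Finset.sum_congr rfl fun α _ => ?_
        simp only [g, map_prod, map_pow, eval_X]) (by
        intro γ hγ
        have h2 : (∑ α : A, monomial (α : Fin (w + 1) →₀ ℕ) (γ α) :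
            MvPolynomial (Fin (w + 1)) 𝕜) = 0 := by
          apply homog_indep h0 hind (e := e)
          · apply IsHomogeneous.sum
            intro α _
            apply isHomogeneous_monomial
            rw [Finsupp.degree_eq_sum]
            exact hdeg α
          · have h3 : (Fin.cons (y i0) fun l => y (j l) : Fin (w + 1) → K) = fun l => y (jj l) := by
              funext l
              refine Fin.cases ?_ (fun l => ?_) l
              · rw [hjj, Fin.cons_zero, Fin.cons_zero]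
              · rw [hjj, Fin.cons_succ, Fin.cons_succ]
            rw [h3, ← hγ]
            unfold W602.GT.val
            rw [map_sum, map_sum]
            refine Finset.sum_congr rfl fun α _ => ?_
            rw [aeval_monomial, map_mul, aeval_C, Finsupp.prod_fintype _ _ fun _ => pow_zero _]
            simp only [g, map_prod, map_pow, aeval_X]
        funext α
        have h3 := congrArg (coeff (α : Fin (w + 1) →₀ ℕ)) h2
        rw [coeff_sum, coeff_zero, Finset.sum_eq_single α] at h3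
        · rwa [coeff_monomial, if_pos rfl] at h3
        · intro β _ hβ
          rw [coeff_monomial, if_neg fun e => hβ (Subtype.ext e)]
        · intro hn
          exact absurd (Finset.mem_univ _) hn)
    have h2 : ∀ᶠ m in atTop, ∀ α : A, ((coeff (α : Fin (w + 1) →₀ ℕ) P : B) : ℕ → 𝕜) m = 0 :=
      eventually_all.2 h1
    obtain ⟨m, h3, h4⟩ := (h2.and hPne).exists
    apply h4
    ext α
    rw [coeff_at, coeff_zero]
    by_cases hα : α ∈ P.support
    · exact h3 ⟨α, hα⟩
    · rw [notMem_support_iff.1 hα]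
      rfl
  obtain ⟨I, hIp, hI, hIT⟩ := Ideal.exists_le_prime_disjoint (EZ : Ideal (ℕ → 𝕜)) T hdisj
  refine ⟨I, hIp, hI, fun e P hP hPI => ?_⟩
  refine (at_dich hB P).resolve_right fun h1 => ?_
  exact Set.disjoint_left.1 hIT hPI ⟨e, P, hP, h1, rfl⟩

/-- **Independence** over the field of coefficients. -/
theorem indep_seq (hB : CoefField B) {N w : ℕ} {x : ℕ → Fin (N + 1) → 𝕜} {i0 : Fin (N + 1)}
    {j : Fin w → Fin (N + 1)} (hI : EZ ≤ I)
    (hprime : ∀ (e : ℕ) (P : MvPolynomial (Fin (w + 1)) B), P.IsHomogeneous e →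
      (fun m => eval (fun l => x m ((Fin.cons i0 j : Fin (w + 1) → Fin (N + 1)) l)) (at' m P)) ∈ I →
      ∀ᶠ m in atTop, at' m P = 0)
    {F : Type} [Field F] [IsDomain ((ℕ → 𝕜) ⧸ I)] [Algebra ((ℕ → 𝕜) ⧸ I) F]
    [IsFractionRing ((ℕ → 𝕜) ⧸ I) F] [Algebra 𝕜 F] [IsScalarTower 𝕜 ((ℕ → 𝕜) ⧸ I) F] :
    algebraMap ((ℕ → 𝕜) ⧸ I) F (cl I fun m => x m i0) ≠ 0 ∧
    AlgebraicIndependent (cf hB hI F) (fun l => algebraMap ((ℕ → 𝕜) ⧸ I) F (cl I fun m => x m (j l)) /
      algebraMap ((ℕ → 𝕜) ⧸ I) F (cl I fun m => x m i0)) := by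
  classical
  set a := algebraMap ((ℕ → 𝕜) ⧸ I) F with ha
  have hinj : Function.Injective a := IsFractionRing.injective _ F
  set jj : Fin (w + 1) → Fin (N + 1) := Fin.cons i0 j with hjj
  have hx0 : a (cl I fun m => x m i0) ≠ 0 := by
    rw [Ne, map_eq_zero_iff a hinj, cl_zero]
    intro h1
    have h2 := hprime 1 (X 0) (isHomogeneous_X _ _) (by
      have h3 : (fun m => eval (fun l => x m (jj l)) (at' m (X 0 : MvPolynomial (Fin (w + 1)) B))) =
          fun m => x m i0 := by
        funext m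
        rw [at'_X, eval_X, hjj, Fin.cons_zero]
      rw [h3]
      exact h1)
    obtain ⟨m, hm⟩ := h2.exists
    rw [at'_X] at hm
    exact X_ne_zero 0 hm
  refine ⟨hx0, ?_⟩
  let π : B →+* cf hB hI F :=
    { toFun := fun b => ⟨a (mk' I b), b, b.2, rfl⟩
      map_one' := by
        apply Subtype.ext
        change a (mk' I ((1 : B) : ℕ → 𝕜)) = 1
        rw [B.coe_one, map_one, map_one]
      map_mul' := fun b b' => by
        apply Subtype.ext
        change a (mk' I ((b * b' : B) : ℕ → 𝕜)) = a (mk' I b) * a (mk' I b')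
        rw [B.coe_mul, map_mul, map_mul]
      map_zero' := by
        apply Subtype.ext
        change a (mk' I ((0 : B) : ℕ → 𝕜)) = 0
        rw [B.coe_zero, map_zero, map_zero]
      map_add' := fun b b' => by
        apply Subtype.ext
        change a (mk' I ((b + b' : B) : ℕ → 𝕜)) = a (mk' I b) + a (mk' I b')
        rw [B.coe_add, map_add, map_add] }
  have hπ : Function.Surjective π := by
    rintro ⟨_, b, hb, rfl⟩
    exact ⟨⟨b, hb⟩, rfl⟩
  have hπ0 : ∀ b : B, (∀ᶠ m in atTop, (b : ℕ → 𝕜) m = 0) → π b = 0 := by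
    intro b hb
    apply Subtype.ext
    change a (mk' I b) = 0
    rw [mk'_zero.2 (hI hb), map_zero]
  rw [AlgebraicIndependent, injective_iff_map_eq_zero]
  intro P hP
  obtain ⟨P, rfl⟩ := MvPolynomial.map_surjective π hπ P
  set e := P.totalDegree with he
  let H : MvPolynomial (Fin (w + 1)) B := ∑ α ∈ P.support, C (coeff α P) *
    (X 0 ^ (e - α.degree) * ∏ l : Fin w, X l.succ ^ α l)
  have hdeg : ∀ α ∈ P.support, α.degree ≤ e := fun α hα => le_totalDegree hα
  have hH : H.IsHomogeneous e := by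
    apply IsHomogeneous.sum
    intro α hα
    have h1 : (∏ l : Fin w, (X l.succ : MvPolynomial (Fin (w + 1)) B) ^ α l).IsHomogeneous
        (∑ l, α l) := by
      apply IsHomogeneous.prod
      intro l _
      have := (isHomogeneous_X B l.succ).pow (α l)
      rwa [one_mul] at this
    have h2 : ((X 0 : MvPolynomial (Fin (w + 1)) B) ^ (e - α.degree)).IsHomogeneous
        (e - α.degree) := by
      have := (isHomogeneous_X B (0 : Fin (w + 1))).pow (e - α.degree)
      rwa [one_mul] at this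
    have h3 := (isHomogeneous_C (Fin (w + 1)) (coeff α P)).mul (h2.mul h1)
    have h4 : ∑ l, α l = α.degree := (Finsupp.degree_eq_sum _).symm
    rw [h4, Nat.sub_add_cancel (hdeg α hα), zero_add] at h3
    exact h3
  have hHe : ∀ (m : ℕ) (v : Fin (w + 1) → 𝕜), eval v (at' m H) =
      ∑ α ∈ P.support, ((coeff α P : B) : ℕ → 𝕜) m *
        (v 0 ^ (e - α.degree) * ∏ l : Fin w, v l.succ ^ α l) := by
    intro m v
    simp only [H, map_sum, map_mul, map_prod, map_pow, at'_C, at'_X, eval_C, eval_X]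
  have hseq : (fun m => eval (fun l => x m (jj l)) (at' m H)) ∈ I := by
    rw [← cl_zero, ← map_eq_zero_iff a hinj]
    have h1 : (fun m => eval (fun l => x m (jj l)) (at' m H)) = ∑ α ∈ P.support,
        ((coeff α P : B) : ℕ → 𝕜) * ((fun m => x m i0) ^ (e - α.degree) *
          ∏ l : Fin w, (fun m => x m (j l)) ^ α l) := by
      funext m
      rw [hHe]
      simp only [Finset.sum_apply, Pi.mul_apply, Finset.prod_apply, Pi.pow_apply, hjj,
        Fin.cons_zero, Fin.cons_succ]
    have h2 : a (cl I (fun m => eval (fun l => x m (jj l)) (at' m H))) =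
        a (cl I fun m => x m i0) ^ e * aeval (fun l => a (cl I fun m => x m (j l)) /
          a (cl I fun m => x m i0)) (map π P) := by
      rw [h1, aeval_def, eval₂_map, eval₂_eq', Finset.mul_sum]
      simp only [map_sum, map_mul, map_prod, map_pow]
      refine Finset.sum_congr rfl fun α hα => ?_
      have h4 : ∑ l, α l = α.degree := (Finsupp.degree_eq_sum _).symm
      simp only [div_pow, Finset.prod_div_distrib]
      rw [Finset.prod_pow_eq_pow_sum, h4]
      have h5 : a (cl I fun m => x m i0) ^ e = a (cl I fun m => x m i0) ^ (e - α.degree) *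
          a (cl I fun m => x m i0) ^ α.degree := by
        rw [← pow_add, Nat.sub_add_cancel (hdeg α hα)]
      rw [h5]
      have h6 := pow_ne_zero α.degree hx0
      have h7 : ((algebraMap (cf hB hI F) F).comp π) (coeff α P) = a (cl I (coeff α P : B)) := rfl
      rw [h7]
      field_simp
    rw [h2, hP, mul_zero]
  have hH0 := hprime e H hH hseq
  have hP0 : ∀ᶠ m in atTop, at' m P = 0 := by
    filter_upwards [hH0] with m hm
    apply MvPolynomial.funext
    intro v
    have h1 := hHe m (Fin.cons 1 v)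
    rw [hm, map_zero] at h1
    rw [map_zero, eval_eq']
    have h2 : (at' m P).support ⊆ P.support := by
      intro α hα
      rw [mem_support_iff, coeff_at] at hα
      rw [mem_support_iff]
      intro h2
      apply hα
      rw [h2]
      rfl
    rw [Finset.sum_subset h2 fun α _ hα => by rw [notMem_support_iff.1 hα, zero_mul], h1]
    refine Finset.sum_congr rfl fun α _ => ?_
    rw [coeff_at, Fin.cons_zero, one_pow, one_mul]
    simp only [Fin.cons_succ]
  ext α
  rw [coeff_map, coeff_zero, hπ0]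
  filter_upwards [hP0] with m hm
  rw [← coeff_at, hm, coeff_zero]

/-- `B` is closed under the backward shift, up to finitely many terms -/
def Back (B : Subalgebra 𝕜 (ℕ → 𝕜)) : Prop :=
  ∀ b ∈ B, ∃ b' ∈ B, ∀ᶠ m in atTop, b' (m + 1) = b m

theorem Back.iter (h : Back B) (s : ℕ) : ∀ b ∈ B, ∃ b' ∈ B, ∀ᶠ m in atTop, b' (m + s) = b m := by
  induction s with
  | zero => exact fun b hb => ⟨b, hb, Eventually.of_forall fun m => rfl⟩
  | succ s ih =>
    intro b hb
    obtain ⟨b1, hb1, h1⟩ := ih b hb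
    obtain ⟨b2, hb2, h2⟩ := h b1 hb1
    refine ⟨b2, hb2, ?_⟩
    filter_upwards [h1, eventually_shift h2 s] with m h3 h4
    rw [← h3, ← h4]
    congr 1

/-- density of a shifted sequence -/
theorem DenseSeq.shift (hback : Back B) {N : ℕ} {Z : MvPolynomial (Fin (N + 1)) 𝕜 → Prop}
    {x : ℕ → Fin (N + 1) → 𝕜} (h : DenseSeq B Z x) (s : ℕ) {x' : ℕ → Fin (N + 1) → 𝕜}
    (hx' : ∀ᶠ m in atTop, x' m = x (m + s)) : DenseSeq B Z x' := by
  intro q b hb hind e G hG hrel
  choose b' hb' hbe using fun i => hback.iter s (b i) (hb i)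
  have hbe' : ∀ᶠ m in atTop, ∀ i, b' i (m + s) = b i m := eventually_all.2 hbe
  have hsh : ∀ {P : ℕ → Prop}, (∀ᶠ m in atTop, P (m + s)) → ∀ᶠ m in atTop, P m := by
    intro P hP
    obtain ⟨m0, hm0⟩ := eventually_atTop.1 hP
    refine eventually_atTop.2 ⟨m0 + s, fun m hm => ?_⟩
    have h1 := hm0 (m - s) (by omega)
    rwa [Nat.sub_add_cancel (by omega)] at h1
  refine h q b' hb' (fun c hc => hind c ?_) e G hG (hsh ?_)
  · filter_upwards [eventually_shift hc s, hbe'] with m h1 h2
    rw [← h1]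
    exact Finset.sum_congr rfl fun i _ => by rw [h2]
  · filter_upwards [hrel, hbe', hx'] with m h1 h2 h3
    rw [← h1]
    exact Finset.sum_congr rfl fun i _ => by rw [h2, h3]

end Pool.Agent.TH8.UDK.K
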