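import Pool.Agent.TH8.UDK.KDense
import Pool.Agent.TH8.UNI.Gen

/-!
Linear difference systems over a ground field: infinitesimal symmetries in all directions.
-/

set_option autoImplicit false

namespace Pool.Agent.TH8.UDK.K

open MvPolynomial Filter

variable {𝕜 : Type} [Field 𝕜] {n : ℕ} {B : Subalgebra 𝕜 (ℕ → 𝕜)}

/-- the direction given by a matrix -/
noncomputable def dirS (U : ℕ → Matrix (Fin n) (Fin n) 𝕜) {w : ℕ}
    (G0 G1 : Fin w → MvPolynomial (Fin n × Fin n) 𝕜) (η : Matrix (Fin n) (Fin n) 𝕜)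
    (l : Fin w) : ℕ → 𝕜 := fun m =>
  eval (mv (U m)) (Dc η (G1 l)) * eval (mv (U m)) (G0 l) -
    eval (mv (U m)) (G1 l) * eval (mv (U m)) (Dc η (G0 l))

/-- **Symmetries in all directions.** -/
theorem all_dirs (U : ℕ → Matrix (Fin n) (Fin n) 𝕜) (hdet : ∀ᶠ m in atTop, (U m).det ≠ 0)
    (L : Submodule 𝕜 (Matrix (Fin n) (Fin n) 𝕜)) {k : ℕ}
    (P : Fin k → MvPolynomial (Fin n × Fin n) B) (hP : ∀ i, P i ∈ JU B U)
    (hL : ∀ᶠ m in atTop, LinearMap.ker (Tm U P m) = L)
    {I : Ideal (ℕ → 𝕜)} (hI : EZ ≤ I) {K : Type} [Field K]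
    [Algebra ((ℕ → 𝕜) ⧸ I) K] [IsDomain ((ℕ → 𝕜) ⧸ I)] [IsFractionRing ((ℕ → 𝕜) ⧸ I) K]
    {w : ℕ} (D : Fin w → K → K) (hDadd : ∀ i x y, D i (x + y) = D i x + D i y)
    (hDmul : ∀ i x y, D i (x * y) = x * D i y + y * D i x)
    (hDB : ∀ i, ∀ b ∈ B, D i (algebraMap ((ℕ → 𝕜) ⧸ I) K (cl I b)) = 0)
    (G0 G1 : Fin w → MvPolynomial (Fin n × Fin n) 𝕜) (u : Fin w → K) (hu : ∀ l, u l ≠ 0)
    (hG : ∀ i j, D i (algebraMap ((ℕ → 𝕜) ⧸ I) K (cl I fun m => eval (mv (U m)) (G1 j))) *
        algebraMap ((ℕ → 𝕜) ⧸ I) K (cl I fun m => eval (mv (U m)) (G0 j)) -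
      algebraMap ((ℕ → 𝕜) ⧸ I) K (cl I fun m => eval (mv (U m)) (G1 j)) *
        D i (algebraMap ((ℕ → 𝕜) ⧸ I) K (cl I fun m => eval (mv (U m)) (G0 j))) =
          if i = j then u j else 0) :
    ∃ η : Fin w → Matrix (Fin n) (Fin n) 𝕜, (∀ i, η i ∈ L) ∧
      (Matrix.of fun i l => cl I (dirS U G0 G1 (η i) l)).det ≠ 0 := by
  classical
  set a := algebraMap ((ℕ → 𝕜) ⧸ I) K with ha
  have key : ∀ r : ℕ, r ≤ w → ∃ η : Fin r → Matrix (Fin n) (Fin n) 𝕜, (∀ i, η i ∈ L) ∧
      LinearIndependent K (fun (i : Fin r) (l : Fin w) =>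
        a (cl I (dirS U G0 G1 (η i) l))) := by
    intro r
    induction r with
    | zero =>
      intro _
      exact ⟨fun i => i.elim0, fun i => i.elim0, linearIndependent_empty_type⟩
    | succ r ih =>
      intro hr
      obtain ⟨η, h1, h2⟩ := ih (by omega)
      set v : Fin r → Fin w → K := fun i l => a (cl I (dirS U G0 G1 (η i) l)) with hv
      have hlt : Submodule.span K (Set.range v) < ⊤ := by
        rw [lt_top_iff_ne_top]
        intro h
        have h3 := finrank_span_eq_card h2
        rw [h, finrank_top, Module.finrank_fin_fun, Fintype.card_fin] at h3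
        omega
      obtain ⟨φ, hφ0, hφ⟩ := Submodule.exists_le_ker_of_lt_top _ hlt
      obtain ⟨s, hs⟩ := IsLocalization.exist_integer_multiples_of_finset
        (nonZeroDivisors ((ℕ → 𝕜) ⧸ I))
        (Finset.univ.image (fun l : Fin w => φ (Pi.single l 1)))
      have hs' : ∀ l : Fin w, ∃ h : ℕ → 𝕜, a (cl I h) = a s * φ (Pi.single l 1) := by
        intro l
        obtain ⟨h, hh⟩ := hs _ (Finset.mem_image_of_mem _ (Finset.mem_univ l))
        obtain ⟨h', rfl⟩ := Ideal.Quotient.mk_surjective h
        refine ⟨h', ?_⟩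
        rw [← ha] at hh
        change a (Ideal.Quotient.mk I h') = _
        rw [hh, Algebra.smul_def]
      choose c hc using hs'
      have hs0 : a s ≠ 0 := by
        intro h0
        exact nonZeroDivisors.ne_zero s.2
          (IsFractionRing.injective ((ℕ → 𝕜) ⧸ I) K (by rw [← ha, h0, map_zero]))
      have hφe : ∀ x : Fin w → K, a s * φ x = ∑ l, a (cl I (c l)) * x l := by
        intro x
        have h3 : x = ∑ l, x l • (Pi.single l 1 : Fin w → K) := by
          funext l
          rw [Finset.sum_apply, Finset.sum_eq_single l]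
          · simp
          · intro j _ hj
            simp [Ne.symm hj]
          · intro h
            exact absurd (Finset.mem_univ _) h
        conv_lhs => rw [h3]
        rw [map_sum, Finset.mul_sum]
        refine Finset.sum_congr rfl fun l _ => ?_
        rw [map_smul, smul_eq_mul, hc]
        ring
      obtain ⟨l0, hl0⟩ : ∃ l, a (cl I (c l)) ≠ 0 := by
        by_contra hcon
        push Not at hcon
        apply hφ0
        apply LinearMap.ext
        intro x
        have h3 := hφe x
        rw [Finset.sum_eq_zero fun l _ => by rw [hcon, zero_mul]] at h3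
        exact (mul_eq_zero.1 h3).resolve_left hs0
      obtain ⟨η', e4, e5⟩ := exists_beta_sum (B := B) hI (K := K)
        (D l0) (hDadd l0) (hDmul l0) (hDB l0) U hdet L P hP hL c G0 G1 (by
          simp only [← ha, hG, mul_ite, mul_zero]
          rw [Finset.sum_ite_eq, if_pos (Finset.mem_univ _)]
          exact mul_ne_zero hl0 (hu l0))
      refine ⟨Fin.cons η' η, fun i => ?_, ?_⟩
      · induction i using Fin.cases with
        | zero => exact e4
        | succ i => exact h1 i
      · have h3 : (fun (i : Fin (r + 1)) (l : Fin w) => a (cl I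
            (dirS U G0 G1 ((Fin.cons η' η : Fin (r + 1) → Matrix (Fin n) (Fin n) 𝕜) i) l))) =
            Fin.cons (fun l => a (cl I (dirS U G0 G1 η' l))) v := by
          funext i
          induction i using Fin.cases with
          | zero => rfl
          | succ i => rfl
        rw [h3, linearIndependent_finCons]
        refine ⟨h2, fun hmem => ?_⟩
        have h4 := hφ hmem
        rw [LinearMap.mem_ker] at h4
        have h5 := hφe fun l => a (cl I (dirS U G0 G1 η' l))
        rw [h4, mul_zero] at h5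
        apply e5
        rw [← cl_zero]
        apply IsFractionRing.injective ((ℕ → 𝕜) ⧸ I) K
        rw [map_zero, h5]
        have h6 : cl I (fun m => ∑ j, c j m * (eval (mv (U m)) (Dc η' (G1 j)) *
            eval (mv (U m)) (G0 j) - eval (mv (U m)) (G1 j) * eval (mv (U m)) (Dc η' (G0 j)))) =
            ∑ l, cl I (c l) * cl I (dirS U G0 G1 η' l) := by
          rw [← Finset.sum_congr rfl fun l _ => map_mul (cl I) _ _, ← map_sum]
          congr 1
          funext m
          rw [Finset.sum_apply]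
          rfl
        rw [h6, map_sum]
        exact Finset.sum_congr rfl fun l _ => map_mul _ _ _
  obtain ⟨η, h1, h2⟩ := key w le_rfl
  refine ⟨η, h1, ?_⟩
  intro h0
  have h3 : (Matrix.of fun i l => a (cl I (dirS U G0 G1 (η i) l))).det = 0 := by
    have h4 := congrArg a h0
    rw [map_zero, RingHom.map_det] at h4
    exact h4
  have h4 : IsUnit (Matrix.of fun i l => a (cl I (dirS U G0 G1 (η i) l))) :=
    Matrix.linearIndependent_rows_iff_isUnit.1 h2
  rw [Matrix.isUnit_iff_isUnit_det, h3] at h4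
  exact not_isUnit_zero h4

end Pool.Agent.TH8.UDK.K
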