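import Pool.Agent.TH8.UDK.KMain
import Pool.Agent.TH8.UDK.KConv
import Pool.Agent.TH8.UDE.UniS

/-!
Sequences of points over a ground field given by linear recurrences, and parametrizations of the
ambient variety over the ground field.
-/

set_option autoImplicit false

namespace Pool.Agent.TH8.UDK.K

open MvPolynomial Pool.Agent.TH8.UNI Pool.Agent.W602.GT Pool.Agent.TH143.GT
open Filter (atTop eventually_atTop)

variable {𝕜 : Type} [Field 𝕜] [Algebra 𝕜 ℂ]

/-- **Parametrizations from sequences.** -/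
theorem dom_of_seq [CharZero 𝕜] {N : ℕ} (T : Set (MvPolynomial (Fin (N + 1)) 𝕜))
    (hT : ∀ G ∈ T, IsForm G) {p : Ideal (MvPolynomial (Fin (N + 1)) ℂ)}
    (hp : p = Ideal.span (map (algebraMap 𝕜 ℂ) '' T)) {K : Type} [Field K] [Algebra ℂ K] {w : ℕ}
    {y : Fin (N + 1) → K} (hy : FunField p 1 K w y) {B : Subalgebra 𝕜 (ℕ → 𝕜)}
    (hB : CoefField B) (hback : Back B) {x : ℕ → Fin (N + 1) → 𝕜}
    (hx : ∀ j, LinRec B (fun m => x m j)) (hX : ∀ G ∈ T, ∀ᶠ m in atTop, eval (x m) G = 0)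
    (hd : DenseSeq B (fun G => map (algebraMap 𝕜 ℂ) G ∈ p) x) :
    Pool.Agent.TH8.UDE.DomOver 𝕜 p := by
  classical
  obtain ⟨i0, h0⟩ : ∃ i, y i ≠ 0 := Function.ne_iff.1 hy.sub.ne
  obtain ⟨j, hj⟩ := exists_coord_basis hy.sub.gen hy.sub.dim h0
  let _ : Algebra 𝕜 K := ((algebraMap ℂ K).comp (algebraMap 𝕜 ℂ)).toAlgebra
  have htow : IsScalarTower 𝕜 ℂ K := IsScalarTower.of_algebraMap_eq fun _ => rfl
  have hj' : AlgebraicIndependent 𝕜 (fun l => y (j l) / y i0) :=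
    hj.1.restrictScalars (algebraMap 𝕜 ℂ).injective
  have hval : ∀ G : MvPolynomial (Fin (N + 1)) 𝕜,
      W602.GT.val y G = W602.GT.val y (map (algebraMap 𝕜 ℂ) G) := by
    intro G
    unfold W602.GT.val
    exact (aeval_map_algebraMap ℂ y G).symm
  obtain ⟨W, hW, hJ⟩ := uni_seq_k hB hback hx h0 hj' T hT hX (fun q b hb hind e G hG hrel i => by
    change W602.GT.val y (G i) = 0
    rw [hval]
    exact hy.sub.mem _ (hd q b hb hind e G hG hrel i))
  let W2 : Fin (N + 1) → MvPolynomial (Fin w) ℂ := fun i => map (algebraMap 𝕜 ℂ) (W i)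
  have hJ2 : jac i0 j W2 ≠ 0 := by
    have h1 : jac i0 j W2 = algebraMap 𝕜 ℂ (jac i0 j W) := jac_map _ _ _ _
    rw [h1, Ne, map_eq_zero]
    exact hJ
  have hT2 : ∀ G ∈ p, aeval W2 G = 0 := by
    intro G hG
    have h1 : p ≤ RingHom.ker (aeval W2 : MvPolynomial (Fin (N + 1)) ℂ →ₐ[ℂ] _) := by
      rw [hp, Ideal.span_le]
      rintro _ ⟨G, hG, rfl⟩
      change aeval W2 (map (algebraMap 𝕜 ℂ) G) = 0
      have h3 := MvPolynomial.comp_aeval_apply (f := W)
        (MvPolynomial.mapAlgHom (σ := Fin w) (Algebra.ofId 𝕜 ℂ)) G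
      rw [hW _ hG, map_zero] at h3
      have h4 : aeval W2 (map (algebraMap 𝕜 ℂ) G) = aeval W2 G := aeval_map_algebraMap ℂ W2 _
      rw [h4]
      exact h3.symm
    exact h1 hG
  have hiff := fun G hG => par_iff (y := y) h0 hj (W := W2)
    (fun G hG hv => hT2 G (hy.mem G hG hv)) (right_ne_zero_of_mul hJ2) (left_ne_zero_of_mul hJ2) G hG
  exact ⟨w, W, fun G hG => ⟨fun h1 => (hiff G hG).1 (hy.sub.mem G h1),
    fun h1 => hy.mem G hG ((hiff G hG).2 h1)⟩⟩

theorem eval_cast {κ : Type} (v : κ → 𝕜) (G : MvPolynomial κ 𝕜) :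
    eval (fun j => algebraMap 𝕜 ℂ (v j)) (map (algebraMap 𝕜 ℂ) G) =
      algebraMap 𝕜 ℂ (eval v G) := by
  rw [map_eval]
  congr 1

/-! ### descent of the recurrences -/

/-- the image of a polynomial under a linear functional -/
noncomputable def descP (φ : ℂ →ₗ[𝕜] 𝕜) (P : Polynomial ℂ) : Polynomial 𝕜 :=
  ∑ i ∈ Finset.range (P.natDegree + 1), Polynomial.C (φ (P.coeff i)) * Polynomial.X ^ i

theorem descP_coeff (φ : ℂ →ₗ[𝕜] 𝕜) (P : Polynomial ℂ) (i : ℕ) :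
    (descP φ P).coeff i = φ (P.coeff i) := by
  unfold descP
  rw [Polynomial.finsetSum_coeff]
  simp only [Polynomial.coeff_C_mul_X_pow]
  rw [Finset.sum_ite_eq]
  split_ifs with h
  · rfl
  · rw [Polynomial.coeff_eq_zero_of_natDegree_lt (by rw [Finset.mem_range] at h; omega), map_zero]

theorem descP_eval (φ : ℂ →ₗ[𝕜] 𝕜) (P : Polynomial ℂ) (t f : 𝕜) :
    φ (P.eval (algebraMap 𝕜 ℂ t) * algebraMap 𝕜 ℂ f) = (descP φ P).eval t * f := by
  unfold descP
  rw [Polynomial.eval_eq_sum_range, Finset.sum_mul, map_sum, Polynomial.eval_finsetSum,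
    Finset.sum_mul]
  refine Finset.sum_congr rfl fun i _ => ?_
  rw [Polynomial.eval_mul, Polynomial.eval_C, Polynomial.eval_pow, Polynomial.eval_X]
  have h1 : P.coeff i * algebraMap 𝕜 ℂ t ^ i * algebraMap 𝕜 ℂ f = (t ^ i * f) • P.coeff i := by
    rw [Algebra.smul_def, map_mul, map_pow]
    ring
  rw [h1, map_smul, smul_eq_mul]
  ring

theorem exists_functional {c : ℂ} (hc : c ≠ 0) : ∃ φ : ℂ →ₗ[𝕜] 𝕜, φ c ≠ 0 := by
  by_contra h
  push Not at h
  exact hc ((Module.forall_dual_apply_eq_zero_iff 𝕜 c).1 h)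

theorem recAlong_descend {t f : ℕ → 𝕜} (h : Pool.Agent.TH143.DE.RecAlong
    (fun m => algebraMap 𝕜 ℂ (t m)) (fun m => algebraMap 𝕜 ℂ (f m))) : RecAlong t f := by
  obtain ⟨r, a, ⟨k, hk, hk0⟩, h⟩ := h
  obtain ⟨i, hi⟩ : ∃ i, (a k).coeff i ≠ 0 := by
    by_contra hcon
    push Not at hcon
    exact hk0 (Polynomial.ext fun i => by rw [hcon, Polynomial.coeff_zero])
  obtain ⟨φ, hφ⟩ := exists_functional (𝕜 := 𝕜) hi
  refine ⟨r, fun k => descP φ (a k), ⟨k, hk, fun h0 => hφ ?_⟩, fun m => ?_⟩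
  · have h0' : descP φ (a k) = 0 := h0
    rw [← descP_coeff, h0', Polynomial.coeff_zero]
  · have h1 := congrArg φ (h m)
    rw [map_zero, map_sum] at h1
    rw [← h1]
    exact Finset.sum_congr rfl fun k _ => (descP_eval φ (a k) (t m) (f (m + k))).symm

theorem cRec_descend {f : ℕ → 𝕜} (h : Pool.Agent.TH8.UDE.CRec fun m => algebraMap 𝕜 ℂ (f m)) :
    CRec f := by
  obtain ⟨r, c, ⟨k, hk, hk0⟩, h⟩ := h
  obtain ⟨φ, hφ⟩ := exists_functional (𝕜 := 𝕜) hk0
  refine ⟨r, fun k => φ (c k), ⟨k, hk, hφ⟩, fun m => ?_⟩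
  have h1 := congrArg φ (h m)
  rw [map_zero, map_sum] at h1
  rw [← h1]
  refine Finset.sum_congr rfl fun k _ => ?_
  have h2 : c k * algebraMap 𝕜 ℂ (f (m + k)) = f (m + k) • c k := by
    rw [Algebra.smul_def, mul_comm]
  rw [h2, map_smul, smul_eq_mul, mul_comm]

/-! ### descent of the density -/

theorem graph_descend {N : ℕ} {p : Ideal (MvPolynomial (Fin (N + 1)) ℂ)} {t : ℕ → 𝕜}
    {x : ℕ → Fin (N + 1) → 𝕜}
    (h : Pool.Agent.TH8.UDE.SeqGraphDense p (fun m => algebraMap 𝕜 ℂ (t m))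
      (fun m j => algebraMap 𝕜 ℂ (x m j))) :
    SeqGraphDense (p.comap (map (algebraMap 𝕜 ℂ))) t x := by
  intro q e G hG hz k
  rw [Ideal.mem_comap]
  refine h q e (fun k => map (algebraMap 𝕜 ℂ) (G k)) (fun k => (hG k).map _) (fun m => ?_) k
  have h1 := congrArg (algebraMap 𝕜 ℂ) (hz m)
  rw [map_zero, map_sum] at h1
  rw [← h1]
  refine Finset.sum_congr rfl fun k _ => ?_
  rw [map_mul, map_pow, eval_cast]

theorem tail_descend {N : ℕ} {p : Ideal (MvPolynomial (Fin (N + 1)) ℂ)} {x : ℕ → Fin (N + 1) → 𝕜}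
    (h : Pool.Agent.TH143.DE.TailDense p (fun m j => algebraMap 𝕜 ℂ (x m j))) :
    TailDense (p.comap (map (algebraMap 𝕜 ℂ))) x := by
  rintro H ⟨e, hH⟩ hz
  rw [Ideal.mem_comap]
  apply h _ ⟨e, hH.map _⟩
  filter_upwards [hz] with m hm
  rw [eval_cast, hm, map_zero]

/-- points of varieties of dimension zero -/
theorem dom_zero {N : ℕ} {p : Ideal (MvPolynomial (Fin (N + 1)) ℂ)} {K : Type} [Field K]
    [Algebra ℂ K] {y : Fin (N + 1) → K} (hy : FunField p 1 K 0 y) {v : Fin (N + 1) → 𝕜}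
    (hv : v ≠ 0) (hX : ∀ H ∈ p, IsForm H → eval (fun j => algebraMap 𝕜 ℂ (v j)) H = 0) :
    Pool.Agent.TH8.UDE.DomOver 𝕜 p := by
  classical
  have halg : Algebra.IsAlgebraic ℂ K := by
    rw [← trdeg_eq_zero_iff]
    exact_mod_cast hy.sub.dim
  have h4 : Function.Bijective (algebraMap ℂ K) :=
    IsAlgClosed.algebraMap_bijective_of_isIntegral
  obtain ⟨i0, h0⟩ : ∃ i, y i ≠ 0 := Function.ne_iff.1 hy.sub.ne
  choose c hc using fun i => h4.2 (y i / y i0)
  have hyc : ∀ i, y i = algebraMap ℂ K (c i) * y i0 := by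
    intro i
    rw [hc]
    field_simp
  have hvc : ∀ i, algebraMap 𝕜 ℂ (v i) = c i * algebraMap 𝕜 ℂ (v i0) := by
    intro i
    have hform : (X i - C (c i) * X i0 : MvPolynomial (Fin (N + 1)) ℂ).IsHomogeneous 1 := by
      apply IsHomogeneous.sub (isHomogeneous_X _ _)
      have := (isHomogeneous_C (Fin (N + 1)) (c i)).mul (isHomogeneous_X ℂ i0)
      rwa [zero_add] at this
    have h5 : (X i - C (c i) * X i0 : MvPolynomial (Fin (N + 1)) ℂ) ∈ p := by
      apply hy.mem _ ⟨1, hform⟩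
      unfold W602.GT.val
      rw [map_sub, map_mul, aeval_X, aeval_X, aeval_C, hyc i, sub_self]
    have h6 := hX _ h5 ⟨1, hform⟩
    rw [map_sub, map_mul, eval_X, eval_X, eval_C] at h6
    exact sub_eq_zero.1 h6
  have hv0 : algebraMap 𝕜 ℂ (v i0) ≠ 0 := by
    intro h5
    apply hv
    funext i
    have h6 := hvc i
    rw [h5, mul_zero, map_eq_zero] at h6
    exact h6
  refine ⟨0, fun i => C (v i), fun G hG => ?_⟩
  have h5 : aeval (fun i => map (algebraMap 𝕜 ℂ) (C (v i) : MvPolynomial (Fin 0) 𝕜)) G =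
      C (eval (fun j => algebraMap 𝕜 ℂ (v j)) G) := by
    simp only [map_C]
    rw [aeval_def, eval, coe_eval₂Hom]
    have h7 := MvPolynomial.hom_eval₂ G (RingHom.id ℂ) (C : ℂ →+* MvPolynomial (Fin 0) ℂ)
      (fun j => algebraMap 𝕜 ℂ (v j))
    rw [h7]
    rfl
  rw [h5, C_eq_zero]
  refine ⟨fun h => hX G h hG, fun h => ?_⟩
  obtain ⟨e, he⟩ := hG
  apply hy.mem G ⟨e, he⟩
  have h6 : (fun j => algebraMap 𝕜 ℂ (v j)) = fun j => algebraMap 𝕜 ℂ (v i0) * c j := by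
    funext j
    rw [hvc j, mul_comm]
  rw [h6, eval_smul_form he] at h
  have h7 := (mul_eq_zero.1 h).resolve_left (pow_ne_zero _ hv0)
  have h8 : y = fun j => y i0 * algebraMap ℂ K (c j) := by
    funext j
    rw [hyc j, mul_comm]
  unfold W602.GT.val
  rw [h8, Pool.Agent.W603.PV.aeval_scale he (fun j => algebraMap ℂ K (c j)) (y i0)]
  have h9 := MvPolynomial.aeval_algebraMap_apply K c G
  rw [MvPolynomial.aeval_eq_eval] at h9
  have h10 : aeval (fun j => algebraMap ℂ K (c j)) G = 0 := by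
    refine h9.trans ?_
    rw [h7, map_zero]
  rw [h10, mul_zero]

end Pool.Agent.TH8.UDK.K
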