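import Pool.Agent.TH8.UDK.KFlow
import Pool.Agent.TH8.UDK.KDirs
import Pool.Agent.TH8.UNI.Spread

/-!
Linear difference systems over a ground field: families with many parameters.
-/

set_option autoImplicit false

namespace Pool.Agent.TH8.UDK.K

open MvPolynomial Pool.Agent.TH8.UNI
open Filter (atTop eventually_atTop)

variable {𝕜 : Type} [Field 𝕜] {n : ℕ} {B : Subalgebra 𝕜 (ℕ → 𝕜)}

/-- restriction to a line parallel to a coordinate axis -/
noncomputable def lineK (𝕜 : Type) [Field 𝕜] {w : ℕ} (i : Fin w) :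
    MvPolynomial (Fin w) 𝕜 →ₐ[𝕜] Polynomial 𝕜 :=
  aeval fun j => if j = i then Polynomial.X else 1

theorem lineK_eval {w : ℕ} (i : Fin w) (G : MvPolynomial (Fin w) 𝕜) :
    (lineK 𝕜 i G).eval 1 = eval (fun _ => 1) G := by
  induction G using MvPolynomial.induction_on with
  | C a => simp [lineK]
  | add p q hp hq => rw [map_add, Polynomial.eval_add, hp, hq, map_add]
  | mul_X p j hp =>
    rw [map_mul, Polynomial.eval_mul, hp, map_mul, eval_X]
    congr 1
    unfold lineK
    rw [aeval_X]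
    split_ifs <;> simp

theorem lineK_der {w : ℕ} (i : Fin w) (G : MvPolynomial (Fin w) 𝕜) :
    (Polynomial.derivative (lineK 𝕜 i G)).eval 1 = eval (fun _ => 1) (pderiv i G) := by
  induction G using MvPolynomial.induction_on with
  | C a => simp [lineK]
  | add p q hp hq => simp only [map_add, Polynomial.eval_add, hp, hq]
  | mul_X p j hp =>
    rw [map_mul, Polynomial.derivative_mul, Polynomial.eval_add, Polynomial.eval_mul,
      Polynomial.eval_mul, hp, lineK_eval, lineK_eval, Derivation.leibniz, map_add, smul_eq_mul,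
      smul_eq_mul, map_mul, map_mul, eval_X, pderiv_X]
    have h1 : (Polynomial.derivative (lineK 𝕜 i (X j))).eval 1 =
        eval (fun _ => 1) ((Pi.single i 1 : Fin w → MvPolynomial (Fin w) 𝕜) j) := by
      unfold lineK
      rw [aeval_X]
      by_cases h : j = i
      · subst h
        rw [if_pos rfl, Polynomial.derivative_X, Pi.single_eq_same, map_one, Polynomial.eval_one]
      · rw [if_neg h, Polynomial.derivative_one, Pi.single_eq_of_ne h, map_zero,
          Polynomial.eval_zero]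
    rw [h1]
    ring

/-- **Products.** -/
theorem exists_prod {w : ℕ} (E : Fin w → Matrix (Fin n) (Fin n) (Polynomial 𝕜))
    (Q : Fin w → Polynomial 𝕜) (η : Fin w → Matrix (Fin n) (Fin n) 𝕜)
    (hE1 : ∀ i k l, (E i k l).eval 1 = (1 : Matrix (Fin n) (Fin n) 𝕜) k l)
    (hE2 : ∀ i k l, (Polynomial.derivative (E i k l)).eval 1 =
        (Polynomial.derivative (Q i)).eval 1 * (1 : Matrix (Fin n) (Fin n) 𝕜) k l + η i k l) :
    ∃ PM : Matrix (Fin n) (Fin n) (MvPolynomial (Fin w) 𝕜),
      (∀ x : Fin w → 𝕜, (∀ i, (Q i).eval (x i) ≠ 0) → PM.map (eval x) =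
        (∏ i, (Q i).eval (x i)) •
          (List.ofFn fun i => ((Q i).eval (x i))⁻¹ • (E i).map (Polynomial.eval (x i))).prod) ∧
      PM.map (eval fun _ => 1) = 1 ∧
      ∀ i, (PM.map (pderiv i)).map (eval fun _ => 1) =
        (Polynomial.derivative (Q i)).eval 1 • (1 : Matrix (Fin n) (Fin n) 𝕜) + η i := by
  classical
  let Mp : Fin w → Matrix (Fin n) (Fin n) (MvPolynomial (Fin w) 𝕜) := fun i =>
    (E i).map (Polynomial.aeval (X i : MvPolynomial (Fin w) 𝕜))
  let PM := (List.ofFn Mp).prod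
  have hPM : ∀ x : Fin w → 𝕜, PM.map (eval x) =
      (List.ofFn fun i => (E i).map (Polynomial.eval (x i))).prod := by
    intro x
    have h1 : PM.map (eval x) = (List.ofFn fun i => (Mp i).map (eval x)).prod :=
      prod_map ((eval x).mapMatrix : Matrix (Fin n) (Fin n) (MvPolynomial (Fin w) 𝕜) →+* _) Mp
    rw [h1]
    congr 2
    funext i
    ext k l
    rw [Matrix.map_apply]
    simp only [Mp, Matrix.map_apply]
    rw [Polynomial.aeval_def, Polynomial.hom_eval₂, eval_X, Polynomial.eval₂_eq_eval_map]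
    congr 1
    conv_rhs => rw [← Polynomial.map_id (p := E i k l)]
    congr 1
    ext c
    simp
  refine ⟨PM, fun x hx => ?_, ?_, fun i => ?_⟩
  · rw [hPM, ← prod_smul]
    congr 2
    funext i
    rw [smul_smul, mul_inv_cancel₀ (hx i), one_smul]
  · rw [hPM]
    apply prod_ones
    intro i
    ext k l
    rw [Matrix.map_apply, hE1]
  · have h1 : (lineK 𝕜 i : MvPolynomial (Fin w) 𝕜 →+* Polynomial 𝕜).mapMatrix PM =
        E i := by
      rw [prod_map ((lineK 𝕜 i : MvPolynomial (Fin w) 𝕜 →+* Polynomial 𝕜).mapMatrix) Mp,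
        prod_single i]
      · ext1 k l
        change lineK 𝕜 i (Polynomial.aeval (X i : MvPolynomial (Fin w) 𝕜) (E i k l)) = _
        rw [← Polynomial.aeval_algHom_apply]
        unfold lineK
        rw [aeval_X, if_pos rfl, Polynomial.aeval_X_left_apply]
      · intro j hj
        ext1 k l
        change lineK 𝕜 i (Polynomial.aeval (X j : MvPolynomial (Fin w) 𝕜) (E j k l)) = _
        rw [← Polynomial.aeval_algHom_apply]
        unfold lineK
        rw [aeval_X, if_neg hj]
        have h2 : Polynomial.aeval (1 : Polynomial 𝕜) (E j k l) =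
            Polynomial.C ((E j k l).eval 1) := by
          have h3 : (1 : Polynomial 𝕜) = algebraMap 𝕜 (Polynomial 𝕜) 1 := (map_one _).symm
          rw [h3, Polynomial.aeval_algebraMap_apply, Polynomial.coe_aeval_eq_eval]
          rfl
        rw [h2, hE1, Matrix.one_apply, Matrix.one_apply]
        split_ifs
        · rw [Polynomial.C_1]
        · rw [Polynomial.C_0]
    ext1 k l
    rw [Matrix.map_apply, Matrix.map_apply, ← lineK_der]
    have h2 := congrFun (congrFun h1 k) l
    have h3 : lineK 𝕜 i (PM k l) = E i k l := h2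
    rw [h3, hE2, Matrix.add_apply, Matrix.smul_apply, smul_eq_mul]

/-- the linear form with the coefficients `L` -/
noncomputable def lf (L : Fin n → Fin n → 𝕜) : MvPolynomial (Fin n × Fin n) 𝕜 :=
  ∑ k, ∑ l, C (L k l) * X (k, l)

/-- its value -/
def lv (L : Fin n → Fin n → 𝕜) (V : Matrix (Fin n) (Fin n) 𝕜) : 𝕜 := ∑ k, ∑ l, L k l * V k l

theorem eval_lf (L : Fin n → Fin n → 𝕜) (V : Matrix (Fin n) (Fin n) 𝕜) :
    eval (mv V) (lf L) = lv L V := by
  simp only [lf, lv, map_sum, map_mul, eval_C, eval_X]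
  rfl

theorem eval_Dc_lf (L : Fin n → Fin n → 𝕜) (β V : Matrix (Fin n) (Fin n) 𝕜) :
    eval (mv V) (Dc β (lf L)) = lv L (V * β) := by
  have e3 : Dc β (lf L) = ∑ k, ∑ l, C (L k l) * Wc β (k, l) := by
    unfold Dc lf
    rw [map_sum]
    refine Finset.sum_congr rfl fun k _ => ?_
    rw [map_sum]
    refine Finset.sum_congr rfl fun l _ => ?_
    rw [Derivation.leibniz, derivation_C, mkDerivation_X, smul_zero, add_zero, smul_eq_mul]
  rw [e3]
  simp only [map_sum, map_mul, eval_C, eval_Wc]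
  rfl

theorem lv_add (L : Fin n → Fin n → 𝕜) (V V' : Matrix (Fin n) (Fin n) 𝕜) :
    lv L (V + V') = lv L V + lv L V' := by
  simp only [lv, Matrix.add_apply, mul_add, Finset.sum_add_distrib]

theorem lv_smul (L : Fin n → Fin n → 𝕜) (c : 𝕜) (V : Matrix (Fin n) (Fin n) 𝕜) :
    lv L (c • V) = c * lv L V := by
  simp only [lv, Matrix.smul_apply, smul_eq_mul, Finset.mul_sum]
  exact Finset.sum_congr rfl fun k _ => Finset.sum_congr rfl fun l _ => by ring

/-- the polynomial map -/
noncomputable def Wm {w : ℕ} (L : Fin n → Fin n → 𝕜) (V : Matrix (Fin n) (Fin n) 𝕜)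
    (PM : Matrix (Fin n) (Fin n) (MvPolynomial (Fin w) 𝕜)) : MvPolynomial (Fin w) 𝕜 :=
  ∑ k, ∑ l, C (L k l) * ∑ k', C (V k k') * PM k' l

theorem eval_Wm {w : ℕ} (L : Fin n → Fin n → 𝕜) (V : Matrix (Fin n) (Fin n) 𝕜)
    (PM : Matrix (Fin n) (Fin n) (MvPolynomial (Fin w) 𝕜)) (x : Fin w → 𝕜) :
    eval x (Wm L V PM) = lv L (V * PM.map (eval x)) := by
  simp only [Wm, lv, map_sum, map_mul, eval_C, Matrix.mul_apply, Matrix.map_apply]

theorem pderiv_Wm {w : ℕ} (L : Fin n → Fin n → 𝕜) (V : Matrix (Fin n) (Fin n) 𝕜)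
    (PM : Matrix (Fin n) (Fin n) (MvPolynomial (Fin w) 𝕜)) (i : Fin w) :
    pderiv i (Wm L V PM) = Wm L V (PM.map (pderiv i)) := by
  simp only [Wm, map_sum, pderiv_C_mul, Matrix.map_apply]

end Pool.Agent.TH8.UDK.K
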