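import Pool.Agent.TH8.UDK.KSeq

/-!
Linear difference equations: the Lie algebra of the difference Galois group.
-/

set_option autoImplicit false

namespace Pool.Agent.TH8.UDK.K

variable {𝕜 : Type} [Field 𝕜]

open MvPolynomial Filter

variable {n : ℕ}

/-- the entries of a matrix -/
def mv (V : Matrix (Fin n) (Fin n) 𝕜) : Fin n × Fin n → 𝕜 := fun p => V p.1 p.2

/-- multiplication by the matrix `A` on the left -/
noncomputable def TA (A : Matrix (Fin n) (Fin n) 𝕜) :
    Fin n × Fin n → MvPolynomial (Fin n × Fin n) 𝕜 :=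
  fun p => ∑ k, C (A p.1 k) * X (k, p.2)

/-- multiplication by the matrix `β` on the right -/
noncomputable def Wc (β : Matrix (Fin n) (Fin n) 𝕜) :
    Fin n × Fin n → MvPolynomial (Fin n × Fin n) 𝕜 :=
  fun p => ∑ k, X (p.1, k) * C (β k p.2)

/-- the vector field `V ↦ V β` -/
noncomputable def Dc (β : Matrix (Fin n) (Fin n) 𝕜) :
    Derivation 𝕜 (MvPolynomial (Fin n × Fin n) 𝕜) (MvPolynomial (Fin n × Fin n) 𝕜) :=
  mkDerivation 𝕜 (Wc β)

theorem eval_mkDerivation {κ : Type} [Fintype κ] (W : κ → MvPolynomial κ 𝕜) (P : MvPolynomial κ 𝕜)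
    (v : κ → 𝕜) : eval v (mkDerivation 𝕜 W P) = ∑ p, eval v (pderiv p P) * eval v (W p) := by
  classical
  induction P using MvPolynomial.induction_on with
  | C a => simp
  | add p q hp hq =>
    simp only [map_add, hp, hq, add_mul, Finset.sum_add_distrib]
  | mul_X p j hp =>
    simp only [Derivation.leibniz, mkDerivation_X, smul_eq_mul, map_add, map_mul, eval_X, hp,
      pderiv_X, add_mul, Finset.sum_add_distrib, Finset.mul_sum]
    congr 1
    · rw [Finset.sum_eq_single j]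
      · simp
      · intro b _ hb
        rw [Pi.single_eq_of_ne' hb, map_zero, mul_zero, zero_mul]
      · intro h
        exact absurd (Finset.mem_univ j) h
    · exact Finset.sum_congr rfl fun x _ => by ring

theorem eval_Wc (β V : Matrix (Fin n) (Fin n) 𝕜) (p : Fin n × Fin n) :
    eval (mv V) (Wc β p) = (V * β) p.1 p.2 := by
  simp only [Wc, map_sum, map_mul, eval_X, eval_C, Matrix.mul_apply]
  rfl

theorem eval_TA (A V : Matrix (Fin n) (Fin n) 𝕜) (p : Fin n × Fin n) :
    eval (mv V) (TA A p) = (A * V) p.1 p.2 := by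
  simp only [TA, map_sum, map_mul, eval_X, eval_C, Matrix.mul_apply]
  rfl

theorem eval_bind_TA (A V : Matrix (Fin n) (Fin n) 𝕜) (P : MvPolynomial (Fin n × Fin n) 𝕜) :
    eval (mv V) (bind₁ (TA A) P) = eval (mv (A * V)) P := by
  have h1 : eval (mv V) (bind₁ (TA A) P) = eval (fun p => eval (mv V) (TA A p)) P := by
    rw [eval, eval₂Hom_bind₁]
    rfl
  rw [h1]
  congr 1
  congr 1
  funext p
  exact eval_TA A V p

/-- left and right multiplication commute -/
theorem comm_bind (A β : Matrix (Fin n) (Fin n) 𝕜) (P : MvPolynomial (Fin n × Fin n) 𝕜) :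
    Dc β (bind₁ (TA A) P) = bind₁ (TA A) (Dc β P) := by
  induction P using MvPolynomial.induction_on with
  | C a =>
    rw [bind₁_C_right]
    unfold Dc
    rw [derivation_C, map_zero]
  | add p q hp hq => simp only [map_add, hp, hq]
  | mul_X p j hp =>
    have hX : Dc β (bind₁ (TA A) (X j)) = bind₁ (TA A) (Dc β (X j)) := by
      unfold Dc
      rw [bind₁_X_right, mkDerivation_X]
      simp only [TA, Wc, map_sum, map_mul, Derivation.leibniz, mkDerivation_X, derivation_C,
        bind₁_X_right, bind₁_C_right, smul_eq_mul, mul_zero, add_zero]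
      simp only [Finset.mul_sum, Finset.sum_mul]
      rw [Finset.sum_comm]
      exact Finset.sum_congr rfl fun k _ => Finset.sum_congr rfl fun l _ => by ring
    rw [map_mul, Derivation.leibniz, Derivation.leibniz, hp, hX, map_add, smul_eq_mul, smul_eq_mul,
      smul_eq_mul, smul_eq_mul, map_mul, map_mul]

variable {B : Subalgebra 𝕜 (ℕ → 𝕜)}

/-- the shift of the coefficients -/
def sB (h : ∀ b ∈ B, (fun m => b (m + 1)) ∈ B) : B →+* B where
  toFun b := ⟨fun m => (b : ℕ → 𝕜) (m + 1), h b b.2⟩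
  map_one' := rfl
  map_mul' _ _ := rfl
  map_zero' := rfl
  map_add' _ _ := rfl

/-- the matrix of coefficients at an index -/
def Am (A : Fin n → Fin n → B) (m : ℕ) : Matrix (Fin n) (Fin n) 𝕜 :=
  Matrix.of fun i j => (A i j : ℕ → 𝕜) m

/-- the shift of polynomials -/
noncomputable def SS (h : ∀ b ∈ B, (fun m => b (m + 1)) ∈ B) (A : Fin n → Fin n → B) :
    MvPolynomial (Fin n × Fin n) B →+* MvPolynomial (Fin n × Fin n) B :=
  eval₂Hom (C.comp (sB h)) (fun p => ∑ k, C (A p.1 k) * X (k, p.2))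

theorem at'_SS (h : ∀ b ∈ B, (fun m => b (m + 1)) ∈ B) (A : Fin n → Fin n → B) (m : ℕ)
    (P : MvPolynomial (Fin n × Fin n) B) : at' m (SS h A P) = bind₁ (TA (Am A m)) (at' (m + 1) P) := by
  induction P using MvPolynomial.induction_on with
  | C b =>
    unfold SS
    rw [coe_eval₂Hom, eval₂_C, RingHom.comp_apply, at'_C, at'_C, bind₁_C_right]
    rfl
  | add p q hp hq => simp only [map_add, hp, hq]
  | mul_X p j hp =>
    rw [map_mul, map_mul, hp, map_mul, map_mul, at'_X, bind₁_X_right]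
    congr 1
    unfold SS
    rw [coe_eval₂Hom, eval₂_X, map_sum]
    unfold TA
    refine Finset.sum_congr rfl fun k _ => ?_
    rw [map_mul, at'_C, at'_X]
    rfl

/-- the vector field on polynomials with varying coefficients -/
noncomputable def WB (B : Subalgebra 𝕜 (ℕ → 𝕜)) (β : Matrix (Fin n) (Fin n) 𝕜) :
    Derivation B (MvPolynomial (Fin n × Fin n) B) (MvPolynomial (Fin n × Fin n) B) :=
  mkDerivation B fun p => ∑ k, X (p.1, k) * C (algebraMap 𝕜 B (β k p.2))

theorem at'_WB (β : Matrix (Fin n) (Fin n) 𝕜) (m : ℕ) (P : MvPolynomial (Fin n × Fin n) B) :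
    at' m (WB B β P) = Dc β (at' m P) := by
  induction P using MvPolynomial.induction_on with
  | C b =>
    unfold WB Dc
    rw [derivation_C, map_zero, at'_C, derivation_C]
  | add p q hp hq => simp only [map_add, hp, hq]
  | mul_X p j hp =>
    have hX : at' m (WB B β (X j)) =
        Dc β (at' m (X j : MvPolynomial (Fin n × Fin n) B)) := by
      unfold WB Dc
      rw [mkDerivation_X, at'_X, mkDerivation_X, map_sum]
      unfold Wc
      refine Finset.sum_congr rfl fun k _ => ?_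
      rw [map_mul, at'_C, at'_X]
      rfl
    rw [Derivation.leibniz, map_mul, Derivation.leibniz, map_add, smul_eq_mul, smul_eq_mul,
      smul_eq_mul, smul_eq_mul, map_mul, map_mul, hp, hX]

/-- the ideal of relations -/
noncomputable def JU (B : Subalgebra 𝕜 (ℕ → 𝕜)) (U : ℕ → Matrix (Fin n) (Fin n) 𝕜) :
    Ideal (MvPolynomial (Fin n × Fin n) B) where
  carrier := {P | ∀ᶠ m in atTop, eval (mv (U m)) (at' m P) = 0}
  add_mem' := by
    intro f g hf hg
    filter_upwards [hf, hg] with m h1 h2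
    rw [map_add, map_add, h1, h2, add_zero]
  zero_mem' := Eventually.of_forall fun _ => by rw [map_zero, map_zero]
  smul_mem' := by
    intro c f hf
    filter_upwards [hf] with m h1
    rw [smul_eq_mul, map_mul, map_mul, h1, mul_zero]

theorem mem_JU {U : ℕ → Matrix (Fin n) (Fin n) 𝕜} {P : MvPolynomial (Fin n × Fin n) B} :
    P ∈ JU B U ↔ ∀ᶠ m in atTop, eval (mv (U m)) (at' m P) = 0 := Iff.rfl

theorem SS_mem (h : ∀ b ∈ B, (fun m => b (m + 1)) ∈ B) {A : Fin n → Fin n → B}
    {U : ℕ → Matrix (Fin n) (Fin n) 𝕜} (hU : ∀ᶠ m in atTop, U (m + 1) = Am A m * U m)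
    {P : MvPolynomial (Fin n × Fin n) B} (hP : P ∈ JU B U) : SS h A P ∈ JU B U := by
  rw [mem_JU] at hP ⊢
  have h1 : ∀ᶠ m in atTop, eval (mv (U (m + 1))) (at' (m + 1) P) = 0 :=
    (tendsto_add_atTop_nat 1).eventually hP
  filter_upwards [h1, hU] with m hm hUm
  rw [at'_SS, eval_bind_TA, ← hUm, hm]

/-- the tangent functionals -/
noncomputable def Tm {k : ℕ} (U : ℕ → Matrix (Fin n) (Fin n) 𝕜)
    (P : Fin k → MvPolynomial (Fin n × Fin n) B) (m : ℕ) :
    Matrix (Fin n) (Fin n) 𝕜 →ₗ[𝕜] (Fin k → 𝕜) where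
  toFun β i := ∑ p, eval (mv (U m)) (pderiv p (at' m (P i))) * (U m * β) p.1 p.2
  map_add' β β' := by
    funext i
    rw [Pi.add_apply, ← Finset.sum_add_distrib]
    refine Finset.sum_congr rfl fun p _ => ?_
    rw [Matrix.mul_add, Matrix.add_apply, mul_add]
  map_smul' c β := by
    funext i
    rw [RingHom.id_apply, Pi.smul_apply, smul_eq_mul, Finset.mul_sum]
    refine Finset.sum_congr rfl fun p _ => ?_
    rw [Matrix.mul_smul, Matrix.smul_apply, smul_eq_mul]
    ring

theorem Tm_apply {k : ℕ} (U : ℕ → Matrix (Fin n) (Fin n) 𝕜)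
    (P : Fin k → MvPolynomial (Fin n × Fin n) B) (m : ℕ) (β : Matrix (Fin n) (Fin n) 𝕜)
    (i : Fin k) : Tm U P m β i = eval (mv (U m)) (Dc β (at' m (P i))) := by
  unfold Dc
  rw [eval_mkDerivation]
  refine Finset.sum_congr rfl fun p _ => ?_
  rw [eval_Wc]

/-- **The Lie algebra.** -/
theorem lie (hB : CoefField B) (A : Fin n → Fin n → B) (U : ℕ → Matrix (Fin n) (Fin n) 𝕜)
    (hU : ∀ᶠ m in atTop, U (m + 1) = Am A m * U m) :
    ∃ (L : Submodule 𝕜 (Matrix (Fin n) (Fin n) 𝕜)) (k : ℕ)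
      (P : Fin k → MvPolynomial (Fin n × Fin n) B), (∀ i, P i ∈ JU B U) ∧
      (∀ P' ∈ JU B U, ∃ Q : Fin k → MvPolynomial (Fin n × Fin n) B,
        ∀ᶠ m in atTop, at' m P' = ∑ i, at' m (Q i) * at' m (P i)) ∧
      (∀ᶠ m in atTop, LinearMap.ker (Tm U P m) = L) ∧
      ∀ β ∈ L, ∀ P' ∈ JU B U, WB B β P' ∈ JU B U := by
  classical
  obtain ⟨k, P, hP, hgen⟩ := noeth hB (JU B U)
  choose Q hQ using fun i => hgen _ (SS_mem hB.shift hU (hP i))
  have hall : ∀ᶠ m in atTop, (∀ i, eval (mv (U m)) (at' m (P i)) = 0) ∧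
      (∀ i, at' m (SS hB.shift A (P i)) = ∑ j, at' m (Q i j) * at' m (P j)) ∧
      U (m + 1) = Am A m * U m :=
    (eventually_all.2 fun i => hP i).and ((eventually_all.2 fun i => hQ i).and hU)
  obtain ⟨m0, hm0⟩ := eventually_atTop.1 hall
  have hmono : ∀ m, m0 ≤ m → LinearMap.ker (Tm U P m) ≤ LinearMap.ker (Tm U P (m + 1)) := by
    intro m hm β hβ
    rw [LinearMap.mem_ker] at hβ ⊢
    obtain ⟨h1, h2, h3⟩ := hm0 m hm
    have hβ' : ∀ i, eval (mv (U m)) (Dc β (at' m (P i))) = 0 := by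
      intro i
      rw [← Tm_apply, hβ]
      rfl
    funext i
    rw [Tm_apply, h3, ← eval_bind_TA, ← comm_bind, ← at'_SS hB.shift, h2 i, map_sum, map_sum,
      Pi.zero_apply]
    refine Finset.sum_eq_zero fun j _ => ?_
    rw [Derivation.leibniz, smul_eq_mul, smul_eq_mul, map_add, map_mul, map_mul, h1 j, hβ' j,
      mul_zero, zero_mul, add_zero]
  let f : ℕ →o Submodule 𝕜 (Matrix (Fin n) (Fin n) 𝕜) :=
    ⟨fun j => LinearMap.ker (Tm U P (m0 + j)), monotone_nat_of_le_succ fun j => by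
      have := hmono (m0 + j) (Nat.le_add_right _ _)
      rwa [Nat.add_assoc] at this⟩
  obtain ⟨j0, hj0⟩ := monotone_stabilizes_iff_noetherian.2
    (inferInstance : IsNoetherian 𝕜 (Matrix (Fin n) (Fin n) 𝕜)) f
  have hL : ∀ᶠ m in atTop, LinearMap.ker (Tm U P m) = f j0 := by
    refine eventually_atTop.2 ⟨m0 + j0, fun m hm => ?_⟩
    have h1 := hj0 (m - m0) (by omega)
    rw [h1]
    change _ = LinearMap.ker (Tm U P (m0 + (m - m0)))
    congr 2
    omega
  refine ⟨f j0, k, P, hP, hgen, hL, fun β hβ P' hP' => ?_⟩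
  obtain ⟨R, hR⟩ := hgen P' hP'
  rw [mem_JU]
  filter_upwards [hR, hL, hall] with m h1 h2 h3
  have h4 : ∀ i, eval (mv (U m)) (Dc β (at' m (P i))) = 0 := by
    intro i
    rw [← h2, LinearMap.mem_ker] at hβ
    rw [← Tm_apply, hβ]
    rfl
  rw [at'_WB, h1, map_sum, map_sum]
  refine Finset.sum_eq_zero fun j _ => ?_
  rw [Derivation.leibniz, smul_eq_mul, smul_eq_mul, map_add, map_mul, map_mul, h3.1 j, h4 j,
    mul_zero, zero_mul, add_zero]

end Pool.Agent.TH8.UDK.K
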