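import Pool.Agent.TH8.UDK.RatFlow
import Pool.Agent.TH8.UDK.KLie

/-!
Rational families of symmetries of a linear difference system over a ground field.
-/

set_option autoImplicit false

namespace Pool.Agent.TH8.UDK.K

open MvPolynomial
open Filter (atTop eventually_atTop)

variable {𝕜 : Type} [Field 𝕜] {n : ℕ} {B : Subalgebra 𝕜 (ℕ → 𝕜)}

/-- the right translation by `g` preserves the closed set of the relations with the index `m` -/
def Stab {q : ℕ} (P : Fin q → MvPolynomial (Fin n × Fin n) B) (m : ℕ)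
    (g : Matrix (Fin n) (Fin n) 𝕜) : Prop :=
  ∀ V : Matrix (Fin n) (Fin n) 𝕜, (∀ i, eval (mv V) (at' m (P i)) = 0) →
    ∀ i, eval (mv (V * g)) (at' m (P i)) = 0

theorem Stab.one {q : ℕ} {P : Fin q → MvPolynomial (Fin n × Fin n) B} {m : ℕ} : Stab P m 1 := by
  intro V hV i
  rw [Matrix.mul_one]
  exact hV i

theorem Stab.mul {q : ℕ} {P : Fin q → MvPolynomial (Fin n × Fin n) B} {m : ℕ}
    {g h : Matrix (Fin n) (Fin n) 𝕜} (hg : Stab P m g) (hh : Stab P m h) : Stab P m (g * h) := by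
  intro V hV i
  rw [← Matrix.mul_assoc]
  exact hh _ (hg V hV) i

theorem map_Dc [Algebra 𝕜 ℂ] (β : Matrix (Fin n) (Fin n) 𝕜) (R : MvPolynomial (Fin n × Fin n) 𝕜) :
    map (algebraMap 𝕜 ℂ) (Dc β R) =
      Pool.Agent.TH143.DE.Dc (β.map (algebraMap 𝕜 ℂ)) (map (algebraMap 𝕜 ℂ) R) := by
  induction R using MvPolynomial.induction_on with
  | C a =>
    unfold Dc Pool.Agent.TH143.DE.Dc
    rw [map_C, derivation_C, derivation_C, map_zero]
  | add p q hp hq => simp only [map_add, hp, hq]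
  | mul_X p j hp =>
    have hX : map (algebraMap 𝕜 ℂ) (Dc β (X j)) =
        Pool.Agent.TH143.DE.Dc (β.map (algebraMap 𝕜 ℂ)) (X j) := by
      unfold Dc Pool.Agent.TH143.DE.Dc
      rw [mkDerivation_X, mkDerivation_X]
      unfold Wc Pool.Agent.TH143.DE.Wc
      rw [map_sum]
      refine Finset.sum_congr rfl fun k _ => ?_
      rw [map_mul, map_X, map_C, Matrix.map_apply]
    rw [Derivation.leibniz, map_add, map_mul, Derivation.leibniz, smul_eq_mul, smul_eq_mul,
      smul_eq_mul, smul_eq_mul, map_mul, map_mul, hp, hX, map_X]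

theorem eval_map_mv [Algebra 𝕜 ℂ] (V : Matrix (Fin n) (Fin n) 𝕜)
    (R : MvPolynomial (Fin n × Fin n) 𝕜) :
    eval (Pool.Agent.TH143.DE.mv (V.map (algebraMap 𝕜 ℂ))) (map (algebraMap 𝕜 ℂ) R) =
      algebraMap 𝕜 ℂ (eval (mv V) R) := by
  rw [map_eval]
  congr 1

/-- **Rational families of symmetries.** -/
theorem flowK [CharZero 𝕜] [Algebra 𝕜 ℂ] {U : ℕ → Matrix (Fin n) (Fin n) 𝕜} {q : ℕ}
    (P : Fin q → MvPolynomial (Fin n × Fin n) B) (hP : ∀ i, P i ∈ JU B U)
    (hgen : ∀ P' ∈ JU B U, ∃ Q : Fin q → MvPolynomial (Fin n × Fin n) B,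
        ∀ᶠ m in atTop, at' m P' = ∑ i, at' m (Q i) * at' m (P i))
    {β : Matrix (Fin n) (Fin n) 𝕜} (hβ : ∀ P' ∈ JU B U, WB B β P' ∈ JU B U) :
    ∃ (E : Matrix (Fin n) (Fin n) (Polynomial 𝕜)) (Q : Polynomial 𝕜),
      Q.eval 1 = 1 ∧ (∀ k l, (E k l).eval 1 = (1 : Matrix (Fin n) (Fin n) 𝕜) k l) ∧
      (∀ k l, (Polynomial.derivative (E k l)).eval 1 =
        (Polynomial.derivative Q).eval 1 * (1 : Matrix (Fin n) (Fin n) 𝕜) k l + β k l) ∧
      ∀ᶠ m in atTop, ∀ x : 𝕜, Q.eval x ≠ 0 →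
        Stab P m ((Q.eval x)⁻¹ • E.map (Polynomial.eval x)) := by
  classical
  obtain ⟨ex, E, Q, he, hQ0, hE0, hE1, hrel⟩ := rat_flow β
  let σ : Polynomial 𝕜 := Polynomial.X - Polynomial.C 1
  have hev : ∀ (f : Polynomial 𝕜) (x : 𝕜), (f.comp σ).eval x = f.eval (x - 1) := by
    intro f x
    rw [Polynomial.eval_comp]
    simp [σ]
  have hde : ∀ f : Polynomial 𝕜, (Polynomial.derivative (f.comp σ)).eval 1 =
      (Polynomial.derivative f).eval 0 := by
    intro f
    rw [Polynomial.derivative_comp]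
    simp [σ]
  refine ⟨E.map fun f => f.comp σ, Q.comp σ, ?_, ?_, ?_, ?_⟩
  · rw [hev, sub_self, hQ0]
  · intro k l
    rw [Matrix.map_apply, hev, sub_self, ← hE0, Matrix.map_apply]
  · intro k l
    rw [Matrix.map_apply, hde, hde]
    have h1 := congrFun (congrFun hE1 k) l
    rw [Matrix.map_apply, Matrix.add_apply, Matrix.smul_apply, smul_eq_mul] at h1
    exact h1
  · choose c hc using fun i => hgen _ (hβ _ (hP i))
    filter_upwards [Filter.eventually_all.2 hc] with m hm x hx V hV i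
    set g : Fin q → MvPolynomial (Fin n × Fin n) ℂ := fun i => map (algebraMap 𝕜 ℂ) (at' m (P i))
      with hg
    have hgD : ∀ i, Pool.Agent.TH143.DE.Dc (β.map (algebraMap 𝕜 ℂ)) (g i) ∈
        Ideal.span (Set.range g) := by
      intro i
      have h1 := congrArg (map (algebraMap 𝕜 ℂ)) (hm i)
      rw [at'_WB, map_Dc, map_sum] at h1
      rw [hg]
      simp only
      rw [h1]
      refine Ideal.sum_mem _ fun j _ => ?_
      rw [map_mul]
      exact Ideal.mul_mem_left _ _ (Ideal.subset_span ⟨j, rfl⟩)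
    have hD : ∀ p ∈ Ideal.span (Set.range g),
        Pool.Agent.TH143.DE.Dc (β.map (algebraMap 𝕜 ℂ)) p ∈ Ideal.span (Set.range g) := by
      intro p hp
      obtain ⟨c, rfl⟩ := Ideal.mem_span_range_iff_exists_fun.1 hp
      rw [map_sum]
      refine Ideal.sum_mem _ fun j _ => ?_
      rw [Derivation.leibniz, smul_eq_mul, smul_eq_mul]
      exact Ideal.add_mem _ (Ideal.mul_mem_left _ _ (hgD j))
        (Ideal.mul_mem_right _ _ (Ideal.subset_span ⟨j, rfl⟩))
    have h0 : ∀ p ∈ Ideal.span (Set.range g),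
        eval (Pool.Agent.TH143.DE.mv (V.map (algebraMap 𝕜 ℂ))) p = 0 := by
      intro p hp
      obtain ⟨c, rfl⟩ := Ideal.mem_span_range_iff_exists_fun.1 hp
      rw [map_sum]
      refine Finset.sum_eq_zero fun j _ => ?_
      rw [map_mul, hg]
      simp only
      rw [eval_map_mv, hV j, map_zero, mul_zero]
    have h1 := Pool.Agent.TH143.DE.flow_ideal he (V.map (algebraMap 𝕜 ℂ)) _ hD h0 (g i)
      (Ideal.subset_span ⟨i, rfl⟩)
    rw [hev] at hx
    have hQx : ∀ f : Polynomial 𝕜, f.eval₂ (algebraMap 𝕜 ℂ) (algebraMap 𝕜 ℂ (x - 1)) =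
        algebraMap 𝕜 ℂ (f.eval (x - 1)) := fun f => Polynomial.eval₂_at_apply _ _
    have h2 := hrel (V.map (algebraMap 𝕜 ℂ)) (g i) h1 (algebraMap 𝕜 ℂ (x - 1)) (by
      rw [hQx, Ne, map_eq_zero]
      exact hx)
    have h3 : V.map (algebraMap 𝕜 ℂ) * ((Q.eval₂ (algebraMap 𝕜 ℂ) (algebraMap 𝕜 ℂ (x - 1)))⁻¹ •
        E.map (Polynomial.eval₂ (algebraMap 𝕜 ℂ) (algebraMap 𝕜 ℂ (x - 1)))) =
        (V * (((Q.comp σ).eval x)⁻¹ • (E.map fun f => f.comp σ).map (Polynomial.eval x))).map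
          (algebraMap 𝕜 ℂ) := by
      ext a b
      rw [Matrix.map_apply, Matrix.mul_apply, Matrix.mul_apply, map_sum]
      refine Finset.sum_congr rfl fun c _ => ?_
      rw [map_mul, Matrix.smul_apply, Matrix.smul_apply, smul_eq_mul, smul_eq_mul, map_mul,
        map_inv₀, Matrix.map_apply, Matrix.map_apply, Matrix.map_apply, Matrix.map_apply, hev,
        hev, hQx, hQx]
    rw [h3] at h2
    have h4 : algebraMap 𝕜 ℂ (eval (mv (V * (((Q.comp σ).eval x)⁻¹ •
        (E.map fun f => f.comp σ).map (Polynomial.eval x)))) (at' m (P i))) = 0 := by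
      rw [← eval_map_mv]
      exact h2
    rwa [map_eq_zero] at h4

end Pool.Agent.TH8.UDK.K
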