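import Pool.Agent.TH8.UDK.KFam

/-!
Sequences of points over a ground field given by linear recurrences: the ambient variety is
dominated by an affine space over the ground field.
-/

set_option autoImplicit false

namespace Pool.Agent.TH8.UDK.K

open MvPolynomial Pool.Agent.TH8.UNI Pool.Agent.W602.GT
open Filter (atTop eventually_atTop)

variable {𝕜 : Type} [Field 𝕜] {n : ℕ} {B : Subalgebra 𝕜 (ℕ → 𝕜)}

theorem eval_smul_form {N : ℕ} {G : MvPolynomial (Fin (N + 1)) 𝕜} {d : ℕ}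
    (hG : G.IsHomogeneous d) (c : 𝕜) (v : Fin (N + 1) → 𝕜) :
    eval (fun j => c * v j) G = c ^ d * eval v G := by
  have h1 := Pool.Agent.W603.PV.aeval_scale hG v c
  rw [← MvPolynomial.aeval_eq_eval, ← MvPolynomial.aeval_eq_eval]
  exact h1

/-- relations along the family -/
theorem rel_family [Infinite 𝕜] {N w : ℕ} {U : ℕ → Matrix (Fin n) (Fin n) 𝕜} {q : ℕ}
    (P : Fin q → MvPolynomial (Fin n × Fin n) B) (hP : ∀ i, P i ∈ JU B U)
    (hgen : ∀ P' ∈ JU B U, ∃ Q : Fin q → MvPolynomial (Fin n × Fin n) B,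
        ∀ᶠ m in atTop, at' m P' = ∑ i, at' m (Q i) * at' m (P i))
    (E : Fin w → Matrix (Fin n) (Fin n) (Polynomial 𝕜)) (Q : Fin w → Polynomial 𝕜)
    (hQ : ∀ i, (Q i).eval 1 = 1)
    (hst : ∀ i, ∀ᶠ m in atTop, ∀ x : 𝕜, (Q i).eval x ≠ 0 →
      Stab P m (((Q i).eval x)⁻¹ • (E i).map (Polynomial.eval x)))
    (PM : Matrix (Fin n) (Fin n) (MvPolynomial (Fin w) 𝕜))
    (hPM : ∀ x : Fin w → 𝕜, (∀ i, (Q i).eval (x i) ≠ 0) → PM.map (eval x) =
        (∏ i, (Q i).eval (x i)) •
          (List.ofFn fun i => ((Q i).eval (x i))⁻¹ • (E i).map (Polynomial.eval (x i))).prod)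
    (L : Fin (N + 1) → Fin n → Fin n → 𝕜) {R : MvPolynomial (Fin (N + 1)) 𝕜} (hR : IsForm R)
    (hR0 : ∀ᶠ m in atTop, eval (fun j => lv (L j) (U m)) R = 0) :
    ∀ᶠ m in atTop, aeval (fun j => Wm (L j) (U m) PM) R = 0 := by
  classical
  obtain ⟨d, hRd⟩ := hR
  let RB : MvPolynomial (Fin n × Fin n) B := map (algebraMap 𝕜 B) (bind₁ (fun j => lf (L j)) R)
  have hRB : ∀ (V : Matrix (Fin n) (Fin n) 𝕜) (m : ℕ), eval (mv V) (at' m RB) =
      eval (fun j => lv (L j) V) R := by
    intro V m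
    have e2 : at' m RB = bind₁ (fun j => lf (L j)) R := by
      simp only [RB, at']
      rw [MvPolynomial.mapAlgHom_apply, MvPolynomial.map_map]
      have e3 : ((evm B m : B →+* 𝕜).comp (algebraMap 𝕜 B)) = RingHom.id 𝕜 := by
        ext c
        rfl
      rw [e3, MvPolynomial.map_id]
    rw [e2, eval, eval₂Hom_bind₁]
    have e4 : (fun i => eval₂Hom (RingHom.id 𝕜) (mv V) (lf (L i))) = fun j => lv (L j) V := by
      funext j
      exact eval_lf (L j) V
    rw [e4]
    rfl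
  have hRJ : RB ∈ JU B U := by
    rw [mem_JU]
    filter_upwards [hR0] with m hm
    rw [hRB]
    exact hm
  obtain ⟨c, hc⟩ := hgen RB hRJ
  filter_upwards [hc, Filter.eventually_all.2 hP, Filter.eventually_all.2 hst] with m h1 h2 h3
  set QM : MvPolynomial (Fin w) 𝕜 := ∏ i, Polynomial.aeval (X i : MvPolynomial (Fin w) 𝕜) (Q i)
    with hQM
  have hQe : ∀ x : Fin w → 𝕜, eval x QM = ∏ i, (Q i).eval (x i) := by
    intro x
    rw [hQM, map_prod]
    refine Finset.prod_congr rfl fun i _ => ?_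
    rw [Polynomial.aeval_def, Polynomial.hom_eval₂, eval_X, Polynomial.eval₂_eq_eval_map]
    congr 1
    conv_rhs => rw [← Polynomial.map_id (p := Q i)]
    congr 1
    ext c
    simp
  have hQ0 : QM ≠ 0 := by
    intro h
    have h4 := hQe fun _ => 1
    rw [h, map_zero] at h4
    simp only [hQ, Finset.prod_const_one] at h4
    exact zero_ne_one h4
  have hmul : QM * aeval (fun j => Wm (L j) (U m) PM) R = 0 := by
    apply MvPolynomial.funext
    intro x
    rw [map_mul, map_zero, hQe]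
    by_cases hx : ∀ i, (Q i).eval (x i) ≠ 0
    · set Eb := (List.ofFn fun i => ((Q i).eval (x i))⁻¹ • (E i).map (Polynomial.eval (x i))).prod
        with hEb
      have h4 : Stab P m Eb := prod_ind (Stab P m) Stab.one (fun _ _ h1 h2 => h1.mul h2)
        fun i => h3 i _ (hx i)
      have h5 := h4 (U m) h2
      have h6 : eval (fun j => lv (L j) (U m * Eb)) R = 0 := by
        rw [← hRB _ m, h1, map_sum]
        refine Finset.sum_eq_zero fun i _ => ?_
        rw [map_mul, h5 i, mul_zero]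
      have h7 : eval x (aeval (fun j => Wm (L j) (U m) PM) R) =
          eval (fun j => eval x (Wm (L j) (U m) PM)) R := by
        have h8 := MvPolynomial.comp_aeval_apply (f := fun j => Wm (L j) (U m) PM)
          (aeval x : MvPolynomial (Fin w) 𝕜 →ₐ[𝕜] 𝕜) R
        rw [← MvPolynomial.aeval_eq_eval, ← MvPolynomial.aeval_eq_eval]
        exact h8
      have h8 : (fun j => eval x (Wm (L j) (U m) PM)) = fun j =>
          (∏ i, (Q i).eval (x i)) * lv (L j) (U m * Eb) := by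
        funext j
        rw [eval_Wm, hPM x hx, Matrix.mul_smul, lv_smul]
      rw [h7, h8, eval_smul_form hRd, h6, mul_zero, mul_zero]
    · push Not at hx
      obtain ⟨i, hi⟩ := hx
      rw [Finset.prod_eq_zero (Finset.mem_univ i) hi, zero_mul]
  exact (mul_eq_zero.1 hmul).resolve_left hQ0

/-- the Jacobian of the family -/
theorem jac_family {N w : ℕ} {U : ℕ → Matrix (Fin n) (Fin n) 𝕜}
    (Q : Fin w → Polynomial 𝕜) (η : Fin w → Matrix (Fin n) (Fin n) 𝕜)
    (PM : Matrix (Fin n) (Fin n) (MvPolynomial (Fin w) 𝕜))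
    (hPM1 : PM.map (eval fun _ => 1) = 1)
    (hPMd : ∀ i, (PM.map (pderiv i)).map (eval fun _ => 1) =
        (Polynomial.derivative (Q i)).eval 1 • (1 : Matrix (Fin n) (Fin n) 𝕜) + η i)
    (L : Fin (N + 1) → Fin n → Fin n → 𝕜) (i0 : Fin (N + 1)) (j : Fin w → Fin (N + 1)) (m : ℕ) :
    jac i0 j (fun j => Wm (L j) (U m) PM) =
      (Matrix.of fun i l => dirS U (fun _ => lf (L i0)) (fun l => lf (L (j l))) (η i) l m).det *
        lv (L i0) (U m) := by
  have hv : ∀ j, eval (fun _ => 1) (Wm (L j) (U m) PM) = lv (L j) (U m) := by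
    intro j
    rw [eval_Wm, hPM1, Matrix.mul_one]
  have hdv : ∀ i j, eval (fun _ => 1) (pderiv i (Wm (L j) (U m) PM)) =
      (Polynomial.derivative (Q i)).eval 1 * lv (L j) (U m) + lv (L j) (U m * η i) := by
    intro i j
    rw [pderiv_Wm, eval_Wm, hPMd, Matrix.mul_add, Matrix.mul_smul, Matrix.mul_one, lv_add, lv_smul]
  unfold jac
  rw [hv]
  congr 2
  ext i l
  rw [Matrix.of_apply, Matrix.of_apply, map_sub, map_mul, map_mul, hv, hv, hdv, hdv]
  unfold dirS
  rw [eval_lf, eval_lf, eval_Dc_lf, eval_Dc_lf]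
  ring

/-- **The parametrization theorem over a ground field.** -/
theorem uni_seq_k [CharZero 𝕜] [Algebra 𝕜 ℂ] (hB : CoefField B) (hback : Back B) {N : ℕ}
    {x : ℕ → Fin (N + 1) → 𝕜} (hx : ∀ j, LinRec B (fun m => x m j)) {K : Type} [Field K]
    [Algebra 𝕜 K] {w : ℕ} {y : Fin (N + 1) → K} {i0 : Fin (N + 1)} (h0 : y i0 ≠ 0)
    {j : Fin w → Fin (N + 1)} (hj : AlgebraicIndependent 𝕜 (fun l => y (j l) / y i0))
    (T : Set (MvPolynomial (Fin (N + 1)) 𝕜)) (hT : ∀ G ∈ T, IsForm G)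
    (hrel : ∀ G ∈ T, ∀ᶠ m in atTop, eval (x m) G = 0)
    (hd : DenseSeq B (fun G => W602.GT.val y G = 0) x) :
    ∃ W : Fin (N + 1) → MvPolynomial (Fin w) 𝕜, (∀ G ∈ T, aeval W G = 0) ∧ jac i0 j W ≠ 0 := by
  classical
  obtain ⟨s, n, A, U, L, hU, hdet, hL⟩ := exists_sys_lin hB (fun j m => x m j) hx
  let x' : ℕ → Fin (N + 1) → 𝕜 := fun m j => lv (L j) (U m)
  have hx' : ∀ᶠ m in atTop, x' m = x (m + s) := by
    filter_upwards [hL] with m hm
    funext j
    exact (hm j).symm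
  have hd' : DenseSeq B (fun G => W602.GT.val y G = 0) x' := hd.shift hback s hx'
  obtain ⟨Lie, q, P, hP, hgen, hLie, hLW⟩ := lie hB A U hU
  obtain ⟨I, hIp, hI, hprime⟩ := exists_prime hB.toCoefRing hd' h0 hj
  have hdom : IsDomain ((ℕ → 𝕜) ⧸ I) := Ideal.Quotient.isDomain I
  let F := FractionRing ((ℕ → 𝕜) ⧸ I)
  obtain ⟨hx0, hind⟩ := indep_seq hB hI hprime (F := F)
  set a := algebraMap ((ℕ → 𝕜) ⧸ I) F with ha
  have hchar : CharZero (cf hB hI F) :=
    charZero_of_injective_algebraMap (algebraMap 𝕜 (cf hB hI F)).injective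
  obtain ⟨D, hD⟩ := dual_der hind
  obtain ⟨η, hη, hEd⟩ := all_dirs U hdet Lie P hP hLie hI (K := F)
    (fun i => D i) (fun i x y => (D i).map_add x y)
    (fun i x y => by
      rw [(D i).leibniz, smul_eq_mul, smul_eq_mul])
    (fun i b hb => (D i).map_algebraMap (⟨a (mk' I b), b, hb, rfl⟩ : cf hB hI F))
    (fun _ => lf (L i0)) (fun l => lf (L (j l)))
    (fun _ => a (cl I fun m => x' m i0) ^ 2) (fun _ => pow_ne_zero 2 hx0) (by
      intro i l
      simp only [eval_lf]
      have h1 := der_quot (D i) (a := a (cl I fun m => x' m (j l))) hx0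
      rw [hD] at h1
      refine h1.trans ?_
      rw [mul_ite, mul_one, mul_zero])
  choose E Q hQ1 hE1 hE2 hst using fun i => flowK P hP hgen (hLW (η i) (hη i))
  obtain ⟨PM, hPMx, hPM1, hPMd⟩ := exists_prod E Q η hE1 hE2
  -- relations
  have hR : ∀ G ∈ T, ∀ᶠ m in atTop, aeval (fun j => Wm (L j) (U m) PM) G = 0 := by
    intro G hG
    refine rel_family P hP hgen E Q hQ1 hst PM hPMx L (hT G hG) ?_
    filter_upwards [eventually_shift (hrel G hG) s, hx'] with m h2 h3
    have h4 : (fun j => lv (L j) (U m)) = x' m := rfl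
    rw [h4, h3]
    exact h2
  have hfg : (Ideal.span T).FG := IsNoetherian.noetherian _
  obtain ⟨T0, hT0, hT0s⟩ := (Submodule.fg_span_iff_fg_span_finset_subset T).1 hfg
  have hR0 : ∀ᶠ m in atTop, ∀ G ∈ T0, aeval (fun j => Wm (L j) (U m) PM) G = 0 :=
    (Filter.eventually_all_finset T0).2 fun G hG => hR G (hT0 hG)
  -- the Jacobian
  have hJ : (fun m => jac i0 j (fun j => Wm (L j) (U m) PM)) ∉ I := by
    have h1 : (fun m => jac i0 j (fun j => Wm (L j) (U m) PM)) =
        (Matrix.of fun i l => dirS U (fun _ => lf (L i0)) (fun l => lf (L (j l))) (η i) l).det *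
          fun m => x' m i0 := by
      funext m
      rw [jac_family Q η PM hPM1 hPMd]
      rw [Pi.mul_apply]
      congr 1
      have h2 := RingHom.map_det (Pi.evalRingHom (fun _ : ℕ => 𝕜) m)
        (Matrix.of fun i l => dirS U (fun _ => lf (L i0)) (fun l => lf (L (j l))) (η i) l)
      exact h2.symm
    rw [← cl_zero, h1, map_mul, RingHom.map_det]
    apply mul_ne_zero
    · exact hEd
    · intro h2
      apply hx0
      rw [h2, map_zero]
  have hfr : ∃ᶠ m in atTop, jac i0 j (fun j => Wm (L j) (U m) PM) ≠ 0 := by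
    intro h1
    apply hJ
    apply hI
    rw [mem_EZ]
    filter_upwards [h1] with m hm
    exact not_not.1 hm
  obtain ⟨m, hm1, hm2⟩ := (hfr.and_eventually hR0).exists
  refine ⟨fun j => Wm (L j) (U m) PM, fun G hG => ?_, hm1⟩
  have h1 : Ideal.span T ≤ RingHom.ker (aeval (fun j => Wm (L j) (U m) PM) :
      MvPolynomial (Fin (N + 1)) 𝕜 →ₐ[𝕜] MvPolynomial (Fin w) 𝕜) := by
    have h2 : Ideal.span T = Ideal.span (T0 : Set (MvPolynomial (Fin (N + 1)) 𝕜)) := hT0s
    rw [h2, Ideal.span_le]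
    intro G hG
    exact hm2 G hG
  exact h1 (Ideal.subset_span hG)

end Pool.Agent.TH8.UDK.K
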