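import Mathlib

/-!
Rings of sequences closed under the shift, and finite generation of the ideals of relations.
-/

set_option autoImplicit false

namespace Pool.Agent.TH8.UDK.K

variable {𝕜 : Type} [Field 𝕜]

open MvPolynomial Filter

/-- the ideal of the sequences which are zero from some index on -/
def EZ : Ideal (ℕ → 𝕜) where
  carrier := {f | ∀ᶠ m in atTop, f m = 0}
  add_mem' := by
    intro f g hf hg
    filter_upwards [hf, hg] with m h1 h2
    rw [Pi.add_apply, h1, h2, add_zero]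
  zero_mem' := Eventually.of_forall fun _ => rfl
  smul_mem' := by
    intro c f hf
    filter_upwards [hf] with m h1
    rw [smul_eq_mul, Pi.mul_apply, h1, mul_zero]

theorem mem_EZ {f : ℕ → 𝕜} : f ∈ EZ ↔ ∀ᶠ m in atTop, f m = 0 := Iff.rfl

/-- A ring of sequences, closed under the shift, such that each of its elements is zero from some
index on or nonzero from some index on. -/
structure CoefRing (B : Subalgebra 𝕜 (ℕ → 𝕜)) : Prop where
  shift : ∀ b ∈ B, (fun m => b (m + 1)) ∈ B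
  dich : ∀ b ∈ B, (∀ᶠ m in atTop, b m = 0) ∨ ∀ᶠ m in atTop, b m ≠ 0

/-- A ring of coefficients which is closed under inversion. -/
structure CoefField (B : Subalgebra 𝕜 (ℕ → 𝕜)) : Prop extends CoefRing B where
  inv : ∀ b ∈ B, (fun m => (b m)⁻¹) ∈ B

variable {B : Subalgebra 𝕜 (ℕ → 𝕜)}

/-- value at an index -/
def evm (B : Subalgebra 𝕜 (ℕ → 𝕜)) (m : ℕ) : B →ₐ[𝕜] 𝕜 :=
  (Pi.evalAlgHom 𝕜 (fun _ : ℕ => 𝕜) m).comp B.val

theorem evm_apply (m : ℕ) (b : B) : evm B m b = (b : ℕ → 𝕜) m := rfl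

/-- the polynomial at an index -/
noncomputable def at' {κ : Type} (m : ℕ) : MvPolynomial κ B →ₐ[𝕜] MvPolynomial κ 𝕜 :=
  MvPolynomial.mapAlgHom (evm B m)

theorem at'_C {κ : Type} (m : ℕ) (b : B) : at' m (C b : MvPolynomial κ B) = C ((b : ℕ → 𝕜) m) := by
  unfold at'
  rw [MvPolynomial.mapAlgHom_apply]
  exact MvPolynomial.map_C _ _

theorem at'_X {κ : Type} (m : ℕ) (i : κ) : at' m (X i : MvPolynomial κ B) = X i := by
  unfold at'
  rw [MvPolynomial.mapAlgHom_apply]
  exact MvPolynomial.map_X _ _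

theorem coeff_at' {κ : Type} (m : ℕ) (P : MvPolynomial κ B) (s : κ →₀ ℕ) :
    (at' m P).coeff s = ((P.coeff s : B) : ℕ → 𝕜) m := by
  unfold at'
  rw [MvPolynomial.mapAlgHom_apply, MvPolynomial.coeff_map]
  rfl

/-- the eventually zero coefficients -/
def ez (B : Subalgebra 𝕜 (ℕ → 𝕜)) : Ideal B := EZ.comap B.val

theorem mem_ez {b : B} : b ∈ ez B ↔ ∀ᶠ m in atTop, (b : ℕ → 𝕜) m = 0 := Iff.rfl

theorem ez_maximal (hB : CoefField B) : (ez B).IsMaximal := by
  rw [Ideal.isMaximal_iff]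
  constructor
  · intro h
    obtain ⟨m, hm⟩ := (mem_ez.1 h).exists
    exact one_ne_zero hm
  · intro J x hJ hx hxJ
    rcases hB.dich x x.2 with h | h
    · exact absurd (mem_ez.2 h) hx
    · have h1 : (1 : B) - x * ⟨_, hB.inv x x.2⟩ ∈ J := by
        apply hJ
        rw [mem_ez]
        filter_upwards [h] with m hm
        change (1 : 𝕜) - (x : ℕ → 𝕜) m * ((x : ℕ → 𝕜) m)⁻¹ = 0
        rw [mul_inv_cancel₀ hm, sub_self]
      have h2 := J.add_mem h1 (J.mul_mem_right ⟨_, hB.inv x x.2⟩ hxJ)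
      rwa [sub_add_cancel] at h2

theorem eventually_at'_zero {κ : Type} (P : MvPolynomial κ B)
    (h : (MvPolynomial.map (Ideal.Quotient.mk (ez B)) : MvPolynomial κ B →+*
      MvPolynomial κ (B ⧸ ez B)) P = 0) : ∀ᶠ m in atTop, at' m P = 0 := by
  have h1 : ∀ s : κ →₀ ℕ, ∀ᶠ m in atTop, ((P.coeff s : B) : ℕ → 𝕜) m = 0 := by
    intro s
    have h2 := congrArg (fun p => MvPolynomial.coeff s p) h
    simp only [MvPolynomial.coeff_map, MvPolynomial.coeff_zero] at h2
    exact mem_ez.1 (Ideal.Quotient.eq_zero_iff_mem.1 h2)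
  have h3 : ∀ᶠ m in atTop, ∀ s ∈ P.support, ((P.coeff s : B) : ℕ → 𝕜) m = 0 := by
    rw [Finset.eventually_all]
    intro s _
    exact h1 s
  filter_upwards [h3] with m hm
  ext s
  rw [coeff_at', MvPolynomial.coeff_zero]
  by_cases hs : s ∈ P.support
  · exact hm s hs
  · rw [MvPolynomial.notMem_support_iff.1 hs]
    rfl

/-- **Finite generation.** -/
theorem noeth (hB : CoefField B) {κ : Type} [Finite κ] (J : Ideal (MvPolynomial κ B)) :
    ∃ (k : ℕ) (P : Fin k → MvPolynomial κ B), (∀ i, P i ∈ J) ∧ ∀ P' ∈ J,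
      ∃ Q : Fin k → MvPolynomial κ B, ∀ᶠ m in atTop, at' m P' = ∑ i, at' m (Q i) * at' m (P i) := by
  classical
  have hmax := ez_maximal hB
  let _ : Field (B ⧸ ez B) := Ideal.Quotient.field (ez B)
  let π : MvPolynomial κ B →+* MvPolynomial κ (B ⧸ ez B) :=
    MvPolynomial.map (Ideal.Quotient.mk (ez B))
  have hπ : Function.Surjective π := MvPolynomial.map_surjective _ Ideal.Quotient.mk_surjective
  have hfg : (J.map π).FG := IsNoetherian.noetherian _
  obtain ⟨k, g, hg⟩ := Submodule.fg_iff_exists_fin_generating_family.1 hfg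
  have hlift : ∀ i, ∃ P ∈ J, π P = g i := by
    intro i
    have h1 : g i ∈ J.map π := by
      rw [← hg]
      exact Submodule.subset_span ⟨i, rfl⟩
    exact (Ideal.mem_map_iff_of_surjective π hπ).1 h1
  choose P hPJ hP using hlift
  refine ⟨k, P, hPJ, fun P' hP' => ?_⟩
  have h1 : π P' ∈ Ideal.span (Set.range g) := by
    have h2 := Ideal.mem_map_of_mem π hP'
    rw [← hg] at h2
    exact h2
  obtain ⟨c, hc⟩ := Ideal.mem_span_range_iff_exists_fun.1 h1
  choose Q hQ using fun i => hπ (c i)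
  refine ⟨Q, ?_⟩
  have h2 : π (P' - ∑ i, Q i * P i) = 0 := by
    rw [map_sub, map_sum, ← hc, sub_eq_zero]
    refine Finset.sum_congr rfl fun i _ => ?_
    rw [map_mul, hQ, hP]
  filter_upwards [eventually_at'_zero _ h2] with m hm
  rw [map_sub, map_sum, sub_eq_zero] at hm
  rw [hm]
  exact Finset.sum_congr rfl fun i _ => map_mul _ _ _

end Pool.Agent.TH8.UDK.K
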