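import Pool.Agent.TH8.UDK.KDom
import Pool.Agent.TH143.HE.RSpec

/-!
Rational curves over the ground field through the points of a sequence given by linear recurrences.
-/

set_option autoImplicit false

namespace Pool.Agent.TH8.UDK.K

open MvPolynomial Pool.Agent.TH8.UNI Pool.Agent.W602.GT
open Filter (atTop eventually_atTop)

variable {𝕜 : Type} [Field 𝕜] {B : Subalgebra 𝕜 (ℕ → 𝕜)}

/-- nonconstant maps from the line to the projective space -/
def NCur {N : ℕ} (p : Fin (N + 1) → Polynomial 𝕜) : Prop :=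
  ∃ j k u v, (p j).eval u * (p k).eval v ≠ (p k).eval u * (p j).eval v

theorem wronsk {N : ℕ} [Infinite 𝕜] {p : Fin (N + 1) → Polynomial 𝕜} {i j : Fin (N + 1)} {v : 𝕜}
    (h : (Polynomial.derivative (p j)).eval v * (p i).eval v -
      (p j).eval v * (Polynomial.derivative (p i)).eval v ≠ 0) : NCur p := by
  by_contra hcon
  unfold NCur at hcon
  push Not at hcon
  apply h
  have h2 : p j * Polynomial.C ((p i).eval v) = p i * Polynomial.C ((p j).eval v) := by
    apply Polynomial.funext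
    intro u
    rw [Polynomial.eval_mul, Polynomial.eval_C, Polynomial.eval_mul, Polynomial.eval_C]
    exact hcon j i u v
  have h3 := congrArg (fun q => (Polynomial.derivative q).eval v) h2
  simp only [Polynomial.derivative_mul, Polynomial.derivative_C, mul_zero, add_zero,
    Polynomial.eval_mul, Polynomial.eval_C] at h3
  rw [h3]
  ring

/-- **Curves over the ground field.** -/
theorem exists_curve_k [CharZero 𝕜] [Algebra 𝕜 ℂ] (hB : CoefField B) {N : ℕ}
    {x : ℕ → Fin (N + 1) → 𝕜} (hx : ∀ j, LinRec B (fun m => x m j))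
    (T : Set (MvPolynomial (Fin (N + 1)) 𝕜)) (hT : ∀ G ∈ T, IsForm G)
    (hrel : ∀ G ∈ T, ∀ᶠ m in atTop, eval (x m) G = 0) :
    ∃ s, ∀ (I : Ideal (ℕ → 𝕜)) (hI : EZ ≤ I) (_ : I.IsPrime) (F : Type) [Field F]
      [Algebra ((ℕ → 𝕜) ⧸ I) F] [IsFractionRing ((ℕ → 𝕜) ⧸ I) F] [Algebra 𝕜 F]
      [IsScalarTower 𝕜 ((ℕ → 𝕜) ⧸ I) F] (i0 j : Fin (N + 1)),
      algebraMap ((ℕ → 𝕜) ⧸ I) F (cl I fun m => x (m + s) i0) ≠ 0 →
      Transcendental (cf hB hI F) (algebraMap ((ℕ → 𝕜) ⧸ I) F (cl I fun m => x (m + s) j) /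
        algebraMap ((ℕ → 𝕜) ⧸ I) F (cl I fun m => x (m + s) i0)) →
      ∃ᶠ m in atTop, ∃ p : Fin (N + 1) → Polynomial 𝕜,
        (∀ G ∈ T, (aeval p G : Polynomial 𝕜) = 0) ∧ (fun j => (p j).eval 1) = x (m + s) ∧
        NCur p := by
  classical
  obtain ⟨s, n, A, U, L, hU, hdet, hL⟩ := exists_sys_lin hB (fun j m => x m j) hx
  refine ⟨s, ?_⟩
  intro I hI hIp F _ _ _ _ _ i0 j hx0 htr
  have hdom : IsDomain ((ℕ → 𝕜) ⧸ I) := Ideal.Quotient.isDomain I
  set a := algebraMap ((ℕ → 𝕜) ⧸ I) F with ha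
  have hxL : ∀ᶠ m in atTop, ∀ j, lv (L j) (U m) = x (m + s) j := by
    filter_upwards [hL] with m hm j
    exact (hm j).symm
  have hcl : ∀ j, a (cl I fun m => lv (L j) (U m)) = a (cl I fun m => x (m + s) j) := by
    intro j
    congr 1
    rw [← sub_eq_zero, ← map_sub]
    refine cl_zero.2 (hI ?_)
    rw [mem_EZ]
    filter_upwards [hxL] with m hm
    rw [Pi.sub_apply, hm j, sub_self]
  obtain ⟨Lie, q, P, hP, hgen, hLie, hLW⟩ := lie hB A U hU
  have hchar : CharZero (cf hB hI F) :=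
    charZero_of_injective_algebraMap (algebraMap 𝕜 (cf hB hI F)).injective
  obtain ⟨D, hD⟩ := Pool.Agent.TH143.der_of_transcendental htr
  obtain ⟨β, hβ, hβI⟩ := exists_beta_sum (B := B) hI (K := F) D (fun x y => D.map_add x y)
    (fun x y => by rw [D.leibniz, smul_eq_mul, smul_eq_mul])
    (fun b hb => D.map_algebraMap (⟨a (mk' I b), b, hb, rfl⟩ : cf hB hI F))
    U hdet Lie P hP hLie (fun _ : Fin 1 => fun _ => 1) (fun _ => lf (L i0)) (fun _ => lf (L j)) (by
      rw [Fin.sum_univ_one]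
      simp only [eval_lf]
      rw [← ha, hcl, hcl]
      have h1 := der_quot D (a := a (cl I fun m => x (m + s) j)) hx0
      rw [hD] at h1
      have h2 : a (cl I fun _ : ℕ => (1 : 𝕜)) = 1 := by
        have h3 : (fun _ : ℕ => (1 : 𝕜)) = 1 := rfl
        rw [h3, map_one, map_one]
      rw [h2, one_mul, h1, mul_one]
      exact pow_ne_zero 2 hx0)
  obtain ⟨E, Q, hQ1, hE1, hE2, hst⟩ := flowK P hP hgen (hLW β hβ)
  obtain ⟨PM, hPMx, hPM1, hPMd⟩ := exists_prod (w := 1) (fun _ => E) (fun _ => Q) (fun _ => β)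
    (fun _ => hE1) (fun _ => hE2)
  have hR : ∀ G ∈ T, ∀ᶠ m in atTop, aeval (fun j => Wm (L j) (U m) PM) G = 0 := by
    intro G hG
    refine rel_family P hP hgen (fun _ : Fin 1 => E) (fun _ => Q) (fun _ => hQ1) (fun _ => hst) PM
      hPMx L (hT G hG) ?_
    filter_upwards [eventually_shift (hrel G hG) s, hxL] with m h2 h3
    have h4 : (fun j => lv (L j) (U m)) = x (m + s) := _root_.funext h3
    rw [h4]
    exact h2
  have hfg : (Ideal.span T).FG := IsNoetherian.noetherian _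
  obtain ⟨T0, hT0, hT0s⟩ := (Submodule.fg_span_iff_fg_span_finset_subset T).1 hfg
  have hR0 : ∀ᶠ m in atTop, ∀ G ∈ T0, aeval (fun j => Wm (L j) (U m) PM) G = 0 :=
    (Filter.eventually_all_finset T0).2 fun G hG => hR G (hT0 hG)
  have hfr : ∃ᶠ m in atTop,
      dirS U (fun _ : Fin 1 => lf (L i0)) (fun _ => lf (L j)) β 0 m ≠ 0 := by
    intro h1
    apply hβI
    apply hI
    rw [mem_EZ]
    filter_upwards [h1] with m hm
    rw [Fin.sum_univ_one, one_mul]
    exact not_not.1 hm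
  refine (hfr.and_eventually (hR0.and hxL)).mono ?_
  rintro m ⟨hm1, hm2, hm3⟩
  let Λ : MvPolynomial (Fin 1) 𝕜 →ₐ[𝕜] Polynomial 𝕜 := lineK 𝕜 0
  refine ⟨fun j => Λ (Wm (L j) (U m) PM), fun G hG => ?_, ?_, ?_⟩
  · have h1 : Ideal.span T ≤ RingHom.ker (aeval (fun j => Wm (L j) (U m) PM) :
        MvPolynomial (Fin (N + 1)) 𝕜 →ₐ[𝕜] MvPolynomial (Fin 1) 𝕜) := by
      have h2 : Ideal.span T = Ideal.span (T0 : Set (MvPolynomial (Fin (N + 1)) 𝕜)) := hT0s
      rw [h2, Ideal.span_le]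
      intro G hG
      exact hm2 G hG
    have h3 : aeval (fun j => Wm (L j) (U m) PM) G = 0 := h1 (Ideal.subset_span hG)
    have h4 := MvPolynomial.comp_aeval_apply (f := fun j => Wm (L j) (U m) PM) Λ G
    rw [h3, map_zero] at h4
    exact h4.symm
  · funext i
    rw [lineK_eval, eval_Wm, hPM1, Matrix.mul_one]
    exact hm3 i
  · apply wronsk (i := i0) (j := j) (v := 1)
    rw [lineK_eval, lineK_eval, lineK_der, lineK_der]
    have hv : ∀ j, eval (fun _ => 1) (Wm (L j) (U m) PM) = lv (L j) (U m) := by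
      intro j
      rw [eval_Wm, hPM1, Matrix.mul_one]
    have hdv : ∀ j, eval (fun _ => 1) (pderiv 0 (Wm (L j) (U m) PM)) =
        (Polynomial.derivative Q).eval 1 * lv (L j) (U m) + lv (L j) (U m * β) := by
      intro j
      rw [pderiv_Wm, eval_Wm, hPMd, Matrix.mul_add, Matrix.mul_smul, Matrix.mul_one, lv_add,
        lv_smul]
    rw [hv, hv, hdv, hdv]
    intro h2
    apply hm1
    unfold dirS
    rw [eval_lf, eval_lf, eval_Dc_lf, eval_Dc_lf]
    linear_combination h2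

end Pool.Agent.TH8.UDK.K
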