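import Pool.Agent.TH8.UDK.M1
import Pool.Agent.TH143.HE.PCur

/-!
Sequences over the ground field: algebraicity modulo prime ideals of complex sequences.
-/

set_option autoImplicit false

namespace Pool.Agent.TH8.UDK.K

open Pool.Agent.W602.GT
open Filter (atTop eventually_atTop)

variable {𝕜 : Type} [Field 𝕜] [CharZero 𝕜] [Algebra 𝕜 ℂ]

/-- sequences over the ground field as complex sequences -/
noncomputable def cst (𝕜 : Type) [Field 𝕜] [Algebra 𝕜 ℂ] : (ℕ → 𝕜) →+* (ℕ → ℂ) :=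
  RingHom.compLeft (algebraMap 𝕜 ℂ) ℕ

omit [CharZero 𝕜] in
theorem cst_apply (f : ℕ → 𝕜) (m : ℕ) : cst 𝕜 f m = algebraMap 𝕜 ℂ (f m) := rfl

omit [CharZero 𝕜] in
theorem ez_le {J : Ideal (ℕ → ℂ)} (hJ : Pool.Agent.TH143.DE.EZ ≤ J) :
    EZ ≤ J.comap (cst 𝕜) := by
  intro f hf
  rw [Ideal.mem_comap]
  apply hJ
  have hf' : ∀ᶠ m in atTop, f m = 0 := hf
  change ∀ᶠ m in atTop, cst 𝕜 f m = 0
  filter_upwards [hf'] with m hm
  rw [cst_apply, hm, map_zero]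

/-- the rational functions of the index -/
abbrev RBk (𝕜 : Type) [Field 𝕜] [CharZero 𝕜] : Subalgebra 𝕜 (ℕ → 𝕜) :=
  ratB (fun m => (m : 𝕜)) Nat.cast_injective

omit [Algebra 𝕜 ℂ] in
theorem RBk_field : CoefField (RBk 𝕜) := by
  refine ratB_field Nat.cast_injective (Polynomial.X + 1) fun m => ?_
  rw [Polynomial.eval_add, Polynomial.eval_X, Polynomial.eval_one]
  push_cast
  rfl

theorem cst_mem {b : ℕ → 𝕜} (hb : b ∈ RBk 𝕜) : cst 𝕜 b ∈ Pool.Agent.TH143.HE.RB := by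
  obtain ⟨P, R, hR, hf⟩ := hb
  refine ⟨P.map (algebraMap 𝕜 ℂ), R.map (algebraMap 𝕜 ℂ), ?_, ?_⟩
  · rwa [Ne, Polynomial.map_eq_zero]
  · filter_upwards [hf] with m hm
    have h1 : ∀ S : Polynomial 𝕜, (S.map (algebraMap 𝕜 ℂ)).eval (m : ℂ) =
        algebraMap 𝕜 ℂ (S.eval (m : 𝕜)) := by
      intro S
      have h2 := Polynomial.eval_map_apply (f := algebraMap 𝕜 ℂ) (p := S) (m : 𝕜)
      rw [map_natCast] at h2
      exact h2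
    rw [cst_apply, hm, h1, h1, map_div₀]

/-- **Algebraicity** over the rational functions passes to prime ideals of complex sequences. -/
theorem alg_transfer {J : Ideal (ℕ → ℂ)} (hJ : Pool.Agent.TH143.DE.EZ ≤ J) (hJp : J.IsPrime)
    (hIp : (J.comap (cst 𝕜)).IsPrime) {x y : ℕ → 𝕜} (hx : x ∉ J.comap (cst 𝕜))
    (h : IsAlgebraic (cf (RBk_field (𝕜 := 𝕜)) (ez_le (𝕜 := 𝕜) hJ) (FractionRing ((ℕ → 𝕜) ⧸ J.comap (cst 𝕜))))
      (algebraMap ((ℕ → 𝕜) ⧸ J.comap (cst 𝕜)) (FractionRing ((ℕ → 𝕜) ⧸ J.comap (cst 𝕜)))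
        (cl _ y) / algebraMap ((ℕ → 𝕜) ⧸ J.comap (cst 𝕜))
          (FractionRing ((ℕ → 𝕜) ⧸ J.comap (cst 𝕜))) (cl _ x))) :
    IsAlgebraic (Pool.Agent.TH143.DE.cf Pool.Agent.TH143.HE.RB_field hJ
        (FractionRing ((ℕ → ℂ) ⧸ J)))
      (algebraMap ((ℕ → ℂ) ⧸ J) (FractionRing ((ℕ → ℂ) ⧸ J))
        (Pool.Agent.TH143.DE.mk' J (cst 𝕜 y)) /
      algebraMap ((ℕ → ℂ) ⧸ J) (FractionRing ((ℕ → ℂ) ⧸ J))
        (Pool.Agent.TH143.DE.mk' J (cst 𝕜 x))) := by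
  classical
  set I := J.comap (cst 𝕜) with hI
  have hdomI : IsDomain ((ℕ → 𝕜) ⧸ I) := Ideal.Quotient.isDomain I
  have hdomJ : IsDomain ((ℕ → ℂ) ⧸ J) := Ideal.Quotient.isDomain J
  set FI := FractionRing ((ℕ → 𝕜) ⧸ I) with hFI
  set FJ := FractionRing ((ℕ → ℂ) ⧸ J) with hFJ
  let qq : (ℕ → 𝕜) ⧸ I →+* (ℕ → ℂ) ⧸ J := Ideal.quotientMap J (cst 𝕜) le_rfl
  have hqq : Function.Injective qq := Ideal.quotientMap_injective
  have hinj : Function.Injective ((algebraMap ((ℕ → ℂ) ⧸ J) FJ).comp qq) := by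
    rw [RingHom.coe_comp]
    exact (IsFractionRing.injective _ FJ).comp hqq
  let θ : FI →+* FJ := IsFractionRing.lift hinj
  have hθ : ∀ f : ℕ → 𝕜, θ (algebraMap ((ℕ → 𝕜) ⧸ I) FI (cl I f)) =
      algebraMap ((ℕ → ℂ) ⧸ J) FJ (Pool.Agent.TH143.DE.mk' J (cst 𝕜 f)) := by
    intro f
    exact IsFractionRing.lift_algebraMap hinj (cl I f)
  have hmem : ∀ z : cf (RBk_field (𝕜 := 𝕜)) (ez_le (𝕜 := 𝕜) hJ) FI, θ (z : FI) ∈
      Pool.Agent.TH143.DE.cf Pool.Agent.TH143.HE.RB_field hJ FJ := by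
    rintro ⟨_, b, hb, rfl⟩
    exact ⟨cst 𝕜 b, cst_mem hb, hθ b⟩
  let τ : cf (RBk_field (𝕜 := 𝕜)) (ez_le (𝕜 := 𝕜) hJ) FI →+*
      Pool.Agent.TH143.DE.cf Pool.Agent.TH143.HE.RB_field hJ FJ :=
    (θ.comp (algebraMap (cf (RBk_field (𝕜 := 𝕜)) (ez_le (𝕜 := 𝕜) hJ) FI) FI)).codRestrict
      (Pool.Agent.TH143.DE.cf Pool.Agent.TH143.HE.RB_field hJ FJ).toSubfield.toSubring
      (fun z => hmem z)
  have hτ : ∀ z, ((τ z : Pool.Agent.TH143.DE.cf Pool.Agent.TH143.HE.RB_field hJ FJ) : FJ) =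
      θ (z : FI) := fun z => rfl
  obtain ⟨P, hP0, hP⟩ := h
  rw [← hθ, ← hθ, ← map_div₀]
  refine ⟨P.map τ, (Polynomial.map_ne_zero_iff τ.injective).2 hP0, ?_⟩
  rw [Polynomial.aeval_def, Polynomial.eval₂_map]
  have h1 := Polynomial.hom_eval₂ P (algebraMap (cf (RBk_field (𝕜 := 𝕜)) (ez_le (𝕜 := 𝕜) hJ) FI) FI) θ
    (algebraMap ((ℕ → 𝕜) ⧸ I) FI (cl I y) / algebraMap ((ℕ → 𝕜) ⧸ I) FI (cl I x))
  rw [← Polynomial.aeval_def, hP, map_zero] at h1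
  exact h1.symm

end Pool.Agent.TH8.UDK.K
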