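import Mathlib

/-!
Nilpotent matrices, idempotents of semisimple matrices, and Galois descent for polynomials.
-/

set_option autoImplicit false

namespace Pool.Agent.TH8.UDK

open Polynomial

/-- the exponential of a nilpotent matrix, as a polynomial -/
noncomputable def expN {k : Type} [Field k] {n : ℕ} (ν : Matrix (Fin n) (Fin n) k) (m : ℕ) :
    Matrix (Fin n) (Fin n) k[X] :=
  ∑ j ∈ Finset.range (m + 1), (C ((j.factorial : k)⁻¹) * X ^ j) • (ν ^ j).map C

theorem expN_zero {k : Type} [Field k] {n : ℕ} (ν : Matrix (Fin n) (Fin n) k) (m : ℕ) :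
    (expN ν m).map (eval 0) = 1 := by
  ext a b
  rw [Matrix.map_apply]
  unfold expN
  rw [Matrix.sum_apply, eval_finsetSum, Finset.sum_eq_single 0]
  · by_cases h : a = b
    · subst h
      simp
    · simp [h]
  · intro j _ hj
    simp [hj]
  · intro h
    exact absurd (Finset.mem_range.2 (Nat.succ_pos m)) h

theorem expN_deriv {k : Type} [Field k] [CharZero k] {n : ℕ} {ν : Matrix (Fin n) (Fin n) k} {m : ℕ}
    (hν : ν ^ (m + 1) = 0) : (expN ν m).map derivative = expN ν m * ν.map C := by
  have h1 : (expN ν m).map derivative = ∑ j ∈ Finset.range (m + 1),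
      (C ((j.factorial : k)⁻¹ * (j : k)) * X ^ (j - 1)) • (ν ^ j).map C := by
    ext1 a b
    rw [Matrix.map_apply]
    unfold expN
    rw [Matrix.sum_apply, Matrix.sum_apply, derivative_sum]
    refine Finset.sum_congr rfl fun j _ => ?_
    rw [Matrix.smul_apply, Matrix.smul_apply, smul_eq_mul, smul_eq_mul, Matrix.map_apply,
      derivative_mul, derivative_C, mul_zero, add_zero, derivative_C_mul_X_pow]
  rw [h1, Finset.sum_range_succ']
  have h2 : expN ν m * ν.map C = ∑ j ∈ Finset.range (m + 1),
      (C ((j.factorial : k)⁻¹) * X ^ j) • (ν ^ (j + 1)).map C := by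
    unfold expN
    rw [Finset.sum_mul]
    refine Finset.sum_congr rfl fun j _ => ?_
    rw [Matrix.smul_mul, pow_succ, Matrix.map_mul]
  rw [h2, Finset.sum_range_succ, hν]
  simp only [Nat.factorial_zero, Nat.cast_one, inv_one, CharP.cast_eq_zero, mul_zero, map_zero,
    zero_mul, zero_smul, add_zero, Matrix.map_zero, smul_zero]
  refine Finset.sum_congr rfl fun j _ => ?_
  congr 3
  rw [Nat.factorial_succ]
  have h3 : (j.factorial : k) ≠ 0 := Nat.cast_ne_zero.2 j.factorial_ne_zero
  have h4 : ((j + 1 : ℕ) : k) ≠ 0 := Nat.cast_ne_zero.2 (Nat.succ_ne_zero j)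
  push_cast at h4 ⊢
  field_simp

/-- polynomials which are fixed by the Galois group -/
theorem poly_descent {k M : Type} [Field k] [Field M] [Algebra k M] [FiniteDimensional k M]
    [IsGalois k M] (f : M[X]) (hf : ∀ δ : M ≃ₐ[k] M, f.map (δ : M →+* M) = f) :
    ∃ f0 : k[X], f0.map (algebraMap k M) = f := by
  have h1 : f ∈ lifts (algebraMap k M) := by
    rw [lifts_iff_coeff_lifts]
    intro n
    rw [IsGalois.mem_range_algebraMap_iff_fixed]
    intro δ
    have h2 := congrArg (fun p => coeff p n) (hf δ)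
    simp only [coeff_map] at h2
    exact h2
  rwa [mem_lifts] at h1

/-- the idempotents of a semisimple matrix -/
theorem idem {k M : Type} [Field k] [Field M] [Algebra k M] {n : ℕ}
    (σ : Matrix (Fin n) (Fin n) k) (g : k[X]) (hg : aeval σ g = 0) (Z : Finset M)
    (hgZ : g.map (algebraMap k M) = ∏ x ∈ Z, (X - C x))
    (hZ : ∀ γ : M ≃ₐ[k] M, ∀ x ∈ Z, γ x ∈ Z) :
    ∃ Pi : M → Matrix (Fin n) (Fin n) M, ∑ x ∈ Z, Pi x = 1 ∧
      (∀ x ∈ Z, Pi x * σ.map (algebraMap k M) = x • Pi x) ∧
      (∀ (δ : M ≃ₐ[k] M), ∀ x ∈ Z, (Pi x).map δ = Pi (δ x)) ∧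
      ∀ ν : Matrix (Fin n) (Fin n) k, Commute ν σ → ∀ x ∈ Z,
        Commute (ν.map (algebraMap k M)) (Pi x) := by
  classical
  set σM := σ.map (algebraMap k M) with hσM
  have hgM : aeval σM (g.map (algebraMap k M)) = 0 := by
    rw [aeval_map_algebraMap]
    have h1 := map_aeval_eq_aeval_map (R := k) (S := Matrix (Fin n) (Fin n) k)
      (T := M) (U := Matrix (Fin n) (Fin n) M) (φ := algebraMap k M)
      (ψ := (algebraMap k M).mapMatrix) (by
        ext c a b
        by_cases h : a = b
        · simp [Matrix.algebraMap_matrix_apply, h]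
        · simp [Matrix.algebraMap_matrix_apply, h]) g σ
    rw [hg, map_zero] at h1
    rw [aeval_map_algebraMap] at h1
    exact h1.symm
  let Pi : M → Matrix (Fin n) (Fin n) M := fun x => aeval σM (Lagrange.basis Z id x)
  refine ⟨Pi, ?_, fun x hx => ?_, fun δ x hx => ?_, fun ν hν x hx => ?_⟩
  · by_cases hne : Z.Nonempty
    · have h1 := Lagrange.sum_basis (s := Z) (v := id) Function.injective_id.injOn hne
      have h2 := congrArg (aeval σM) h1
      rw [map_sum, map_one] at h2
      exact h2
    · rw [Finset.not_nonempty_iff_eq_empty.1 hne, Finset.sum_empty]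
      rw [Finset.not_nonempty_iff_eq_empty.1 hne, Finset.prod_empty] at hgZ
      rw [hgZ, map_one] at hgM
      exact hgM.symm
  · have h1 : Lagrange.basis Z id x * (X - C x) =
        (∏ y ∈ Z.erase x, C (x - y)⁻¹) * g.map (algebraMap k M) := by
      rw [hgZ, ← Finset.mul_prod_erase Z _ hx]
      simp only [Lagrange.basis, Lagrange.basisDivisor, id]
      rw [Finset.prod_mul_distrib]
      ring
    have h2 := congrArg (aeval σM) h1
    rw [map_mul, map_mul, hgM, mul_zero, map_sub, aeval_X, aeval_C, mul_sub, sub_eq_zero] at h2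
    refine h2.trans ?_
    rw [Algebra.algebraMap_eq_smul_one, mul_smul_comm, mul_one]
  · have h1 : (Lagrange.basis Z id x).map (δ : M →+* M) = Lagrange.basis Z id (δ x) := by
      simp only [Lagrange.basis, Lagrange.basisDivisor, id, Polynomial.map_prod,
        Polynomial.map_mul, Polynomial.map_sub, map_C, map_X]
      refine Finset.prod_bij (fun y _ => δ y) (fun y hy => ?_) (fun y _ y' _ h => δ.injective h)
        (fun y hy => ?_) (fun y hy => ?_)
      · rw [Finset.mem_erase] at hy ⊢
        exact ⟨fun h => hy.1 (δ.injective h), hZ δ y hy.2⟩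
      · rw [Finset.mem_erase] at hy
        refine ⟨δ.symm y, ?_, δ.apply_symm_apply y⟩
        rw [Finset.mem_erase]
        refine ⟨fun h => hy.1 ?_, hZ δ.symm y hy.2⟩
        rw [← h, δ.apply_symm_apply]
      · simp
    have h2 : (Pi x).map δ = (δ : M →+* M).mapMatrix (aeval σM (Lagrange.basis Z id x)) := rfl
    rw [h2, aeval_def, hom_eval₂]
    have h3 : (δ : M →+* M).mapMatrix σM = σM := by
      ext a b
      simp [hσM]
    have h4 : ((δ : M →+* M).mapMatrix : Matrix (Fin n) (Fin n) M →+* _).comp
        (algebraMap M (Matrix (Fin n) (Fin n) M)) =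
        (algebraMap M (Matrix (Fin n) (Fin n) M)).comp (δ : M →+* M) := by
      ext c a b
      by_cases h : a = b
      · simp [Matrix.algebraMap_matrix_apply, h]
      · simp [Matrix.algebraMap_matrix_apply, h]
    rw [h3, h4, ← eval₂_map, h1]
    rfl
  · have h1 : Commute (ν.map (algebraMap k M)) σM := by
      change _ = _
      rw [hσM, ← Matrix.map_mul, ← Matrix.map_mul, hν.eq]
    change Commute _ (aeval σM (Lagrange.basis Z id x))
    induction (Lagrange.basis Z id x) using Polynomial.induction_on' with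
    | add p q hp hq => rw [map_add]; exact hp.add_right hq
    | monomial j c =>
      rw [aeval_monomial]
      exact (Algebra.commute_algebraMap_right c _).mul_right (h1.pow_right j)

end Pool.Agent.TH8.UDK
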