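import Pool.Agent.TH8.UDK.Exp
import Pool.Agent.TH8.UDK.Chi
import Pool.Agent.TH8.UDK.Nil
import Pool.Agent.TH143.DE.Flow

/-!
Rational families in place of one-parameter groups.
-/

set_option autoImplicit false

namespace Pool.Agent.TH8.UDK

open Polynomial Pool.Agent.TH143.DE

/-- the Jordan-Chevalley decomposition of a matrix -/
theorem jordan {k : Type} [Field k] [CharZero k] {n : ℕ} (β : Matrix (Fin n) (Fin n) k) :
    ∃ (ν σ : Matrix (Fin n) (Fin n) k) (g : k[X]), β = ν + σ ∧ Commute ν σ ∧ IsNilpotent ν ∧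
      g.Monic ∧ g.Separable ∧ aeval σ g = 0 := by
  let e : Matrix (Fin n) (Fin n) k ≃ₐ[k] Module.End k (Fin n → k) := Matrix.toLinAlgEquiv'
  obtain ⟨ν', hν', σ', hσ', hnil, hss, hsum⟩ :=
    Module.End.exists_isNilpotent_isSemisimple (f := e β)
  rw [Algebra.adjoin_singleton_eq_range_aeval] at hν' hσ'
  obtain ⟨p1, hp1⟩ := hν'
  obtain ⟨p2, hp2⟩ := hσ'
  have hp1' : aeval (e β) p1 = ν' := hp1
  have hp2' : aeval (e β) p2 = σ' := hp2
  have hcomm : Commute ν' σ' := by
    change _ = _
    rw [← hp1', ← hp2', ← map_mul, ← map_mul, mul_comm]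
  refine ⟨e.symm ν', e.symm σ', minpoly k σ', ?_, ?_, ?_, ?_, ?_, ?_⟩
  · rw [← map_add, ← hsum, e.symm_apply_apply]
  · exact hcomm.map e.symm
  · exact hnil.map e.symm
  · exact minpoly.monic (Algebra.IsIntegral.isIntegral σ')
  · exact PerfectField.separable_iff_squarefree.2 hss.minpoly_squarefree
  · have h1 := Polynomial.aeval_algHom_apply e.symm.toAlgHom σ' (minpoly k σ')
    rw [minpoly.aeval, map_zero] at h1
    exact h1

/-- the derivative of a product of matrices of polynomials -/
theorem deriv_mul_mat {M : Type} [Field M] {n : ℕ} (A B : Matrix (Fin n) (Fin n) M[X]) :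
    (A * B).map derivative = A.map derivative * B + A * B.map derivative := by
  ext1 i j
  rw [Matrix.map_apply, Matrix.add_apply, Matrix.mul_apply, Matrix.mul_apply, Matrix.mul_apply,
    derivative_sum, ← Finset.sum_add_distrib]
  refine Finset.sum_congr rfl fun a _ => ?_
  rw [derivative_mul, Matrix.map_apply, Matrix.map_apply]

/-- **Rational families.** For a matrix `β` over a subfield `k` of `ℂ` there is a rational function
`P(τ) / Q(τ)` over `k` with values in the matrices, which is `1 + β τ` up to terms of higher order,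
and which satisfies all relations that hold for the one-parameter group `exp(t β)`. -/
theorem rat_flow {k : Type} [Field k] [CharZero k] [Algebra k ℂ] {n : ℕ}
    (β : Matrix (Fin n) (Fin n) k) :
    ∃ (ex : ℂ → Matrix (Fin n) (Fin n) ℂ) (P : Matrix (Fin n) (Fin n) k[X]) (Q : k[X]),
      ExpF (β.map (algebraMap k ℂ)) ex ∧ Q.eval 0 = 1 ∧ P.map (eval 0) = 1 ∧
      P.map (fun f => (derivative f).eval 0) = (derivative Q).eval 0 • (1 : Matrix _ _ k) + β ∧
      ∀ (V : Matrix (Fin n) (Fin n) ℂ) (R : MvPolynomial (Fin n × Fin n) ℂ),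
        (∀ t, MvPolynomial.eval (mv (V * ex t)) R = 0) →
        ∀ τ : ℂ, Q.eval₂ (algebraMap k ℂ) τ ≠ 0 →
        MvPolynomial.eval (mv (V * ((Q.eval₂ (algebraMap k ℂ) τ)⁻¹ •
          P.map (eval₂ (algebraMap k ℂ) τ)))) R = 0 := by
  classical
  obtain ⟨ν, σ, g, hβ, hcomm, ⟨m, hm⟩, hgm, hgs, hg0⟩ := jordan β
  have hm1 : ν ^ (m + 1) = 0 := by rw [pow_succ, hm, zero_mul]
  let M := g.SplittingField
  have hgal : IsGalois k M := IsGalois.of_separable_splitting_field hgs
  have hM0 : CharZero M := charZero_of_injective_algebraMap (algebraMap k M).injective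
  let φ : M →ₐ[k] ℂ := IsAlgClosed.lift
  let Z : Finset M := (g.map (algebraMap k M)).roots.toFinset
  have hmon : (g.map (algebraMap k M)).Monic := hgm.map _
  have hgZ : g.map (algebraMap k M) = ∏ x ∈ Z, (X - C x) := by
    have h1 : (g.map (algebraMap k M)).Splits := SplittingField.splits g
    have h2 := h1.eq_prod_roots_of_monic hmon
    have h3 : (g.map (algebraMap k M)).roots.Nodup := nodup_roots hgs.map
    conv_lhs => rw [h2]
    rw [Finset.prod, Multiset.toFinset_val, Multiset.dedup_eq_self.2 h3]
  have hZ : ∀ γ : M ≃ₐ[k] M, ∀ x ∈ Z, γ x ∈ Z := by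
    intro γ x hx
    rw [Multiset.mem_toFinset, mem_roots hmon.ne_zero, IsRoot.def, eval_map_algebraMap] at hx ⊢
    have h1 := Polynomial.aeval_algHom_apply (γ : M →ₐ[k] M) x g
    rw [hx, map_zero] at h1
    exact h1
  obtain ⟨Pi, hPi1, hPi2, hPi3, hPi4⟩ := idem σ g hg0 Z hgZ hZ
  obtain ⟨Q, h, hQ0, hh0, hhd, hQδ, hhδ, hchar⟩ := exists_char k M Z hZ
  let NM : Matrix (Fin n) (Fin n) M[X] := (mapRingHom (algebraMap k M)).mapMatrix (expN ν m)
  let SM : Matrix (Fin n) (Fin n) M[X] := ∑ x ∈ Z, h x • (Pi x).map C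
  let PM := NM * SM
  -- descent
  have hinv : ∀ δ : M ≃ₐ[k] M, (mapRingHom (δ : M →+* M)).mapMatrix PM = PM := by
    intro δ
    have h1 : (mapRingHom (δ : M →+* M)).mapMatrix NM = NM := by
      ext1 a b
      change (((expN ν m) a b).map (algebraMap k M)).map (δ : M →+* M) = _
      rw [Polynomial.map_map]
      have h2 : (δ : M →+* M).comp (algebraMap k M) = algebraMap k M := by
        ext c
        exact δ.commutes c
      rw [h2]
      rfl
    have h2 : (mapRingHom (δ : M →+* M)).mapMatrix SM = SM := by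
      simp only [SM, map_sum]
      refine Finset.sum_bij (fun y _ => δ y) (fun y hy => hZ δ y hy)
        (fun y _ y' _ h => δ.injective h)
        (fun y hy => ⟨δ.symm y, hZ δ.symm y hy, δ.apply_symm_apply y⟩) (fun y hy => ?_)
      ext1 a b
      change (h y * C (Pi y a b)).map (δ : M →+* M) = h (δ y) * C (Pi (δ y) a b)
      rw [Polynomial.map_mul, hhδ δ y hy, map_C, ← hPi3 δ y hy]
      rfl
    change (mapRingHom (δ : M →+* M)).mapMatrix (NM * SM) = NM * SM
    rw [map_mul, h1, h2]
  have hPk : ∀ a b, ∃ f : k[X], f.map (algebraMap k M) = PM a b := by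
    intro a b
    apply poly_descent
    intro δ
    exact congrFun (congrFun (hinv δ) a) b
  choose Pk hPk using hPk
  obtain ⟨Qk, hQk⟩ := poly_descent Q hQδ
  have hinj : Function.Injective (algebraMap k M) := (algebraMap k M).injective
  have hinj : Function.Injective (algebraMap k M) := (algebraMap k M).injective
  -- values in zero
  have hNM0 : NM.map (eval 0) = 1 := by
    ext1 a b
    change (((expN ν m) a b).map (algebraMap k M)).eval 0 = _
    rw [eval_zero_map]
    have h1 := congrFun (congrFun (expN_zero ν m) a) b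
    rw [Matrix.map_apply] at h1
    rw [h1, Matrix.one_apply, Matrix.one_apply]
    split_ifs
    · rw [map_one]
    · rw [map_zero]
  have hSM0 : SM.map (eval 0) = 1 := by
    rw [← hPi1]
    ext1 a b
    rw [Matrix.map_apply]
    simp only [SM]
    rw [Matrix.sum_apply, Matrix.sum_apply, eval_finsetSum]
    refine Finset.sum_congr rfl fun x hx => ?_
    rw [Matrix.smul_apply, smul_eq_mul, Matrix.map_apply, eval_mul, eval_C, hh0 x hx, one_mul]
  have hmapmul : ∀ A B : Matrix (Fin n) (Fin n) M[X],
      (A * B).map (eval 0) = A.map (eval 0) * B.map (eval 0) := by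
    intro A B
    exact map_mul (evalRingHom (0 : M)).mapMatrix A B
  have hNM1 : (NM.map derivative).map (eval 0) = ν.map (algebraMap k M) := by
    have h1 : NM.map derivative = NM * (ν.map (algebraMap k M)).map C := by
      ext1 a b
      change derivative (((expN ν m) a b).map (algebraMap k M)) = _
      rw [derivative_map]
      have h2 := congrFun (congrFun (expN_deriv hm1) a) b
      rw [Matrix.map_apply] at h2
      rw [h2, Matrix.mul_apply, Matrix.mul_apply, Polynomial.map_sum]
      refine Finset.sum_congr rfl fun c _ => ?_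
      rw [Polynomial.map_mul]
      congr 1
      rw [Matrix.map_apply, Matrix.map_apply, Matrix.map_apply, map_C]
    rw [h1, hmapmul, hNM0, one_mul]
    ext1 a b
    simp
  have hSM1 : (SM.map derivative).map (eval 0) =
      (derivative Q).eval 0 • (1 : Matrix (Fin n) (Fin n) M) + σ.map (algebraMap k M) := by
    have h1 : σ.map (algebraMap k M) = ∑ x ∈ Z, x • Pi x := by
      rw [← Finset.sum_congr rfl fun x hx => hPi2 x hx, ← Finset.sum_mul, hPi1, one_mul]
    rw [h1, ← hPi1, Finset.smul_sum, ← Finset.sum_add_distrib]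
    ext1 a b
    rw [Matrix.map_apply, Matrix.map_apply]
    simp only [SM]
    rw [Matrix.sum_apply, Matrix.sum_apply, derivative_sum, eval_finsetSum]
    refine Finset.sum_congr rfl fun x hx => ?_
    rw [Matrix.smul_apply, smul_eq_mul, Matrix.map_apply, derivative_mul, derivative_C, mul_zero,
      add_zero, eval_mul, eval_C, hhd x hx, Matrix.add_apply, Matrix.smul_apply, Matrix.smul_apply,
      smul_eq_mul, smul_eq_mul, add_mul]
  have hPM0 : PM.map (eval 0) = 1 := by
    change (NM * SM).map (eval 0) = 1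
    rw [hmapmul, hNM0, hSM0, one_mul]
  have hPM1 : (PM.map derivative).map (eval 0) =
      (derivative Q).eval 0 • (1 : Matrix (Fin n) (Fin n) M) + β.map (algebraMap k M) := by
    change ((NM * SM).map derivative).map (eval 0) = _
    rw [deriv_mul_mat]
    have h1 : ∀ A B : Matrix (Fin n) (Fin n) M[X],
        (A + B).map (eval 0) = A.map (eval 0) + B.map (eval 0) := fun A B =>
      map_add (evalRingHom (0 : M)).mapMatrix A B
    rw [h1, hmapmul, hmapmul, hNM0, hSM0, hNM1, hSM1, mul_one, one_mul, hβ]
    ext1 a b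
    simp only [Matrix.add_apply, Matrix.map_apply, map_add]
    ring
  -- the one-parameter group
  have hφk : ∀ c : k, φ (algebraMap k M c) = algebraMap k ℂ c := fun c => φ.commutes c
  let Nt : Matrix (Fin n) (Fin n) ℂ[X] := (expN ν m).map (mapRingHom (algebraMap k ℂ))
  let Pc : {x // x ∈ Z} → Matrix (Fin n) (Fin n) ℂ := fun x => (Pi x).map φ
  let νc := ν.map (algebraMap k ℂ)
  let σc := σ.map (algebraMap k ℂ)
  let S : ℂ → Matrix (Fin n) (Fin n) ℂ := fun t => ∑ x : {x // x ∈ Z}, Complex.exp (φ x * t) • Pc x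
  let ex : ℂ → Matrix (Fin n) (Fin n) ℂ := fun t => Nt.map (evalRingHom t) * S t
  have hPc1 : ∑ x : {x // x ∈ Z}, Pc x = 1 := by
    have h1 := congrArg (fun A : Matrix (Fin n) (Fin n) M => (φ : M →+* ℂ).mapMatrix A) hPi1
    simp only [map_sum, map_one] at h1
    rw [← h1]
    exact Finset.sum_coe_sort Z (fun x => (φ : M →+* ℂ).mapMatrix (Pi x))
  have hPc2 : ∀ x : {x // x ∈ Z}, Pc x * σc = (φ x : ℂ) • Pc x := by
    intro x
    have h1 := congrArg (fun A : Matrix (Fin n) (Fin n) M => (φ : M →+* ℂ).mapMatrix A)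
      (hPi2 x x.2)
    simp only [map_mul] at h1
    have h2 : (φ : M →+* ℂ).mapMatrix (σ.map (algebraMap k M)) = σc := by
      ext1 a b
      exact hφk _
    rw [h2] at h1
    refine Eq.trans h1 ?_
    ext1 a b
    change φ ((x : M) * Pi x a b) = φ x * φ (Pi x a b)
    rw [map_mul]
  have hPc3 : ∀ x : {x // x ∈ Z}, νc * Pc x = Pc x * νc := by
    intro x
    have h1 := congrArg (fun A : Matrix (Fin n) (Fin n) M => (φ : M →+* ℂ).mapMatrix A)
      (hPi4 ν hcomm x x.2).eq
    simp only [map_mul] at h1
    have h2 : (φ : M →+* ℂ).mapMatrix (ν.map (algebraMap k M)) = νc := by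
      ext1 a b
      exact hφk _
    rw [h2] at h1
    exact h1
  have hνS : ∀ t, νc * S t = S t * νc := by
    intro t
    simp only [S]
    rw [Finset.mul_sum, Finset.sum_mul]
    refine Finset.sum_congr rfl fun x _ => ?_
    rw [Matrix.mul_smul, Matrix.smul_mul, hPc3]
  have hNtd : ∀ t i a, HasDerivAt (fun s => Nt.map (evalRingHom s) i a)
      ((Nt.map (evalRingHom t) * νc) i a) t := by
    intro t i a
    have h1 : (Nt.map (evalRingHom t) * νc) i a = (derivative (Nt i a)).eval t := by
      change _ = (derivative (((expN ν m) i a).map (algebraMap k ℂ))).eval t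
      rw [derivative_map]
      have h2 := congrFun (congrFun (expN_deriv hm1) i) a
      rw [Matrix.map_apply] at h2
      rw [h2, Matrix.mul_apply, Matrix.mul_apply, Polynomial.map_sum, eval_finsetSum]
      refine Finset.sum_congr rfl fun c _ => ?_
      rw [Polynomial.map_mul, eval_mul, Matrix.map_apply (f := C), map_C, eval_C]
      rfl
    rw [h1]
    exact (Nt i a).hasDerivAt t
  have hSd : ∀ t a j, HasDerivAt (fun s => S s a j) ((S t * σc) a j) t := by
    intro t a j
    have h1 : (fun s => S s a j) = fun s => ∑ x : {x // x ∈ Z},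
        Complex.exp (φ x * s) * Pc x a j := by
      funext s
      simp only [S]
      rw [Matrix.sum_apply]
      rfl
    have h2 : (S t * σc) a j = ∑ x : {x // x ∈ Z},
        Complex.exp (φ x * t) * φ x * Pc x a j := by
      simp only [S]
      rw [Finset.sum_mul, Matrix.sum_apply]
      refine Finset.sum_congr rfl fun x _ => ?_
      rw [Matrix.smul_mul, hPc2, smul_smul, Matrix.smul_apply, smul_eq_mul]
    rw [h1, h2]
    apply HasDerivAt.fun_sum
    intro x _
    have h3 : HasDerivAt (fun s => φ x * s) (φ x : ℂ) t := by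
      simpa using (hasDerivAt_id t).const_mul (φ x : ℂ)
    exact h3.cexp.mul_const _
  have hex : ExpF (β.map (algebraMap k ℂ)) ex := by
    refine ⟨?_, fun t i j => ?_⟩
    · have h1 : Nt.map (evalRingHom 0) = 1 := by
        ext1 a b
        change (((expN ν m) a b).map (algebraMap k ℂ)).eval 0 = _
        rw [eval_zero_map]
        have h1 := congrFun (congrFun (expN_zero ν m) a) b
        rw [Matrix.map_apply] at h1
        rw [h1, Matrix.one_apply, Matrix.one_apply]
        split_ifs
        · rw [map_one]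
        · rw [map_zero]
      have h2 : S 0 = 1 := by
        simp only [S, mul_zero, Complex.exp_zero, one_smul]
        exact hPc1
      change Nt.map (evalRingHom 0) * S 0 = 1
      rw [h1, h2, one_mul]
    · have h1 : (fun s => ex s i j) = fun s => ∑ a, Nt.map (evalRingHom s) i a * S s a j := by
        funext s
        exact Matrix.mul_apply
      have h2 : (ex t * β.map (algebraMap k ℂ)) i j = ∑ a, ((Nt.map (evalRingHom t) * νc) i a *
          S t a j + Nt.map (evalRingHom t) i a * (S t * σc) a j) := by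
        have h3 : β.map (algebraMap k ℂ) = νc + σc := by
          rw [hβ]
          ext1 a b
          simp [νc, σc]
        rw [Finset.sum_add_distrib, ← Matrix.mul_apply, ← Matrix.mul_apply, ← Matrix.add_apply, h3]
        change (Nt.map (evalRingHom t) * S t * (νc + σc)) i j = _
        rw [mul_add, Matrix.mul_assoc, Matrix.mul_assoc, ← hνS, Matrix.mul_assoc]
      rw [h1, h2]
      apply HasDerivAt.fun_sum
      intro a _
      exact (hNtd t i a).mul (hSd t a j)
  refine ⟨ex, Matrix.of Pk, Qk, hex, ?_, ?_, ?_, ?_⟩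
  · apply hinj
    rw [← eval_zero_map, hQk, hQ0, map_one]
  · ext1 a b
    apply hinj
    rw [Matrix.map_apply, Matrix.of_apply, ← eval_zero_map, hPk]
    have h1 := congrFun (congrFun hPM0 a) b
    rw [Matrix.map_apply] at h1
    rw [h1, Matrix.one_apply, Matrix.one_apply]
    split_ifs
    · rw [map_one]
    · rw [map_zero]
  · ext1 a b
    apply hinj
    rw [Matrix.map_apply, Matrix.of_apply, ← eval_zero_map, ← derivative_map, hPk]
    have h1 := congrFun (congrFun hPM1 a) b
    rw [Matrix.map_apply, Matrix.map_apply] at h1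
    rw [h1, Matrix.add_apply, Matrix.add_apply, Matrix.smul_apply, Matrix.smul_apply, map_add,
      smul_eq_mul, smul_eq_mul, map_mul, ← eval_zero_map, ← derivative_map, hQk, Matrix.map_apply,
      Matrix.one_apply, Matrix.one_apply]
    split_ifs
    · rw [map_one]
    · rw [map_zero]
  · intro V R hR τ hτ
    have hQe : Qk.eval₂ (algebraMap k ℂ) τ = Q.eval₂ (φ : M →+* ℂ) τ := by
      rw [← hQk, eval₂_map]
      congr 1
      ext c
      exact (hφk c).symm
    rw [hQe] at hτ
    have h1 := mat_spec (fun x : {x // x ∈ Z} => (φ x : ℂ)) V Nt Pc R (fun t => by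
      have h2 := hR t
      change MvPolynomial.eval (mv (V * (Nt.map (evalRingHom t) * S t))) R = 0 at h2
      rw [← Matrix.mul_assoc] at h2
      exact h2) (fun x => (h x).eval₂ (φ : M →+* ℂ) τ / Q.eval₂ (φ : M →+* ℂ) τ)
      (hchar (φ : M →+* ℂ) τ hτ) τ
    have h2 : V * ((Qk.eval₂ (algebraMap k ℂ) τ)⁻¹ •
        (Matrix.of Pk).map (eval₂ (algebraMap k ℂ) τ)) =
        V * Nt.map (evalRingHom τ) * ∑ x : {x // x ∈ Z},
          ((h x).eval₂ (φ : M →+* ℂ) τ / Q.eval₂ (φ : M →+* ℂ) τ) • Pc x := by
      have h3 : (Matrix.of Pk).map (eval₂ (algebraMap k ℂ) τ) =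
          Nt.map (evalRingHom τ) * ∑ x : {x // x ∈ Z}, (h x).eval₂ (φ : M →+* ℂ) τ • Pc x := by
        have h4 : (Matrix.of Pk).map (eval₂ (algebraMap k ℂ) τ) =
            (eval₂RingHom (φ : M →+* ℂ) τ).mapMatrix PM := by
          ext1 a b
          change (Pk a b).eval₂ (algebraMap k ℂ) τ = (PM a b).eval₂ (φ : M →+* ℂ) τ
          rw [← hPk, eval₂_map]
          congr 1
          ext c
          exact (hφk c).symm
        rw [h4]
        change (eval₂RingHom (φ : M →+* ℂ) τ).mapMatrix (NM * SM) = _
        rw [map_mul]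
        congr 1
        · ext1 a b
          change (((expN ν m) a b).map (algebraMap k M)).eval₂ (φ : M →+* ℂ) τ =
            (((expN ν m) a b).map (algebraMap k ℂ)).eval τ
          rw [eval₂_map, eval_map]
          congr 1
          ext c
          exact hφk c
        · simp only [SM, map_sum]
          rw [← Finset.sum_coe_sort]
          refine Finset.sum_congr rfl fun x _ => ?_
          ext1 a b
          change (h x * C (Pi x a b)).eval₂ (φ : M →+* ℂ) τ = (h x).eval₂ (φ : M →+* ℂ) τ *
            φ (Pi x a b)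
          rw [eval₂_mul, eval₂_C]
          rfl
      rw [h3, hQe, Matrix.mul_assoc]
      congr 1
      rw [← Matrix.mul_smul, Finset.smul_sum]
      congr 1
      refine Finset.sum_congr rfl fun x _ => ?_
      rw [smul_smul]
      congr 1
      rw [div_eq_inv_mul]
    rw [h2]
    exact h1

end Pool.Agent.TH8.UDK
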